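import Pool.Agent.H597.SP.Dil

/-!
Assembly: sets of integers `c * ∏ r p ^ e p`, where the exponents run over a down-closed set.
-/

set_option autoImplicit false

namespace Pool.Agent.H597.SP

open Finset
open Pool.Agent.TH83.SQ (cls dil)
open Pool.Agent.TH83.DC (wt tup kProd kProd_eq kProd_nonempty kSum kSum_nonempty kSum_add_ge struct
  closed_zero log_add_ge card_dil)
open scoped Pointwise Classical

/-- the completely multiplicative function with the values `r p` -/
def g (r : ℕ → ℚ) (n : ℕ) : ℚ := n.factorization.prod fun p e => r p ^ e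

theorem g_mul (r : ℕ → ℚ) {m n : ℕ} (hm : m ≠ 0) (hn : n ≠ 0) : g r (m * n) = g r m * g r n := by
  unfold g
  rw [Nat.factorization_mul hm hn]
  exact Finsupp.prod_add_index' (fun _ => pow_zero _) fun _ _ _ => pow_add _ _ _

theorem g_one (r : ℕ → ℚ) : g r 1 = 1 := by simp [g]

theorem g_eq (r : ℕ → ℚ) (n : ℕ) :
    g r n = (ev (fun p => (r p).num) n : ℚ) / ev (fun p => ((r p).den : ℤ)) n := by
  unfold g ev Finsupp.prod
  push_cast
  rw [← Finset.prod_div_distrib]
  refine Finset.prod_congr rfl fun p _ => ?_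
  rw [← div_pow, Rat.num_div_den]

/-- a triangular system of rational numbers -/
structure TriQ (Pi : Set ℕ) (r : ℕ → ℚ) (l : ℕ → ℕ) : Prop where
  prime : ∀ p ∈ Pi, p.Prime
  lprime : ∀ p ∈ Pi, (l p).Prime
  ne : ∀ p ∈ Pi, padicValRat (l p) (r p) ≠ 0
  zero : ∀ p ∈ Pi, ∀ x ∈ Pi, x < p → padicValRat (l p) (r x) = 0

variable {Pi : Set ℕ} {r : ℕ → ℚ} {l : ℕ → ℕ}

theorem TriQ.r0 (h : TriQ Pi r l) {p : ℕ} (hp : p ∈ Pi) : r p ≠ 0 := by
  intro h0
  apply h.ne p hp
  rw [h0, padicValRat.zero]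

theorem g_ne (h : TriQ Pi r l) {n : ℕ} (hn : ∀ p ∈ n.primeFactors, p ∈ Pi) : g r n ≠ 0 := by
  unfold g
  rw [Finsupp.prod, Finset.prod_ne_zero_iff]
  intro p hp
  exact pow_ne_zero _ (h.r0 (hn p hp))

theorem val_zero {L : ℕ} (hL : L.Prime) {x : ℚ} (hx : x ≠ 0) (h : padicValRat L x = 0) :
    IsCoprime x.num (L : ℤ) ∧ IsCoprime (x.den : ℤ) (L : ℤ) := by
  have hLp : Prime (L : ℤ) := Nat.prime_iff_prime_int.1 hL
  have : Fact L.Prime := ⟨hL⟩
  have hc : x.num.natAbs.Coprime x.den := x.reduced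
  unfold padicValRat padicValInt at h
  have hn0 : x.num.natAbs ≠ 0 := Int.natAbs_ne_zero.2 (Rat.num_ne_zero.2 hx)
  have key : ¬ L ∣ x.num.natAbs ∧ ¬ L ∣ x.den := by
    constructor
    · intro h1
      have h2 : ¬ L ∣ x.den := fun h2 => by
        have := Nat.dvd_gcd h1 h2
        rw [hc] at this
        exact hL.one_lt.ne' (Nat.dvd_one.1 this)
      have h3 := padicValNat.eq_zero_of_not_dvd h2
      have h4 := one_le_padicValNat_of_dvd hn0 h1
      rw [h3] at h
      omega
    · intro h1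
      have h2 : ¬ L ∣ x.num.natAbs := fun h2 => by
        have := Nat.dvd_gcd h2 h1
        rw [hc] at this
        exact hL.one_lt.ne' (Nat.dvd_one.1 this)
      have h3 := padicValNat.eq_zero_of_not_dvd h2
      have h4 := one_le_padicValNat_of_dvd x.den_ne_zero h1
      rw [h3] at h
      omega
  constructor
  · rw [isCoprime_comm, hLp.coprime_iff_not_dvd, Int.natCast_dvd]
    exact key.1
  · rw [isCoprime_comm, hLp.coprime_iff_not_dvd, Int.natCast_dvd_natCast]
    exact key.2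

/-- the exact power in a nonzero integer -/
theorem exact_pow {L : ℕ} (hL : L.Prime) {z : ℤ} (hz : z ≠ 0) (hd : (L : ℤ) ∣ z) :
    ∃ (k : ℕ) (v : ℤ), 1 ≤ k ∧ k = padicValInt L z ∧ z = v * ((L ^ k : ℕ) : ℤ) ∧
      IsCoprime v (L : ℤ) := by
  have : Fact L.Prime := ⟨hL⟩
  have hLp : Prime (L : ℤ) := Nat.prime_iff_prime_int.1 hL
  have hfin : FiniteMultiplicity (L : ℤ) z :=
    Int.finiteMultiplicity_iff.2 ⟨by simpa using hL.one_lt.ne', hz⟩
  obtain ⟨v, hv, hv2⟩ := hfin.exists_eq_pow_mul_and_not_dvd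
  have hk : multiplicity (L : ℤ) z = padicValInt L z := by
    rw [padicValInt.of_ne_one_ne_zero hL.one_lt.ne' hz]
  refine ⟨multiplicity (L : ℤ) z, v, ?_, hk, ?_, ?_⟩
  · by_contra hcon
    have h0 : multiplicity (L : ℤ) z = 0 := by omega
    rw [h0, pow_zero, one_mul] at hv
    exact hv2 (hv ▸ hd)
  · push_cast
    rw [mul_comm]; exact hv
  · rw [isCoprime_comm, hLp.coprime_iff_not_dvd]
    exact hv2

/-- the exact power in one of the two parts of a rational number -/
theorem exact_div {L : ℕ} (hL : L.Prime) {x : ℚ} (hx : padicValRat L x ≠ 0) :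
    ∃ Q : ℕ, 2 ≤ Q ∧ (∀ l : ℕ, l.Prime → l ∣ Q → l = L) ∧ (∀ z : ℤ, IsCoprime z (L : ℤ) →
      IsCoprime z (Q : ℤ)) ∧ ∃ t w v : ℤ, t = v * Q ∧ IsCoprime v (Q : ℤ) ∧ IsCoprime w (Q : ℤ) ∧
      ((x.num = t ∧ (x.den : ℤ) = w) ∨ (x.num = w ∧ (x.den : ℤ) = t)) := by
  have hLp : Prime (L : ℤ) := Nat.prime_iff_prime_int.1 hL
  have hr0 : x ≠ 0 := by rintro rfl; exact hx (padicValRat.zero)
  have hc : x.num.natAbs.Coprime x.den := x.reduced
  have hn0 : x.num ≠ 0 := Rat.num_ne_zero.2 hr0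
  have h2le : ∀ k, 1 ≤ k → 2 ≤ L ^ k := fun k hk =>
    calc 2 ≤ L := hL.two_le
      _ = L ^ 1 := (pow_one _).symm
      _ ≤ _ := Nat.pow_le_pow_right hL.pos hk
  by_cases h1 : (L : ℤ) ∣ x.num
  · have h2 : ¬ L ∣ x.den := fun h2 => by
      have := Nat.dvd_gcd (Int.natCast_dvd.1 h1) h2
      rw [hc] at this
      exact hL.one_lt.ne' (Nat.dvd_one.1 this)
    obtain ⟨k, v, hk1, hk2, hk3, hk4⟩ := exact_pow hL hn0 h1
    refine ⟨L ^ k, h2le k hk1, fun l hl hlk => (Nat.prime_dvd_prime_iff_eq hl hL).1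
      (hl.dvd_of_dvd_pow hlk), fun z hz => by push_cast; exact hz.pow_right,
      x.num, (x.den : ℤ), v, hk3, ?_, ?_, Or.inl ⟨rfl, rfl⟩⟩
    · push_cast; exact hk4.pow_right
    · push_cast
      apply IsCoprime.pow_right
      rw [isCoprime_comm, hLp.coprime_iff_not_dvd, Int.natCast_dvd_natCast]
      exact h2
  · have h2 : L ∣ x.den := by
      by_contra h2
      apply hx
      unfold padicValRat padicValInt
      rw [padicValNat.eq_zero_of_not_dvd h2, padicValNat.eq_zero_of_not_dvd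
        (fun h3 => h1 (Int.natCast_dvd.2 h3))]
      simp
    obtain ⟨k, v, hk1, hk2, hk3, hk4⟩ := exact_pow hL
      (by exact_mod_cast x.den_ne_zero : (x.den : ℤ) ≠ 0) (Int.natCast_dvd_natCast.2 h2)
    refine ⟨L ^ k, h2le k hk1, fun l hl hlk => (Nat.prime_dvd_prime_iff_eq hl hL).1
      (hl.dvd_of_dvd_pow hlk), fun z hz => by push_cast; exact hz.pow_right,
      (x.den : ℤ), x.num, v, hk3, ?_, ?_, Or.inr ⟨rfl, rfl⟩⟩
    · push_cast; exact hk4.pow_right
    · push_cast
      apply IsCoprime.pow_right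
      rw [isCoprime_comm, hLp.coprime_iff_not_dvd]
      exact h1

/-- the integer system -/
theorem TriQ.tri (h : TriQ Pi r l) :
    ∃ q : ℕ → ℕ, Tri Pi (fun p => (r p).num) (fun p => ((r p).den : ℤ)) q := by
  have h1 : ∀ p, p ∈ Pi → ∃ Q : ℕ, 2 ≤ Q ∧ (∀ z : ℤ, IsCoprime z (l p : ℤ) →
      IsCoprime z (Q : ℤ)) ∧ ∃ t w v : ℤ, t = v * Q ∧ IsCoprime v (Q : ℤ) ∧ IsCoprime w (Q : ℤ) ∧
      (((r p).num = t ∧ ((r p).den : ℤ) = w) ∨ ((r p).num = w ∧ ((r p).den : ℤ) = t)) := by
    intro p hp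
    obtain ⟨Q, h1, _, h2, h3⟩ := exact_div (h.lprime p hp) (h.ne p hp)
    exact ⟨Q, h1, h2, h3⟩
  choose! q hq1 hq2 hq3 using h1
  refine ⟨q, h.prime, hq1, hq3, ?_, ?_⟩
  · intro p hp x hx hxp
    exact hq2 p hp _ (val_zero (h.lprime p hp) (h.r0 hx) (h.zero p hp x hx hxp)).1
  · intro p hp x hx hxp
    exact hq2 p hp _ (val_zero (h.lprime p hp) (h.r0 hx) (h.zero p hp x hx hxp)).2

/-- the valuation of a product of powers -/
theorem val_prod {L : ℕ} (hL : L.Prime) (U : Finset ℕ) (f : ℕ → ℚ) (hf : ∀ x ∈ U, f x ≠ 0)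
    (e : ℕ → ℕ) :
    padicValRat L (∏ x ∈ U, f x ^ e x) = ∑ x ∈ U, (e x : ℤ) * padicValRat L (f x) := by
  have : Fact L.Prime := ⟨hL⟩
  induction U using Finset.induction_on with
  | empty => simp
  | insert p U hp ih =>
    have h1 := hf p (Finset.mem_insert_self _ _)
    have h2 : ∀ x ∈ U, f x ≠ 0 := fun x hx => hf x (Finset.mem_insert_of_mem hx)
    rw [Finset.prod_insert hp, Finset.sum_insert hp, padicValRat.mul (pow_ne_zero _ h1)
      (Finset.prod_ne_zero_iff.2 fun x hx => pow_ne_zero _ (h2 x hx)), ih h2, padicValRat.pow]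

theorem val_g (h : TriQ Pi r l) {L : ℕ} (hL : L.Prime) {n : ℕ} {U : Finset ℕ}
    (hU : n.primeFactors ⊆ U) (hUPi : ∀ x ∈ U, x ∈ Pi) :
    padicValRat L (g r n) = ∑ x ∈ U, (n.factorization x : ℤ) * padicValRat L (r x) := by
  have h1 : g r n = ∏ x ∈ U, r x ^ n.factorization x := by
    unfold g
    exact Finsupp.prod_of_support_subset _ hU _ fun _ _ => pow_zero _
  rw [h1, val_prod hL U r fun x hx => h.r0 (hUPi x hx)]

/-- multiplicative independence -/
theorem g_inj (h : TriQ Pi r l) {m n : ℕ} (hm0 : m ≠ 0) (hn0 : n ≠ 0)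
    (hm : ∀ p ∈ m.primeFactors, p ∈ Pi) (hn : ∀ p ∈ n.primeFactors, p ∈ Pi)
    (hg : g r m = g r n) : m = n := by
  by_contra hne
  set U : Finset ℕ := m.primeFactors ∪ n.primeFactors with hU
  have hUPi : ∀ x ∈ U, x ∈ Pi := by
    intro x hx
    rcases Finset.mem_union.1 hx with h1 | h1
    · exact hm x h1
    · exact hn x h1
  set S : Finset ℕ := U.filter fun x => m.factorization x ≠ n.factorization x with hS
  have hSn : S.Nonempty := by
    by_contra hcon
    rw [Finset.not_nonempty_iff_eq_empty] at hcon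
    apply hne
    apply Nat.eq_of_factorization_eq hm0 hn0
    intro x
    by_contra hx
    have h1 : x ∈ S := by
      rw [hS, Finset.mem_filter]
      refine ⟨?_, hx⟩
      by_contra hxU
      rw [hU, Finset.mem_union, not_or] at hxU
      apply hx
      rw [Finsupp.notMem_support_iff.1 (show x ∉ m.factorization.support from hxU.1),
        Finsupp.notMem_support_iff.1 (show x ∉ n.factorization.support from hxU.2)]
    rw [hcon] at h1
    exact absurd h1 (Finset.notMem_empty x)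
  set p : ℕ := S.max' hSn with hp
  have hpS : p ∈ S := Finset.max'_mem S hSn
  obtain ⟨hpU, hpne⟩ := Finset.mem_filter.1 hpS
  have hpPi := hUPi p hpU
  have hL := h.lprime p hpPi
  have h1 := val_g h hL (Finset.subset_union_left : m.primeFactors ⊆ U) hUPi
  have h2 := val_g h hL (Finset.subset_union_right : n.primeFactors ⊆ U) hUPi
  rw [hg, h2] at h1
  have h3 : ∑ x ∈ U, ((n.factorization x : ℤ) - m.factorization x) * padicValRat (l p) (r x) = 0 := by
    simp only [sub_mul, Finset.sum_sub_distrib]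
    rw [h1, sub_self]
  rw [Finset.sum_eq_single p] at h3
  · rcases mul_eq_zero.1 h3 with h4 | h4
    · apply hpne
      omega
    · exact h.ne p hpPi h4
  · intro x hx hxp
    rcases lt_or_gt_of_ne hxp with h4 | h4
    · rw [h.zero p hpPi x (hUPi x hx) h4, mul_zero]
    · have h5 : x ∉ S := fun h5 => absurd (Finset.le_max' S x h5) (not_le.2 h4)
      have h6 : m.factorization x = n.factorization x := by
        by_contra h7
        exact h5 (Finset.mem_filter.2 ⟨hx, h7⟩)
      rw [h6, sub_self, zero_mul]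
  · intro h4
    exact absurd hpU h4

theorem pf_mul {m n p : ℕ} (hm : m ≠ 0) (hn : n ≠ 0) (hp : p ∈ (m * n).primeFactors) :
    p ∈ m.primeFactors ∨ p ∈ n.primeFactors := by
  rw [Nat.primeFactors_mul hm hn] at hp
  exact Finset.mem_union.1 hp

/-- the data -/
structure Data (Pi : Set ℕ) (r : ℕ → ℚ) (D : Finset ℕ) (c₀ : ℚ) (A A' : Finset ℤ) : Prop where
  ne : D.Nonempty
  n0 : 0 ∉ D
  supp : ∀ n ∈ D, ∀ p ∈ n.primeFactors, p ∈ Pi
  c0 : c₀ ≠ 0
  eq : A.image (fun z : ℤ => (z : ℚ)) = D.image fun n => c₀ * g r n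
  div : ∀ d, (∃ n ∈ D, d ∣ n) → ∃ z ∈ A', (z : ℚ) = c₀ * g r d

variable {D : Finset ℕ} {c₀ : ℚ} {A A' : Finset ℤ}

theorem cast_card (A : Finset ℤ) : (A.image (fun z : ℤ => (z : ℚ))).card = A.card :=
  Finset.card_image_of_injective _ Int.cast_injective

theorem card_eq (h : TriQ Pi r l) (hd : Data Pi r D c₀ A A') : A.card = D.card := by
  have h0 : 0 ∉ D := hd.n0
  rw [← cast_card A, hd.eq]
  apply Finset.card_image_of_injOn
  intro m hm n hn hmn
  have h1 : g r m = g r n := mul_left_cancel₀ hd.c0 hmn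
  exact g_inj h (fun h => h0 (h ▸ hm)) (fun h => h0 (h ▸ hn)) (hd.supp m hm) (hd.supp n hn) h1

theorem kProd_le (h : TriQ Pi r l) (hd : Data Pi r D c₀ A A') (k : ℕ) :
    (kProd k D).card ≤ (kProd k A).card := by
  have h0 : 0 ∉ D := hd.n0
  have hk : ∀ (k : ℕ) (f : Fin k → ℕ), (∀ i, f i ∈ D) → (∏ i, f i ≠ 0) ∧
      (∀ p ∈ (∏ i, f i).primeFactors, p ∈ Pi) ∧ g r (∏ i, f i) = ∏ i, g r (f i) := by
    intro k
    induction k with
    | zero => intro f _; simp [g_one]
    | succ k ih =>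
      intro f hf
      obtain ⟨h1, h2, h3⟩ := ih (fun i => f i.succ) (fun i => hf i.succ)
      have h4 : f 0 ≠ 0 := fun h => h0 (h ▸ hf 0)
      rw [Fin.prod_univ_succ, Fin.prod_univ_succ]
      refine ⟨mul_ne_zero h4 h1, ?_, ?_⟩
      · intro p hp
        rcases pf_mul h4 h1 hp with h5 | h5
        · exact hd.supp _ (hf 0) p h5
        · exact h2 p h5
      · rw [g_mul r h4 h1, h3]
  have h1 : ((kProd k D).image fun n => c₀ ^ k * g r n).card = (kProd k D).card := by
    apply Finset.card_image_of_injOn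
    intro m hm n hn hmn
    have h2 : g r m = g r n := mul_left_cancel₀ (pow_ne_zero _ hd.c0) hmn
    obtain ⟨f, hf, rfl⟩ := Finset.mem_image.1 (Finset.mem_coe.1 hm)
    obtain ⟨f', hf', rfl⟩ := Finset.mem_image.1 (Finset.mem_coe.1 hn)
    rw [Fintype.mem_piFinset] at hf hf'
    obtain ⟨a1, a2, _⟩ := hk k f hf
    obtain ⟨b1, b2, _⟩ := hk k f' hf'
    exact g_inj h a1 b1 a2 b2 h2
  rw [← h1, ← cast_card (kProd k A)]
  apply Finset.card_le_card
  intro y hy
  obtain ⟨n, hn, rfl⟩ := Finset.mem_image.1 hy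
  obtain ⟨f, hf, rfl⟩ := Finset.mem_image.1 hn
  rw [Fintype.mem_piFinset] at hf
  have h2 : ∀ i, ∃ z ∈ A, (z : ℚ) = c₀ * g r (f i) := by
    intro i
    have : c₀ * g r (f i) ∈ A.image (fun z : ℤ => (z : ℚ)) := by
      rw [hd.eq]; exact Finset.mem_image_of_mem _ (hf i)
    exact Finset.mem_image.1 this
  choose z hz1 hz2 using h2
  refine Finset.mem_image.2 ⟨∏ i, z i, Finset.mem_image.2 ⟨z, Fintype.mem_piFinset.2 hz1, rfl⟩, ?_⟩
  push_cast
  simp only [hz2]
  rw [Finset.prod_mul_distrib, Finset.prod_const, Finset.card_univ, Fintype.card_fin,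
    (hk k f hf).2.2]

/-- few products: large sums with every set -/
theorem main (k : ℕ) (hk : 0 < k) (δ ε κ : ℝ) (hδ : 0 < δ) (hε : 0 < ε) (hκ : 0 < κ) :
    ∃ (C η : ℝ) (K : ℕ), 0 ≤ C ∧ 0 < η ∧ ∀ (Pi : Set ℕ) (M : ℕ) (r : ℕ → ℚ) (l : ℕ → ℕ),
      TriQ Pi r l → (∀ P : Finset ℕ, P.Nonempty → (∀ x ∈ P, x ∈ Pi) →
        ∃ p ∈ P, ∃ Q, Step M K (fun p => (r p).num) (fun p => ((r p).den : ℤ)) P p Q) →
      ∀ (D : Finset ℕ) (c₀ : ℚ) (A A' : Finset ℤ),
      Data Pi r D c₀ A A' → (∀ n ∈ D, wt n ≤ κ * Real.log A.card) →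
      (M : ℝ) ≤ 2 * K ^ 2 * (1 + η * Real.log A.card) →
      Real.log (kProd k A).card ≤ (k - δ) * Real.log A.card →
      ∀ B : Finset ℤ, B.Nonempty →
        (1 - ε) * (Real.log A.card + Real.log B.card) - C ≤ Real.log ((A' + B).card : ℝ) := by
  set ε₁ : ℝ := min ε 1 / 2 with hε₁
  have hε10 : 0 < ε₁ := by positivity
  have hε11 : ε₁ ≤ 1 / 2 := by
    have := min_le_right ε 1
    rw [hε₁]; linarith
  have hε12 : 2 * ε₁ ≤ ε := by
    have := min_le_left ε 1
    rw [hε₁]; linarith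
  obtain ⟨θ, L₀, hθ, hst⟩ := struct k hk δ ε₁ κ hδ hε10 hκ
  set MM : ℝ := 1 / ε with hMM
  have hM0 : 0 < MM := by positivity
  obtain ⟨C, η, K, hη, hC⟩ := dilates ε₁ (θ / (1 + MM)) hε10 (by positivity)
  refine ⟨max C (max L₀ 0), η / 2, K, (le_max_right _ _).trans (le_max_right _ _), by positivity,
    ?_⟩
  intro Pi M r l h hstep D c₀ A A' hd hwt' hML hprod B hB
  have hcard := card_eq h hd
  have h0 : 0 ∉ D := hd.n0
  have hA : A.Nonempty := by
    rw [← Finset.card_pos, hcard]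
    exact hd.ne.card_pos
  have hA' : A'.Nonempty := by
    obtain ⟨n, hn⟩ := hd.ne
    obtain ⟨z, hz, _⟩ := hd.div n ⟨n, hn, dvd_rfl⟩
    exact ⟨z, hz⟩
  set L := Real.log A.card with hLdef
  have hL0 : 0 ≤ L := Real.log_natCast_nonneg _
  have hB0 : 0 ≤ Real.log B.card := Real.log_natCast_nonneg _
  have hlow : Real.log B.card ≤ Real.log ((A' + B).card : ℝ) := log_add_ge hA' hB
  have hLD : Real.log D.card = L := by rw [hLdef, hcard]
  by_cases hL : L₀ ≤ L
  · by_cases hBM : Real.log B.card ≤ MM * L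
    · have hwt : ∀ n ∈ D, wt n ≤ κ * Real.log D.card := by rw [hLD]; exact hwt'
      have hprod' : Real.log ((tup k D).image fun x => ∏ i, x i).card ≤
          (k - δ) * Real.log D.card := by
        rw [← kProd_eq, hLD]
        refine le_trans (Real.log_le_log ?_ ?_) hprod
        · exact_mod_cast (kProd_nonempty k hd.ne).card_pos
        · exact_mod_cast kProd_le h hd k
      obtain ⟨n, hn0, ⟨a₁, ha₁, hna₁⟩, hn1, hn3⟩ := hst D hd.ne h0 (by rw [hLD]; exact hL) hwt hprod'
      rw [hLD] at hn1 hn3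
      have hnPi : ∀ p ∈ n.primeFactors, p ∈ Pi := fun p hp =>
        hd.supp a₁ ha₁ p (Nat.primeFactors_mono hna₁ (fun h => h0 (h ▸ ha₁)) hp)
      set H := D.filter fun b => n ∣ b with hH
      have hHn : H.Nonempty := ⟨a₁, Finset.mem_filter.2 ⟨ha₁, hna₁⟩⟩
      -- the integers
      have hz : ∀ m, (∃ n ∈ D, m ∣ n) → ∃ z ∈ A', (z : ℚ) = c₀ * g r m := hd.div
      choose! z hz1 hz2 using hz
      have hdivmem : ∀ m ∈ H, ∃ n' ∈ D, m / n ∣ n' := fun m hm =>
        ⟨m, (Finset.mem_filter.1 hm).1, Nat.div_dvd_of_dvd (Finset.mem_filter.1 hm).2⟩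
      have hdm0 : ∀ m ∈ H, m / n ≠ 0 := by
        intro m hm h1
        obtain ⟨hmD, hnm⟩ := Finset.mem_filter.1 hm
        have h2 := Nat.div_mul_cancel hnm
        rw [h1, zero_mul] at h2
        exact h0 (h2 ▸ hmD)
      have hdmPi : ∀ m ∈ H, ∀ p ∈ (m / n).primeFactors, p ∈ Pi := by
        intro m hm p hp
        obtain ⟨hmD, hnm⟩ := Finset.mem_filter.1 hm
        exact hd.supp m hmD p (Nat.primeFactors_mono (Nat.div_dvd_of_dvd hnm)
          (fun h => h0 (h ▸ hmD)) hp)
      set X : Finset ℤ := H.image fun m => z (m / n) with hX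
      have hXc : X.card = H.card := by
        apply Finset.card_image_of_injOn
        intro m hm m' hm' hmm
        have hm1 := Finset.mem_coe.1 hm
        have hm1' := Finset.mem_coe.1 hm'
        have h1 : g r (m / n) = g r (m' / n) := by
          apply mul_left_cancel₀ hd.c0
          rw [← hz2 _ (hdivmem m hm1), ← hz2 _ (hdivmem m' hm1')]
          exact_mod_cast hmm
        have h2 := g_inj h (hdm0 m hm1) (hdm0 m' hm1') (hdmPi m hm1) (hdmPi m' hm1') h1
        rw [← Nat.div_mul_cancel (Finset.mem_filter.1 hm1).2, h2,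
          Nat.div_mul_cancel (Finset.mem_filter.1 hm1').2]
      have hXn : X.Nonempty := hHn.image _
      set num : ℕ → ℤ := fun p => (r p).num with hnum
      set den : ℕ → ℤ := fun p => ((r p).den : ℤ) with hden
      obtain ⟨q, htri⟩ := h.tri
      have hw0 : ev den n ≠ 0 := htri.evb0 hnPi
      have hBw : (dil (ev den n) B).card = B.card := card_dil hw0 B
      have hBn : (dil (ev den n) B).Nonempty := hB.image _
      have hXL : (1 - ε₁) * L ≤ Real.log X.card := by rw [hXc]; exact hn3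
      have hθS : θ / (1 + MM) * (Real.log X.card + Real.log (dil (ev den n) B).card) ≤ wt n := by
        have h1 : Real.log X.card ≤ L := by
          rw [hXc, ← hLD]
          apply Real.log_le_log (by exact_mod_cast hHn.card_pos)
          exact_mod_cast Finset.card_le_card (Finset.filter_subset _ _)
        rw [hBw]
        calc θ / (1 + MM) * (Real.log X.card + Real.log B.card) ≤ θ / (1 + MM) * ((1 + MM) * L) :=
              mul_le_mul_of_nonneg_left (by linarith) (by positivity)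
          _ = θ * L := by field_simp
          _ ≤ _ := hn1
      have hMS : (M : ℝ) ≤ 2 * K ^ 2 *
          (1 + η * (Real.log X.card + Real.log (dil (ev den n) B).card)) := by
        rw [hBw]
        have h1 : L / 2 ≤ Real.log X.card + Real.log B.card := by nlinarith
        have h2 := mul_le_mul_of_nonneg_left h1 hη.le
        exact hML.trans (mul_le_mul_of_nonneg_left (by linarith) (by positivity))
      obtain ⟨d, hdn, hsum⟩ := hC Pi M num den q htri hstep n hn0 hnPi X (dil (ev den n) B)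
        hXn hBn hMS hθS
      have hsub : dil (ev num d * ev den (n / d)) X + dil (ev den n) B ⊆
          dil (ev den n) (A' + B) := by
        intro y hy
        obtain ⟨y1, hy1, y2, hy2, rfl⟩ := Finset.mem_add.1 hy
        unfold dil at hy1 hy2 ⊢
        obtain ⟨x, hx, rfl⟩ := Finset.mem_image.1 hy1
        obtain ⟨b, hb, rfl⟩ := Finset.mem_image.1 hy2
        obtain ⟨m, hm, rfl⟩ := Finset.mem_image.1 hx
        obtain ⟨hmD, hnm⟩ := Finset.mem_filter.1 hm
        have hm0 : m ≠ 0 := fun h => h0 (h ▸ hmD)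
        have hd0 : d ≠ 0 := fun h => hn0 (by rw [h] at hdn; exact Nat.eq_zero_of_zero_dvd hdn)
        have hmn0 : m / n ≠ 0 := hdm0 m hm
        have hmd : ∃ n' ∈ D, m / n * d ∣ n' := by
          refine ⟨m, hmD, ?_⟩
          obtain ⟨t, ht⟩ := hnm
          rw [ht, Nat.mul_div_cancel_left _ (Nat.pos_of_ne_zero hn0), mul_comm]
          exact Nat.mul_dvd_mul_right hdn t
        refine Finset.mem_image.2 ⟨z (m / n * d) + b, Finset.add_mem_add (hz1 _ hmd) hb, ?_⟩
        rw [mul_add]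
        congr 1
        obtain ⟨f, hf⟩ := hdn
        have hf0 : f ≠ 0 := fun h => hn0 (by rw [hf, h, mul_zero])
        have h1 : n / d = f := by rw [hf]; exact Nat.mul_div_cancel_left _ (Nat.pos_of_ne_zero hd0)
        rw [h1]
        have h2 : ev den n = ev den d * ev den f := by rw [hf]; exact ev_mul den hd0 hf0
        have hdd0 : (ev den d : ℚ) ≠ 0 := by
          intro h3
          apply hw0
          rw [h2]
          have : ev den d = 0 := by exact_mod_cast h3
          rw [this, zero_mul]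
        have h3 : ((ev den n * z (m / n * d) : ℤ) : ℚ) = ((ev num d * ev den f * z (m / n) : ℤ) : ℚ) := by
          push_cast
          have h4 : g r d * (ev den d : ℚ) = ev num d := by
            rw [g_eq r d]
            exact div_mul_cancel₀ _ hdd0
          rw [hz2 _ hmd, hz2 _ (hdivmem m hm), g_mul r hmn0 hd0, h2, ← h4]
          push_cast
          ring
        exact_mod_cast h3
      have hge : Real.log ((dil (ev num d * ev den (n / d)) X + dil (ev den n) B).card : ℝ) ≤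
          Real.log ((A' + B).card : ℝ) := by
        have h1 : (dil (ev num d * ev den (n / d)) X + dil (ev den n) B).Nonempty :=
          (hXn.image _).add hBn
        apply Real.log_le_log (by exact_mod_cast h1.card_pos)
        have h2 := Finset.card_le_card hsub
        rw [card_dil hw0] at h2
        exact_mod_cast h2
      rw [hBw] at hsum
      have h2 : (1 - ε₁) * ((1 - ε₁) * L) ≤ (1 - ε₁) * Real.log X.card :=
        mul_le_mul_of_nonneg_left hXL (by linarith)
      have h3 := le_max_left C (max L₀ 0)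
      nlinarith [mul_nonneg hε10.le hL0, mul_nonneg hε10.le hB0,
        mul_nonneg (mul_nonneg hε10.le hε10.le) hL0]
    · push Not at hBM
      have h1 : (1 - ε) * (L + Real.log B.card) ≤ Real.log B.card := by
        have h2 : L ≤ ε * Real.log B.card := by
          calc L = ε * (MM * L) := by rw [hMM]; field_simp
            _ ≤ _ := mul_le_mul_of_nonneg_left hBM.le hε.le
        nlinarith [mul_nonneg hε.le hL0]
      have h3 : 0 ≤ max C (max L₀ 0) := (le_max_right _ _).trans (le_max_right _ _)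
      linarith
  · push Not at hL
    have h1 : L ≤ max C (max L₀ 0) := hL.le.trans ((le_max_left _ _).trans (le_max_right _ _))
    nlinarith [mul_nonneg hε.le hL0, mul_nonneg hε.le hB0]

/-- the final form -/
theorem final (k m : ℕ) (hk : 1 ≤ k) (δ ε κ : ℝ) (hδ : 0 < δ) (hε : 0 < ε) (hκ : 0 < κ) :
    ∃ (c η : ℝ) (K : ℕ), 0 < c ∧ 0 < η ∧ ∀ (Pi : Set ℕ) (M : ℕ) (r : ℕ → ℚ) (l : ℕ → ℕ),
      TriQ Pi r l → (∀ P : Finset ℕ, P.Nonempty → (∀ x ∈ P, x ∈ Pi) →
        ∃ p ∈ P, ∃ Q, Step M K (fun p => (r p).num) (fun p => ((r p).den : ℤ)) P p Q) →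
      ∀ (D : Finset ℕ) (c₀ : ℚ) (A A' : Finset ℤ),
      Data Pi r D c₀ A A' → (∀ n ∈ D, wt n ≤ κ * Real.log A.card) →
      (M : ℝ) ≤ 2 * K ^ 2 * (1 + η * Real.log A.card) →
      (A.card : ℝ) ^ ((k : ℝ) - δ) ≤ ((kProd k A).card : ℝ) ∨
      ∀ B : Finset ℤ, B.Nonempty →
        c * (A.card : ℝ) ^ ((m : ℝ) - ε) * (B.card : ℝ) ^ (1 - ε) ≤
          ((kSum m A' + B).card : ℝ) := by
  have hm0 : (0 : ℝ) ≤ m := Nat.cast_nonneg m
  set ε₁ : ℝ := min ε 1 / (m + 1) ^ 2 with hε₁
  have hε10 : 0 < ε₁ := by positivity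
  have hε11 : ε₁ ≤ 1 := by
    rw [hε₁, div_le_one (by positivity)]
    exact (min_le_right _ _).trans (one_le_pow₀ (by linarith))
  have hε1m : (m + 1) ^ 2 * ε₁ ≤ ε := by
    rw [hε₁, mul_div_cancel₀ _ (by positivity)]
    exact min_le_left _ _
  have hε1a : m ^ 2 * ε₁ ≤ ε := by nlinarith
  have hε1b : m * ε₁ ≤ ε := by nlinarith
  obtain ⟨C, η, K, hC0, hη, hC⟩ := main k hk δ ε₁ κ hδ hε10 hκ
  refine ⟨Real.exp (-(m * C)), η, K, Real.exp_pos _, hη, ?_⟩
  intro Pi M r l h hstep D c₀ A A' hd hwt hML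
  have hcard := card_eq h hd
  have hA : A.Nonempty := by
    rw [← Finset.card_pos, hcard]
    exact hd.ne.card_pos
  have hA' : A'.Nonempty := by
    obtain ⟨n, hn⟩ := hd.ne
    obtain ⟨z, hz, _⟩ := hd.div n ⟨n, hn, dvd_rfl⟩
    exact ⟨z, hz⟩
  have cA : (0 : ℝ) < A.card := by exact_mod_cast hA.card_pos
  by_cases hprod : (A.card : ℝ) ^ ((k : ℝ) - δ) ≤ ((kProd k A).card : ℝ)
  · exact Or.inl hprod
  right
  push Not at hprod
  intro B hB
  have cB : (0 : ℝ) < B.card := by exact_mod_cast hB.card_pos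
  have hlB : 0 ≤ Real.log B.card := Real.log_natCast_nonneg _
  have hlA : 0 ≤ Real.log A.card := Real.log_natCast_nonneg _
  have hSn : (kSum m A' + B).Nonempty := (kSum_nonempty m hA').add hB
  have cS : (0 : ℝ) < ((kSum m A' + B).card : ℝ) := by exact_mod_cast hSn.card_pos
  have hp1 : Real.log (kProd k A).card ≤ (k - δ) * Real.log A.card := by
    have c1 : (0 : ℝ) < ((kProd k A).card : ℝ) := by
      exact_mod_cast (kProd_nonempty k hA).card_pos
    rw [← Real.log_rpow cA]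
    exact Real.log_le_log c1 hprod.le
  have h1 := kSum_add_ge hA' hlA hε10.le hε11 hC0 (hC Pi M r l h hstep D c₀ A A' hd hwt hML hp1) m B hB
  have h2 : ((m : ℝ) - ε) * Real.log A.card ≤ (m - ε₁ * m ^ 2) * Real.log A.card :=
    mul_le_mul_of_nonneg_right (by linarith) hlA
  have h3 : (1 - ε) * Real.log B.card ≤ (1 - m * ε₁) * Real.log B.card :=
    mul_le_mul_of_nonneg_right (by linarith) hlB
  rw [Real.rpow_def_of_pos cA, Real.rpow_def_of_pos cB, ← Real.exp_add, ← Real.exp_add]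
  calc Real.exp (-(m * C) + Real.log A.card * (m - ε) + Real.log B.card * (1 - ε)) ≤
        Real.exp (Real.log ((kSum m A' + B).card : ℝ)) :=
        Real.exp_le_exp.2 (by linarith)
    _ = _ := Real.exp_log cS

end Pool.Agent.H597.SP
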