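import Mathlib

/-!
Concentration of the products over random subsets, in a field, when few of the factors have a small
multiplicative order.
-/

set_option autoImplicit false

namespace Pool.Agent.H597.SP

open Finset

theorem choose_mono_half {N j j' : ℕ} (h : j ≤ j') (h' : j' ≤ N / 2) :
    N.choose j ≤ N.choose j' := by
  induction j', h using Nat.le_induction with
  | base => exact le_rfl
  | succ n hn ih => exact (ih (by omega)).trans (Nat.choose_le_succ_of_lt_half_left (by omega))

/-- binomial coefficients over a set with large gaps in the first half -/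
theorem choose_gap (N K : ℕ) (J : Finset ℕ) (hJ : ∀ j ∈ J, j ≤ N / 2)
    (hgap : ∀ j ∈ J, ∀ j' ∈ J, j < j' → j + K ≤ j') :
    K * ∑ j ∈ J, N.choose j ≤ 2 ^ N + K * N.choose (N / 2) := by
  classical
  rw [← Finset.sum_filter_add_sum_filter_not J (fun j => j + K ≤ N / 2 + 1), mul_add]
  apply Nat.add_le_add
  · set J₁ := J.filter fun j => j + K ≤ N / 2 + 1 with hJ₁
    calc K * ∑ j ∈ J₁, N.choose j = ∑ j ∈ J₁, ∑ _i ∈ Finset.range K, N.choose j := by
          rw [Finset.mul_sum]
          exact Finset.sum_congr rfl fun j _ => by rw [Finset.sum_const, Finset.card_range,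
            smul_eq_mul]
      _ ≤ ∑ j ∈ J₁, ∑ i ∈ Finset.range K, N.choose (j + i) := by
          refine Finset.sum_le_sum fun j hj => Finset.sum_le_sum fun i hi => ?_
          have h1 := (Finset.mem_filter.1 hj).2
          have h2 := Finset.mem_range.1 hi
          exact choose_mono_half (by omega) (by omega)
      _ = ∑ x ∈ J₁ ×ˢ Finset.range K, N.choose (x.1 + x.2) := by
          rw [Finset.sum_product]
      _ = ∑ y ∈ (J₁ ×ˢ Finset.range K).image (fun x => x.1 + x.2), N.choose y := by
          rw [Finset.sum_image]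
          rintro ⟨j, i⟩ h1 ⟨j', i'⟩ h2 h3
          rw [Finset.mem_coe, Finset.mem_product] at h1 h2
          simp only [hJ₁, Finset.mem_filter, Finset.mem_range] at h1 h2 h3
          rcases lt_trichotomy j j' with h | h | h
          · have := hgap j h1.1.1 j' h2.1.1 h
            omega
          · subst h
            have : i = i' := by omega
            rw [this]
          · have := hgap j' h2.1.1 j h1.1.1 h
            omega
      _ ≤ ∑ y ∈ Finset.range (N + 1), N.choose y := by
          apply Finset.sum_le_sum_of_subset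
          intro y hy
          obtain ⟨⟨j, i⟩, h1, rfl⟩ := Finset.mem_image.1 hy
          rw [Finset.mem_product] at h1
          simp only [hJ₁, Finset.mem_filter, Finset.mem_range] at h1 ⊢
          omega
      _ = 2 ^ N := Nat.sum_range_choose N
  · apply Nat.mul_le_mul_left
    set J₂ := J.filter fun j => ¬ j + K ≤ N / 2 + 1 with hJ₂
    have hc : J₂.card ≤ 1 := by
      rw [Finset.card_le_one]
      intro j hj j' hj'
      simp only [hJ₂, Finset.mem_filter] at hj hj'
      have h1 := hJ j hj.1
      have h2 := hJ j' hj'.1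
      rcases lt_trichotomy j j' with h | h | h
      · have := hgap j hj.1 j' hj'.1 h
        omega
      · exact h
      · have := hgap j' hj'.1 j hj.1 h
        omega
    calc ∑ j ∈ J₂, N.choose j ≤ ∑ _j ∈ J₂, N.choose (N / 2) :=
          Finset.sum_le_sum fun j _ => Nat.choose_le_middle j N
      _ = J₂.card * N.choose (N / 2) := by rw [Finset.sum_const, smul_eq_mul]
      _ ≤ 1 * N.choose (N / 2) := Nat.mul_le_mul_right _ hc
      _ = _ := one_mul _

/-- binomial coefficients over a set with large gaps -/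
theorem choose_class (N K : ℕ) (J : Finset ℕ) (hJ : ∀ j ∈ J, j ≤ N)
    (hgap : ∀ j ∈ J, ∀ j' ∈ J, j < j' → j + K ≤ j') :
    K * ∑ j ∈ J, N.choose j ≤ 2 * (2 ^ N + K * N.choose (N / 2)) := by
  classical
  rw [← Finset.sum_filter_add_sum_filter_not J (fun j => j ≤ N / 2), mul_add, two_mul]
  apply Nat.add_le_add
  · apply choose_gap
    · intro j hj; exact (Finset.mem_filter.1 hj).2
    · intro j hj j' hj'
      exact hgap j (Finset.mem_filter.1 hj).1 j' (Finset.mem_filter.1 hj').1
  · have h1 : ∑ j ∈ J.filter (fun j => ¬ j ≤ N / 2), N.choose j =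
        ∑ j ∈ (J.filter (fun j => ¬ j ≤ N / 2)).image (fun j => N - j), N.choose j := by
      rw [Finset.sum_image]
      · refine Finset.sum_congr rfl fun j hj => ?_
        exact (Nat.choose_symm (hJ j (Finset.mem_filter.1 hj).1)).symm
      · intro j hj j' hj' h
        have h1 := hJ j (Finset.mem_filter.1 (Finset.mem_coe.1 hj)).1
        have h2 := hJ j' (Finset.mem_filter.1 (Finset.mem_coe.1 hj')).1
        simp only at h
        omega
    rw [h1]
    apply choose_gap
    · intro y hy
      obtain ⟨j, hj, rfl⟩ := Finset.mem_image.1 hy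
      have := (Finset.mem_filter.1 hj).2
      omega
    · intro y hy y' hy' hlt
      obtain ⟨j, hj, rfl⟩ := Finset.mem_image.1 hy
      obtain ⟨j', hj', rfl⟩ := Finset.mem_image.1 hy'
      have h2 := hJ j (Finset.mem_filter.1 hj).1
      have h3 := hJ j' (Finset.mem_filter.1 hj').1
      have h4 := hgap j' (Finset.mem_filter.1 hj').1 j (Finset.mem_filter.1 hj).1 (by omega)
      omega

theorem central_sq (n : ℕ) : (Nat.centralBinom n) ^ 2 * (2 * n + 1) ≤ 16 ^ n := by
  induction n with
  | zero => simp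
  | succ n ih =>
    have h1 := Nat.succ_mul_centralBinom_succ n
    have h2 : (n + 1) ^ 2 * ((Nat.centralBinom (n + 1)) ^ 2 * (2 * (n + 1) + 1)) ≤
        (n + 1) ^ 2 * 16 ^ (n + 1) := by
      calc (n + 1) ^ 2 * ((Nat.centralBinom (n + 1)) ^ 2 * (2 * (n + 1) + 1)) =
            ((n + 1) * Nat.centralBinom (n + 1)) ^ 2 * (2 * n + 3) := by ring
        _ = (2 * (2 * n + 1) * Nat.centralBinom n) ^ 2 * (2 * n + 3) := by rw [h1]
        _ = (Nat.centralBinom n) ^ 2 * (2 * n + 1) * (4 * ((2 * n + 1) * (2 * n + 3))) := by ring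
        _ ≤ 16 ^ n * (4 * ((2 * n + 1) * (2 * n + 3))) := Nat.mul_le_mul_right _ ih
        _ ≤ 16 ^ n * (16 * (n + 1) ^ 2) := Nat.mul_le_mul_left _ (by nlinarith)
        _ = (n + 1) ^ 2 * 16 ^ (n + 1) := by ring
    exact Nat.le_of_mul_le_mul_left h2 (by positivity)

/-- the middle binomial coefficient -/
theorem middle_sq (N : ℕ) : (N.choose (N / 2)) ^ 2 * N ≤ 4 ^ N := by
  rcases Nat.even_or_odd' N with ⟨n, h | h⟩
  · subst h
    have h1 : 2 * n / 2 = n := by omega
    have h2 : 4 ^ (2 * n) = 16 ^ n := by rw [pow_mul]; norm_num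
    rw [h1, h2, ← Nat.centralBinom_eq_two_mul_choose]
    exact (Nat.mul_le_mul_left _ (by omega)).trans (central_sq n)
  · subst h
    have h1 : (2 * n + 1) / 2 = n := by omega
    have h2 : 4 ^ (2 * n + 1) = 4 * 16 ^ n := by rw [pow_succ, pow_mul]; norm_num; ring
    have h3 : (2 * n + 1).choose n ≤ 2 * Nat.centralBinom n := by
      rcases n with _ | n
      · simp
      · rw [Nat.choose_succ_succ', Nat.centralBinom_eq_two_mul_choose]
        have := Nat.choose_le_middle n (2 * (n + 1))
        rw [Nat.mul_div_cancel_left _ (by norm_num)] at this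
        omega
    rw [h1, h2]
    calc ((2 * n + 1).choose n) ^ 2 * (2 * n + 1) ≤ (2 * Nat.centralBinom n) ^ 2 * (2 * n + 1) :=
          Nat.mul_le_mul_right _ (Nat.pow_le_pow_left h3 2)
      _ = 4 * ((Nat.centralBinom n) ^ 2 * (2 * n + 1)) := by ring
      _ ≤ 4 * 16 ^ n := Nat.mul_le_mul_left _ (central_sq n)

theorem middle_le (N : ℕ) (hN : 0 < N) : (N.choose (N / 2) : ℝ) ≤ 2 ^ N / Real.sqrt N := by
  have hN' : (0 : ℝ) < N := by exact_mod_cast hN
  rw [le_div_iff₀ (Real.sqrt_pos.2 hN')]
  apply le_of_sq_le_sq _ (by positivity)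
  rw [mul_pow, Real.sq_sqrt hN'.le, ← pow_mul, mul_comm N 2, pow_mul]
  have := middle_sq N
  have h2 : (((N.choose (N / 2)) ^ 2 * N : ℕ) : ℝ) ≤ ((4 ^ N : ℕ) : ℝ) := by exact_mod_cast this
  push_cast at h2
  calc (N.choose (N / 2) : ℝ) ^ 2 * N ≤ 4 ^ N := h2
    _ = _ := by norm_num

/-- the subsets of a class -/
theorem conc_class {F : Type*} [Field F] [DecidableEq F] (G : Finset ℕ) (c : F) (hc0 : c ≠ 0)
    (K : ℕ) (hK : 1 ≤ K) (hord : ∀ j, 1 ≤ j → j ≤ K → c ^ j ≠ 1) (hG : 0 < G.card) (r : F) :
    ((G.powerset.filter fun s => c ^ s.card = r).card : ℝ) ≤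
      2 ^ G.card * (2 / K + 2 / Real.sqrt G.card) := by
  set N := G.card with hN
  have hK0 : (0 : ℝ) < K := by exact_mod_cast hK
  set J : Finset ℕ := (Finset.range (N + 1)).filter fun j => c ^ j = r with hJ
  have h1 : (G.powerset.filter fun s => c ^ s.card = r).card = ∑ j ∈ J, N.choose j := by
    rw [Finset.card_eq_sum_card_fiberwise (f := Finset.card) (t := J)]
    · refine Finset.sum_congr rfl fun j hj => ?_
      rw [hN, ← Finset.card_powersetCard]
      congr 1
      ext s
      simp only [Finset.mem_filter, Finset.mem_powerset, Finset.mem_powersetCard]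
      constructor
      · rintro ⟨⟨h1, _⟩, h2⟩
        exact ⟨h1, h2⟩
      · rintro ⟨h1, h2⟩
        refine ⟨⟨h1, ?_⟩, h2⟩
        rw [h2]
        exact (Finset.mem_filter.1 hj).2
    · intro s hs
      rw [Finset.mem_coe, Finset.mem_filter, Finset.mem_powerset] at hs
      rw [Finset.mem_coe, hJ, Finset.mem_filter, Finset.mem_range]
      have := Finset.card_le_card hs.1
      exact ⟨by omega, hs.2⟩
  have h2 : K * ∑ j ∈ J, N.choose j ≤ 2 * (2 ^ N + K * N.choose (N / 2)) := by
    apply choose_class
    · intro j hj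
      have := Finset.mem_range.1 (Finset.mem_filter.1 hj).1
      omega
    · intro j hj j' hj' hlt
      have h3 := (Finset.mem_filter.1 hj).2
      have h4 := (Finset.mem_filter.1 hj').2
      by_contra hcon
      apply hord (j' - j) (by omega) (by omega)
      have h5 : c ^ j * c ^ (j' - j) = c ^ j * 1 := by
        rw [← pow_add, Nat.add_sub_cancel' hlt.le, h4, h3, mul_one]
      exact mul_left_cancel₀ (pow_ne_zero _ hc0) h5
  rw [h1]
  have h3 : (K : ℝ) * ((∑ j ∈ J, N.choose j : ℕ) : ℝ) ≤
      2 * (2 ^ N + K * (N.choose (N / 2) : ℝ)) := by exact_mod_cast h2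
  have h4 := middle_le N hG
  have h5 : (K : ℝ) * ((∑ j ∈ J, N.choose j : ℕ) : ℝ) ≤
      K * (2 ^ N * (2 / K + 2 / Real.sqrt N)) := by
    have h6 : (K : ℝ) * (2 ^ N * (2 / K + 2 / Real.sqrt N)) =
        2 * (2 ^ N + K * (2 ^ N / Real.sqrt N)) := by
      field_simp
    rw [h6]
    have h7 := mul_le_mul_of_nonneg_left h4 hK0.le
    linarith
  exact le_of_mul_le_mul_left h5 hK0

/-- the products over the subsets are spread, when no large class has a small order -/
theorem conc_field {F : Type*} [Field F] [DecidableEq F] (P : Finset ℕ) (ρ : ℕ → F)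
    (hρ : ∀ x ∈ P, ρ x ≠ 0) (M' K : ℕ) (hK : 1 ≤ K) (hM' : 1 ≤ M')
    (hgen : ∀ r : F, (∀ c : F, (P.filter fun x => ρ x = c).card ≤ M') →
      P.card * (P.powerset.filter fun s => ∏ x ∈ s, ρ x = r).card ≤ 2 * M' * 2 ^ P.card)
    (hord : ∀ c : F, M' < (P.filter fun x => ρ x = c).card → ∀ j, 1 ≤ j → j ≤ K → c ^ j ≠ 1)
    (hP : 0 < P.card) (r : F) :
    ((P.powerset.filter fun s => ∏ x ∈ s, ρ x = r).card : ℝ) ≤
      2 ^ P.card * (2 * M' / P.card + (2 / K + 2 / Real.sqrt M')) := by
  have hPc : (0 : ℝ) < P.card := by exact_mod_cast hP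
  by_cases hall : ∀ c : F, (P.filter fun x => ρ x = c).card ≤ M'
  · have h1 := hgen r hall
    have h2 : (P.card : ℝ) * ((P.powerset.filter fun s => ∏ x ∈ s, ρ x = r).card : ℝ) ≤
        2 * M' * 2 ^ P.card := by exact_mod_cast h1
    have h3 : (P.card : ℝ) * ((P.powerset.filter fun s => ∏ x ∈ s, ρ x = r).card : ℝ) ≤
        P.card * (2 ^ P.card * (2 * M' / P.card + (2 / K + 2 / Real.sqrt M'))) := by
      refine h2.trans ?_
      have h4 : (P.card : ℝ) * (2 ^ P.card * (2 * M' / P.card + (2 / K + 2 / Real.sqrt M'))) =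
          2 * M' * 2 ^ P.card + P.card * (2 ^ P.card * (2 / K + 2 / Real.sqrt M')) := by
        field_simp
      rw [h4]
      have : (0 : ℝ) ≤ P.card * (2 ^ P.card * (2 / K + 2 / Real.sqrt M')) := by positivity
      linarith
    exact le_of_mul_le_mul_left h3 hPc
  · push Not at hall
    obtain ⟨c, hc⟩ := hall
    set G : Finset ℕ := P.filter fun x => ρ x = c with hG
    have hGP : G ⊆ P := Finset.filter_subset _ _
    have hGc : 0 < G.card := by omega
    have hc0 : c ≠ 0 := by
      obtain ⟨x, hx⟩ := Finset.card_pos.1 hGc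
      have h1 := (Finset.mem_filter.1 hx).2
      rw [← h1]
      exact hρ x (hGP hx)
    have h1 : ((P.powerset.filter fun s => ∏ x ∈ s, ρ x = r).card : ℝ) ≤
        ∑ s₀ ∈ (P \ G).powerset, (2 ^ G.card * (2 / K + 2 / Real.sqrt G.card)) := by
      have h2 : (P.powerset.filter fun s => ∏ x ∈ s, ρ x = r).card =
          ∑ s₀ ∈ (P \ G).powerset, ((P.powerset.filter fun s => ∏ x ∈ s, ρ x = r).filter
            fun s => s \ G = s₀).card := by
        apply Finset.card_eq_sum_card_fiberwise
        intro s hs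
        rw [Finset.mem_coe, Finset.mem_filter, Finset.mem_powerset] at hs
        rw [Finset.mem_coe, Finset.mem_powerset]
        exact Finset.sdiff_subset_sdiff hs.1 le_rfl
      rw [h2]
      push_cast
      refine Finset.sum_le_sum fun s₀ hs₀ => ?_
      rw [Finset.mem_powerset] at hs₀
      have hu : ∏ x ∈ s₀, ρ x ≠ 0 := Finset.prod_ne_zero_iff.2 fun x hx =>
        hρ x (Finset.mem_sdiff.1 (hs₀ hx)).1
      refine le_trans ?_ (conc_class G c hc0 K hK (hord c hc) hGc (r / ∏ x ∈ s₀, ρ x))
      have h3 : ((P.powerset.filter fun s => ∏ x ∈ s, ρ x = r).filter fun s => s \ G = s₀).card ≤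
          (G.powerset.filter fun s => c ^ s.card = r / ∏ x ∈ s₀, ρ x).card := by
        refine Finset.card_le_card_of_injOn (fun s => s ∩ G) ?_ ?_
        · intro s hs
          rw [Finset.mem_coe, Finset.mem_filter, Finset.mem_filter, Finset.mem_powerset] at hs
          obtain ⟨⟨hs1, hs2⟩, hs3⟩ := hs
          rw [Finset.mem_coe, Finset.mem_filter, Finset.mem_powerset]
          refine ⟨Finset.inter_subset_right, ?_⟩
          rw [eq_div_iff hu, ← hs2, ← Finset.prod_inter_mul_prod_diff s G ρ, hs3]
          congr 1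
          rw [← Finset.prod_const]
          refine Finset.prod_congr rfl fun x hx => ?_
          exact ((Finset.mem_filter.1 (Finset.mem_inter.1 hx).2).2).symm
        · intro s hs s' hs' he
          rw [Finset.mem_coe, Finset.mem_filter] at hs hs'
          simp only at he
          rw [← Finset.sdiff_union_inter s G, ← Finset.sdiff_union_inter s' G, hs.2, hs'.2, he]
      exact_mod_cast h3
    rw [Finset.sum_const, Finset.card_powerset, nsmul_eq_mul] at h1
    refine h1.trans ?_
    push_cast
    have h2 : (2 : ℝ) ^ (P \ G).card * (2 ^ G.card * (2 / K + 2 / Real.sqrt G.card)) =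
        2 ^ P.card * (2 / K + 2 / Real.sqrt G.card) := by
      rw [← mul_assoc, ← pow_add, Finset.card_sdiff_add_card_eq_card hGP]
    rw [h2]
    apply mul_le_mul_of_nonneg_left _ (by positivity)
    have h3 : 2 / Real.sqrt G.card ≤ 2 / Real.sqrt M' := by
      apply div_le_div_of_nonneg_left (by norm_num)
      · apply Real.sqrt_pos.2
        exact_mod_cast hM'
      · apply Real.sqrt_le_sqrt
        exact_mod_cast hc.le
    have h4 : (0 : ℝ) ≤ 2 * M' / P.card := by positivity
    linarith

end Pool.Agent.H597.SP
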