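import Pool.Agent.H597.SP.Sys
import Pool.Agent.H597.SP.Conc

/-!
The ingredients of the induction for sums with dilates by products of multipliers.
-/

set_option autoImplicit false

namespace Pool.Agent.H597.SP

open Finset
open Pool.Agent.TH83.SQ (cls dil)
open Pool.Agent.TH959.SQ (log_split mem_cls cls_subset self_mem_cls mem_dil dil_mono dil_nonempty
  dil_mul)
open Pool.Agent.TH828.SQ1822 (log_mean)
open scoped Pointwise Classical

variable {M K : ℕ} {a b : ℕ → ℤ}

theorem tau_insert {p : ℕ} {P : Finset ℕ} (hp : p ∉ P) (X B : Finset ℤ) :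
    tau a b (insert p P) X B =
      (tau a b P (dil (b p) X) B + tau a b P (dil (a p) X) B) / 2 := by
  unfold tau
  rw [Finset.sum_powerset_insert hp, Finset.card_insert_of_notMem hp]
  have h : ∀ s ∈ P.powerset, Real.log ((dil (pr a b (insert p P) (insert p s)) X + B).card : ℝ) =
      Real.log ((dil (pr a b P s) (dil (a p) X) + B).card : ℝ) := by
    intro s hs
    rw [pr_insert hp (Finset.mem_powerset.1 hs), dil_mul]
  have h' : ∀ s ∈ P.powerset, Real.log ((dil (pr a b (insert p P) s) X + B).card : ℝ) =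
      Real.log ((dil (pr a b P s) (dil (b p) X) + B).card : ℝ) := by
    intro s hs
    rw [pr_insert' hp (Finset.mem_powerset.1 hs), dil_mul]
  rw [Finset.sum_congr rfl h, Finset.sum_congr rfl h', pow_succ]
  have h2 : (2 : ℝ) ^ P.card ≠ 0 := by positivity
  field_simp

/-- averaging over the products -/
theorem tau_avg {ι : Type*} (P : Finset ℕ) (F : Finset ι) (X' B' : ι → Finset ℤ)
    (X B : Finset ℤ)
    (h : ∀ s ⊆ P, Real.log F.card +
      (∑ i ∈ F, Real.log ((dil (pr a b P s) (X' i) + B' i).card : ℝ)) / F.card ≤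
        Real.log ((dil (pr a b P s) X + B).card : ℝ)) :
    Real.log F.card + (∑ i ∈ F, tau a b P (X' i) (B' i)) / F.card ≤ tau a b P X B := by
  unfold tau
  have h2 : (0 : ℝ) < 2 ^ P.card := by positivity
  rw [le_div_iff₀ h2]
  have h3 := Finset.sum_le_sum fun s hs => h s (Finset.mem_powerset.1 hs)
  refine le_trans (le_of_eq ?_) h3
  rw [Finset.sum_add_distrib, Finset.sum_const, Finset.card_powerset, ← Finset.sum_div,
    Finset.sum_comm, nsmul_eq_mul, ← Finset.sum_div]
  push_cast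
  rw [add_mul, mul_comm (Real.log _) _]
  congr 1
  rw [div_mul_eq_mul_div, div_mul_cancel₀ _ h2.ne']

theorem caseI {Q : ℕ} {t : ℤ} (hqt : (Q : ℤ) ∣ t) (P : Finset ℕ) (X B : Finset ℤ) (I : ℕ)
    (x₀ : ℤ) (hx₀ : x₀ ∈ X) (U : Finset ℤ) (hU : U ⊆ B) (hUn : U.Nonempty)
    (hUi : ∀ z ∈ U, ∀ z' ∈ U, ((Q : ℤ) ^ (I + 1)) ∣ z - z' → z = z') :
    Real.log U.card + (∑ z ∈ U, tau a b P (dil t (cls ((Q : ℤ) ^ I) X x₀))
      (cls ((Q : ℤ) ^ (I + 1)) B z)) / U.card ≤ tau a b P (dil t X) B := by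
  refine tau_avg P U (fun _ => dil t (cls ((Q : ℤ) ^ I) X x₀))
    (fun z => cls ((Q : ℤ) ^ (I + 1)) B z) (dil t X) B ?_
  intro s _
  refine log_split U hUn _ _ ?_ ?_ ?_
  · intro z _
    exact Finset.add_subset_add (dil_mono (dil_mono (cls_subset _ _ _))) (cls_subset _ _ _)
  · intro z hz
    exact (dil_nonempty (dil_nonempty ⟨x₀, self_mem_cls hx₀⟩)).add ⟨z, self_mem_cls (hU hz)⟩
  · intro c hc c' hc' htt
    rw [Finset.disjoint_left]
    intro z hz hz'
    apply htt
    have key : ∀ c, z ∈ dil (pr a b P s) (dil t (cls ((Q : ℤ) ^ I) X x₀)) +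
        cls ((Q : ℤ) ^ (I + 1)) B c →
        ((Q : ℤ) ^ (I + 1)) ∣ z - (pr a b P s * (t * x₀) + c) := by
      intro c hz
      obtain ⟨e, he, f, hf, rfl⟩ := Finset.mem_add.1 hz
      obtain ⟨e', he', rfl⟩ := mem_dil.1 he
      obtain ⟨x, hx, rfl⟩ := mem_dil.1 he'
      have h1 := (mem_cls.1 hx).2
      have h2 := (mem_cls.1 hf).2
      have h3 : ((Q : ℤ) ^ (I + 1)) ∣ pr a b P s * (t * (x - x₀)) := by
        refine Dvd.dvd.mul_left ?_ _
        rw [pow_succ, mul_comm]
        exact mul_dvd_mul hqt h1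
      have h4 : pr a b P s * (t * x) + f - (pr a b P s * (t * x₀) + c) =
          pr a b P s * (t * (x - x₀)) + (f - c) := by ring
      rw [h4]
      exact dvd_add h3 h2
    have h5 := key c hz
    have h6 := key c' hz'
    have h7 := dvd_sub h6 h5
    refine hUi c hc c' hc' ?_
    have h8 : z - (pr a b P s * (t * x₀) + c') - (z - (pr a b P s * (t * x₀) + c)) = c - c' := by
      ring
    rwa [h8] at h7

theorem caseIIa {q₀ : ℕ} (P : Finset ℕ)
    (hP : ∀ x ∈ P, IsCoprime (a x) (q₀ : ℤ) ∧ IsCoprime (b x) (q₀ : ℤ)) {w : ℤ}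
    (hw : IsCoprime w (q₀ : ℤ))
    (X B : Finset ℤ) (I : ℕ) (V : Finset ℤ) (hV : V ⊆ X) (hVn : V.Nonempty)
    (hVi : ∀ z ∈ V, ∀ z' ∈ V, ((q₀ : ℤ) ^ I) ∣ z - z' → z = z') (b₀ : ℤ) (hb₀ : b₀ ∈ B) :
    Real.log V.card + (∑ z ∈ V, tau a b P (dil w (cls ((q₀ : ℤ) ^ I) X z))
      (cls ((q₀ : ℤ) ^ I) B b₀)) / V.card ≤ tau a b P (dil w X) B := by
  refine tau_avg P V (fun z => dil w (cls ((q₀ : ℤ) ^ I) X z))
    (fun _ => cls ((q₀ : ℤ) ^ I) B b₀) (dil w X) B ?_
  intro s hs
  have hcop : IsCoprime ((q₀ : ℤ) ^ I) (pr a b P s * w) :=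
    IsCoprime.pow_left ((pr_cop hP hs).mul_left hw).symm
  refine log_split V hVn _ _ ?_ ?_ ?_
  · intro z _
    exact Finset.add_subset_add (dil_mono (dil_mono (cls_subset _ _ _))) (cls_subset _ _ _)
  · intro z hz
    exact (dil_nonempty (dil_nonempty ⟨z, self_mem_cls (hV hz)⟩)).add ⟨b₀, self_mem_cls hb₀⟩
  · intro c hc c' hc' htt
    rw [Finset.disjoint_left]
    intro z hz hz'
    apply htt
    have key : ∀ c, z ∈ dil (pr a b P s) (dil w (cls ((q₀ : ℤ) ^ I) X c)) +
        cls ((q₀ : ℤ) ^ I) B b₀ →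
        ((q₀ : ℤ) ^ I) ∣ z - (pr a b P s * (w * c) + b₀) := by
      intro c hz
      obtain ⟨e, he, f, hf, rfl⟩ := Finset.mem_add.1 hz
      obtain ⟨e', he', rfl⟩ := mem_dil.1 he
      obtain ⟨x, hx, rfl⟩ := mem_dil.1 he'
      have h1 := (mem_cls.1 hx).2
      have h2 := (mem_cls.1 hf).2
      have h3 : ((q₀ : ℤ) ^ I) ∣ pr a b P s * (w * (x - c)) := (h1.mul_left _).mul_left _
      have h4 : pr a b P s * (w * x) + f - (pr a b P s * (w * c) + b₀) =
          pr a b P s * (w * (x - c)) + (f - b₀) := by ring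
      rw [h4]
      exact dvd_add h3 h2
    have h5 := key c hz
    have h6 := key c' hz'
    have h7 := dvd_sub h6 h5
    refine hVi c hc c' hc' ?_
    have h8 : z - (pr a b P s * (w * c') + b₀) - (z - (pr a b P s * (w * c) + b₀)) =
        pr a b P s * w * (c - c') := by ring
    rw [h8] at h7
    exact hcop.dvd_of_dvd_mul_left h7

/-- the products over the subsets are spread -/
theorem gen_field {F : Type*} [Field F] [DecidableEq F] (P : Finset ℕ) (ρ : ℕ → F)
    (hρ : ∀ x ∈ P, ρ x ≠ 0)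
    (hM : ∀ c : F, (P.filter fun x => ρ x = c).card ≤ M) (r : F) :
    P.card * (P.powerset.filter fun s => ∏ x ∈ s, ρ x = r).card ≤ 2 * M * 2 ^ P.card := by
  set S := P.powerset.filter fun s => ∏ x ∈ s, ρ x = r with hS
  have hSm : ∀ s ∈ S, s ⊆ P ∧ ∏ x ∈ s, ρ x = r := by
    intro s hs
    rw [hS, Finset.mem_filter, Finset.mem_powerset] at hs
    exact hs
  have h1 : ∑ s ∈ S, s.card ≤ M * 2 ^ P.card := by
    rw [← Finset.card_sigma, ← Finset.card_powerset]
    refine Finset.card_le_mul_card_image_of_maps_to (f := fun x : (_ : Finset ℕ) × ℕ =>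
      x.1.erase x.2) ?_ M ?_
    · intro x hx
      rw [Finset.mem_sigma] at hx
      rw [Finset.mem_powerset]
      exact (Finset.erase_subset _ _).trans (hSm _ hx.1).1
    · intro s' hs'
      rw [Finset.mem_powerset] at hs'
      have hu : ∏ x ∈ s', ρ x ≠ 0 := Finset.prod_ne_zero_iff.2 fun x hx => hρ x (hs' hx)
      refine le_trans ?_ (hM (r / ∏ x ∈ s', ρ x))
      refine Finset.card_le_card_of_injOn (fun x => x.2) ?_ ?_
      · rintro ⟨s, x⟩ hx
        rw [Finset.mem_coe, Finset.mem_filter, Finset.mem_sigma] at hx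
        obtain ⟨⟨hx1, hx2⟩, hx3⟩ := hx
        simp only at hx1 hx2 hx3
        obtain ⟨hs1, hs2⟩ := hSm _ hx1
        rw [Finset.mem_coe, Finset.mem_filter]
        refine ⟨hs1 hx2, ?_⟩
        rw [eq_div_iff hu, ← hs2, ← hx3, ← Finset.prod_insert (Finset.notMem_erase x s),
          Finset.insert_erase hx2]
      · rintro ⟨s, x⟩ hx ⟨s₂, x₂⟩ hx' he
        rw [Finset.mem_coe, Finset.mem_filter, Finset.mem_sigma] at hx hx'
        obtain ⟨⟨hx1, hx2⟩, hx3⟩ := hx
        obtain ⟨⟨hx1', hx2'⟩, hx3'⟩ := hx'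
        simp only at hx1 hx2 hx3 hx1' hx2' hx3' he
        subst he
        have e5 : s = s₂ := by
          rw [← Finset.insert_erase hx2, hx3, ← hx3', Finset.insert_erase hx2']
        subst e5
        rfl
  have h2 : ∑ s ∈ S, (P \ s).card ≤ M * 2 ^ P.card := by
    rw [← Finset.card_sigma, ← Finset.card_powerset]
    refine Finset.card_le_mul_card_image_of_maps_to (f := fun x : (_ : Finset ℕ) × ℕ =>
      insert x.2 x.1) ?_ M ?_
    · intro x hx
      rw [Finset.mem_sigma] at hx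
      rw [Finset.mem_powerset]
      exact Finset.insert_subset (Finset.mem_sdiff.1 hx.2).1 (hSm _ hx.1).1
    · intro s' hs'
      rw [Finset.mem_powerset] at hs'
      refine le_trans ?_ (hM ((∏ x ∈ s', ρ x) / r))
      refine Finset.card_le_card_of_injOn (fun x => x.2) ?_ ?_
      · rintro ⟨s, x⟩ hx
        rw [Finset.mem_coe, Finset.mem_filter, Finset.mem_sigma] at hx
        obtain ⟨⟨hx1, hx2⟩, hx3⟩ := hx
        simp only at hx1 hx2 hx3
        obtain ⟨hs1, hs2⟩ := hSm _ hx1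
        obtain ⟨hx4, hx5⟩ := Finset.mem_sdiff.1 hx2
        rw [Finset.mem_coe, Finset.mem_filter]
        have hu : r ≠ 0 := by
          rw [← hs2]; exact Finset.prod_ne_zero_iff.2 fun x hx => hρ x (hs1 hx)
        refine ⟨hx4, ?_⟩
        rw [eq_div_iff hu, ← hs2, ← hx3, ← Finset.prod_insert hx5]
      · rintro ⟨s, x⟩ hx ⟨s₂, x₂⟩ hx' he
        rw [Finset.mem_coe, Finset.mem_filter, Finset.mem_sigma] at hx hx'
        obtain ⟨⟨hx1, hx2⟩, hx3⟩ := hx
        obtain ⟨⟨hx1', hx2'⟩, hx3'⟩ := hx'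
        simp only at hx1 hx2 hx3 hx1' hx2' hx3' he
        subst he
        have hn1 := (Finset.mem_sdiff.1 hx2).2
        have hn2 := (Finset.mem_sdiff.1 hx2').2
        have e5 : s = s₂ := by
          rw [← Finset.erase_insert hn1, hx3, ← hx3', Finset.erase_insert hn2]
        subst e5
        rfl
  have h3 : ∑ s ∈ S, s.card + ∑ s ∈ S, (P \ s).card = P.card * S.card := by
    rw [← Finset.sum_add_distrib, mul_comm, ← smul_eq_mul, ← Finset.sum_const]
    refine Finset.sum_congr rfl fun s hs => ?_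
    rw [add_comm]
    exact Finset.card_sdiff_add_card_eq_card (hSm s hs).1
  rw [← h3]
  calc ∑ s ∈ S, s.card + ∑ s ∈ S, (P \ s).card ≤ M * 2 ^ P.card + M * 2 ^ P.card :=
        Nat.add_le_add h1 h2
    _ = 2 * M * 2 ^ P.card := by ring

/-- coprime integers are nonzero modulo the prime divisors -/
theorem cast_ne {l Q : ℕ} (hl : l.Prime) (hlq : l ∣ Q) {d : ℤ} (hd : IsCoprime d (Q : ℤ)) :
    (d : ZMod l) ≠ 0 := by
  intro h0
  rw [ZMod.intCast_zmod_eq_zero_iff_dvd] at h0
  have h2 : IsCoprime d (l : ℤ) := by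
    obtain ⟨k, hk⟩ := hlq
    rw [hk] at hd
    push_cast at hd
    exact hd.of_mul_right_left
  have h3 : IsUnit (l : ℤ) := h2.isUnit_of_dvd' h0 dvd_rfl
  rw [Int.isUnit_iff] at h3
  have := hl.two_le
  omega

/-- the products of the subsets are spread modulo a prime divisor of `q p` -/
theorem gen (hK : 1 ≤ K) {q₀ : ℕ} (P : Finset ℕ)
    (hP : ∀ x ∈ P, IsCoprime (a x) (q₀ : ℤ) ∧ IsCoprime (b x) (q₀ : ℤ))
    {l : ℕ} (hl : l.Prime) (hlq : l ∣ q₀) (hbad : (P.filter fun x =>
      ∃ j, 1 ≤ j ∧ j ≤ K ∧ (l : ℤ) ∣ a x ^ j - b x ^ j).card ≤ M) (M' : ℕ) (hMM : M ≤ M')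
    (hM' : 1 ≤ M') (hPc : 0 < P.card) (r : ZMod l) :
    ((P.powerset.filter fun s => ((pr a b P s : ℤ) : ZMod l) = r).card : ℝ) ≤
      2 ^ P.card * (2 * M' / P.card + (2 / K + 2 / Real.sqrt M')) := by
  have : Fact l.Prime := ⟨hl⟩
  set ρ : ℕ → ZMod l := fun x => (a x : ZMod l) / (b x : ZMod l) with hρ
  have hb : ∀ x ∈ P, (b x : ZMod l) ≠ 0 := fun x hx =>
    cast_ne hl hlq (hP x hx).2
  have ha : ∀ x ∈ P, (a x : ZMod l) ≠ 0 := fun x hx =>
    cast_ne hl hlq (hP x hx).1
  have hρ0 : ∀ x ∈ P, ρ x ≠ 0 := fun x hx => div_ne_zero (ha x hx) (hb x hx)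
  have hβ : ∏ x ∈ P, (b x : ZMod l) ≠ 0 := Finset.prod_ne_zero_iff.2 hb
  have hpr : ∀ s ⊆ P, ((pr a b P s : ℤ) : ZMod l) = (∏ x ∈ P, (b x : ZMod l)) * ∏ x ∈ s, ρ x := by
    intro s hs
    have h1 : ∏ x ∈ P, (b x : ZMod l) = (∏ x ∈ P \ s, (b x : ZMod l)) * ∏ x ∈ s, (b x : ZMod l) :=
      (Finset.prod_sdiff hs).symm
    have h2 : (∏ x ∈ s, (b x : ZMod l)) * ∏ x ∈ s, ρ x = ∏ x ∈ s, (a x : ZMod l) := by
      rw [← Finset.prod_mul_distrib]
      refine Finset.prod_congr rfl fun x hx => ?_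
      rw [hρ]
      exact mul_div_cancel₀ _ (hb x (hs hx))
    unfold pr
    push_cast
    rw [h1, mul_assoc, h2, mul_comm]
  refine le_trans ?_ (conc_field P ρ hρ0 M' K hK hM' (fun r hc => gen_field P ρ hρ0 hc r) ?_ hPc
    (r / ∏ x ∈ P, (b x : ZMod l)))
  · have h3 : (P.powerset.filter fun s => ((pr a b P s : ℤ) : ZMod l) = r).card ≤
        (P.powerset.filter fun s => ∏ x ∈ s, ρ x = r / ∏ x ∈ P, (b x : ZMod l)).card := by
      apply Finset.card_le_card
      intro s hs
      rw [Finset.mem_filter, Finset.mem_powerset] at hs ⊢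
      refine ⟨hs.1, ?_⟩
      rw [eq_div_iff hβ, mul_comm, ← hpr s hs.1]
      exact hs.2
    exact_mod_cast h3
  · intro c hc j hj1 hjK hcj
    apply absurd hc (not_lt.2 (le_trans (le_trans (Finset.card_le_card ?_) hbad) hMM))
    intro x hx
    obtain ⟨hx1, hx2⟩ := Finset.mem_filter.1 hx
    refine Finset.mem_filter.2 ⟨hx1, j, hj1, hjK, ?_⟩
    rw [← ZMod.intCast_zmod_eq_zero_iff_dvd]
    push_cast
    have h4 : (a x : ZMod l) = c * b x := by
      rw [← hx2, hρ]
      exact (div_mul_cancel₀ _ (hb x hx1)).symm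
    rw [h4, mul_pow, hcj, one_mul, sub_self]

/-- generic dilates -/
theorem caseIIb {q₀ : ℕ} (hq₀ : 2 ≤ q₀) (P : Finset ℕ)
    {w : ℤ} (hw : IsCoprime w (q₀ : ℤ))
    (X B : Finset ℤ) (I : ℕ) (V : Finset ℤ) (hV : V ⊆ X) (hVn : V.Nonempty)
    (hVi : ∀ z ∈ V, ∀ z' ∈ V, ((q₀ : ℤ) ^ I) ∣ z - z' → z = z')
    (U : Finset ℤ) (hU : U ⊆ B) (hUn : U.Nonempty)
    (hUi : ∀ z ∈ U, ∀ z' ∈ U, ((q₀ : ℤ) ^ I) ∣ z - z' → z = z')
    (β κ : ℝ) (hκ0 : 0 ≤ κ) (hκ : ∀ l : ℕ, l.Prime → l ∣ q₀ → ∀ r : ZMod l,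
      ((P.powerset.filter fun s => ((pr a b P s : ℤ) : ZMod l) = r).card : ℝ) ≤ 2 ^ P.card * κ)
    (hβ : ((V.card : ℝ) * U.card) ^ 2 * κ ≤ β) :
    (1 - β) * (Real.log V.card + Real.log U.card) +
      (∑ z ∈ V, ∑ v ∈ U, tau a b P (dil w (cls ((q₀ : ℤ) ^ I) X z))
        (cls ((q₀ : ℤ) ^ I) B v)) / (V.card * U.card) ≤ tau a b P (dil w X) B := by
  have hTc : (0 : ℝ) < V.card := by exact_mod_cast hVn.card_pos
  have hUc : (0 : ℝ) < U.card := by exact_mod_cast hUn.card_pos
  set Q : ℤ := (q₀ : ℤ) ^ I with hQ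
  set W : Finset (ℤ × ℤ) := V ×ˢ U with hW
  have hWn : W.Nonempty := hVn.product hUn
  have hWc : (W.card : ℝ) = V.card * U.card := by rw [hW, Finset.card_product]; push_cast; ring
  have hWc0 : (0 : ℝ) < W.card := by rw [hWc]; positivity
  have hWc1 : (1 : ℝ) ≤ W.card := by exact_mod_cast hWn.card_pos
  -- the pieces
  set D : ℤ → ℤ × ℤ → Finset ℤ := fun d y => dil d (dil w (cls Q X y.1)) + cls Q B y.2 with hD
  have hDne : ∀ d, ∀ y ∈ W, (D d y).Nonempty := by
    intro d y hy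
    rw [hW, Finset.mem_product] at hy
    refine Finset.Nonempty.add ?_ ?_
    · refine Finset.Nonempty.image (Finset.Nonempty.image ⟨y.1, ?_⟩ _) _
      rw [cls, Finset.mem_filter]
      exact ⟨hV hy.1, by simp⟩
    · refine ⟨y.2, ?_⟩
      rw [cls, Finset.mem_filter]
      exact ⟨hU hy.2, by simp⟩
  have hDsub : ∀ d, ∀ y ∈ W, D d y ⊆ dil d (dil w X) + B := by
    intro d y _
    refine Finset.add_subset_add ?_ (Finset.filter_subset _ _)
    exact Finset.image_subset_image (Finset.image_subset_image (Finset.filter_subset _ _))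
  -- good sets
  set good : Finset ℕ → Prop := fun s => ∀ y ∈ W, ∀ y' ∈ W,
    Q ∣ pr a b P s * (w * (y.1 - y'.1)) + (y.2 - y'.2) → y = y' with hgood
  have hbad_case : ∀ s, (∑ y ∈ W, Real.log ((D (pr a b P s) y).card : ℝ)) / W.card ≤
      Real.log ((dil (pr a b P s) (dil w X) + B).card : ℝ) := by
    intro s
    rw [div_le_iff₀ hWc0, mul_comm, ← nsmul_eq_mul, ← Finset.sum_const]
    refine Finset.sum_le_sum fun y hy => ?_
    refine Real.log_le_log (by exact_mod_cast (hDne _ y hy).card_pos) ?_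
    exact_mod_cast Finset.card_le_card (hDsub _ y hy)
  have hgood_case : ∀ s, good s → Real.log W.card +
      (∑ y ∈ W, Real.log ((D (pr a b P s) y).card : ℝ)) / W.card ≤
      Real.log ((dil (pr a b P s) (dil w X) + B).card : ℝ) := by
    intro s hs
    refine (log_mean W hWn (fun y => ((D (pr a b P s) y).card : ℝ)) fun y hy => by
      exact_mod_cast (hDne _ y hy).card_pos).trans ?_
    refine Real.log_le_log (Finset.sum_pos (fun y hy => by
      exact_mod_cast (hDne _ y hy).card_pos) hWn) ?_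
    have hdisj : ∀ y ∈ W, ∀ y' ∈ W, y ≠ y' → Disjoint (D (pr a b P s) y) (D (pr a b P s) y') := by
      intro y hy y' hy' hne
      rw [Finset.disjoint_left]
      intro z hz hz'
      apply hne
      refine hs y hy y' hy' ?_
      obtain ⟨x, hx, e, he, rfl⟩ := Finset.mem_add.1 hz
      obtain ⟨x', hx', e', he', hee⟩ := Finset.mem_add.1 hz'
      obtain ⟨f, hf, rfl⟩ := Finset.mem_image.1 hx
      obtain ⟨f', hf', rfl⟩ := Finset.mem_image.1 hx'
      obtain ⟨g, hg, rfl⟩ := Finset.mem_image.1 hf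
      obtain ⟨g', hg', rfl⟩ := Finset.mem_image.1 hf'
      obtain ⟨k1, hk1⟩ := (Finset.mem_filter.1 hg).2
      obtain ⟨k2, hk2⟩ := (Finset.mem_filter.1 hg').2
      obtain ⟨k3, hk3⟩ := (Finset.mem_filter.1 he).2
      obtain ⟨k4, hk4⟩ := (Finset.mem_filter.1 he').2
      refine ⟨pr a b P s * (w * (k2 - k1)) + (k4 - k3), ?_⟩
      have e1 : y.1 = g - Q * k1 := by linarith
      have e2 : y'.1 = g' - Q * k2 := by linarith
      have e3 : y.2 = e - Q * k3 := by linarith
      have e4 : y'.2 = e' - Q * k4 := by linarith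
      rw [e1, e2, e3, e4]
      have e5 : e' = pr a b P s * (w * g) + e - pr a b P s * (w * g') := by linarith
      rw [e5]
      ring
    have h1 : ∑ y ∈ W, (D (pr a b P s) y).card = (W.biUnion (D (pr a b P s))).card :=
      (Finset.card_biUnion hdisj).symm
    have h2 : (W.biUnion (D (pr a b P s))).card ≤ (dil (pr a b P s) (dil w X) + B).card :=
      Finset.card_le_card (Finset.biUnion_subset.2 (hDsub _))
    calc ∑ y ∈ W, ((D (pr a b P s) y).card : ℝ) = ((∑ y ∈ W, (D (pr a b P s) y).card : ℕ) : ℝ) := by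
          push_cast; rfl
      _ ≤ _ := by rw [h1]; exact_mod_cast h2
  -- the number of bad sets
  set bad : Finset (Finset ℕ) := P.powerset.filter fun s => ¬ good s with hbad
  have hpair : ∀ y ∈ W, ∀ y' ∈ W, y ≠ y' → ((P.powerset.filter fun s =>
      Q ∣ pr a b P s * (w * (y.1 - y'.1)) + (y.2 - y'.2)).card : ℝ) ≤ 2 ^ P.card * κ := by
    intro y hy y' hy' hne
    rcases (P.powerset.filter fun s =>
      Q ∣ pr a b P s * (w * (y.1 - y'.1)) + (y.2 - y'.2)).eq_empty_or_nonempty with h0 | ⟨s0, hs0⟩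
    · rw [h0, Finset.card_empty, Nat.cast_zero]; positivity
    · rw [hW, Finset.mem_product] at hy hy'
      rw [Finset.mem_filter] at hs0
      -- a prime power
      have hQn : ¬ Q ∣ w * (y.1 - y'.1) := by
        intro h4
        have h4' : Q ∣ y.1 - y'.1 := by
          have : IsCoprime Q w := by rw [hQ]; exact IsCoprime.pow_left hw.symm
          exact this.dvd_of_dvd_mul_left h4
        have h5 : y.1 = y'.1 := hVi _ hy.1 _ hy'.1 h4'
        have h6 : Q ∣ y.2 - y'.2 := by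
          have := hs0.2
          rw [h5, sub_self, mul_zero, mul_zero, zero_add] at this
          exact this
        have h7 : y.2 = y'.2 := hUi _ hy.2 _ hy'.2 h6
        exact hne (Prod.ext h5 h7)
      obtain ⟨l, hl, hlq, hlk⟩ : ∃ l : ℕ, l.Prime ∧ l ∣ q₀ ∧ ∀ z : ℤ,
          Q ∣ z * (w * (y.1 - y'.1)) → (l : ℤ) ∣ z := by
        by_contra hcon
        push Not at hcon
        apply hQn
        have hQ0 : q₀ ≠ 0 := by omega
        -- the ideal of the `z` with `Q ∣ z * _` is generated by `g`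
        set e : ℤ := w * (y.1 - y'.1) with he
        set g : ℕ := Q.natAbs / (Int.gcd Q e) with hg
        have hQp : 0 < Q.natAbs := by
          rw [hQ, Int.natAbs_pow, Int.natAbs_natCast]
          exact pow_pos (Nat.pos_of_ne_zero hQ0) _
        have hgcd : Int.gcd Q e ∣ Q.natAbs := Nat.gcd_dvd_left _ _
        have hgcdpos : 0 < Int.gcd Q e := Nat.pos_of_dvd_of_pos hgcd hQp
        have hkey : ∀ z : ℤ, Q ∣ z * e → (g : ℤ) ∣ z := by
          intro z hz
          have hz' : Q.natAbs ∣ z.natAbs * e.natAbs := by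
            rw [← Int.natAbs_mul]; exact Int.natAbs_dvd_natAbs.2 hz
          rw [Int.natCast_dvd]
          have h1 : Q.natAbs / Nat.gcd Q.natAbs e.natAbs ∣
              z.natAbs * (e.natAbs / Nat.gcd Q.natAbs e.natAbs) := by
            rw [← Nat.mul_div_assoc _ (Nat.gcd_dvd_right _ _)]
            exact Nat.div_dvd_div (Nat.gcd_dvd_left _ _) hz'
          exact (Nat.coprime_div_gcd_div_gcd hgcdpos).dvd_of_dvd_mul_right h1
        by_cases hg1 : g = 1
        · have h1 : Q.natAbs = Int.gcd Q e := by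
            have := Nat.div_mul_cancel hgcd
            rw [← hg, hg1, one_mul] at this
            exact this.symm
          rw [← Int.natAbs_dvd, h1]
          exact Int.gcd_dvd_right _ _
        · obtain ⟨l, hl, hlg⟩ := Nat.exists_prime_and_dvd hg1
          have hgQ : g ∣ Q.natAbs := Nat.div_dvd_of_dvd hgcd
          have hlQ : l ∣ q₀ := by
            have : l ∣ q₀ ^ I := by
              have := hlg.trans hgQ
              rwa [hQ, Int.natAbs_pow, Int.natAbs_natCast] at this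
            exact hl.dvd_of_dvd_pow this
          obtain ⟨z, hz1, hz2⟩ := hcon l hl hlQ
          exact absurd ((Int.natCast_dvd_natCast.2 hlg).trans (hkey z hz1)) hz2
      refine le_trans ?_ (hκ l hl hlq ((pr a b P s0 : ℤ) : ZMod l))
      rw [Nat.cast_le]
      apply Finset.card_le_card
      intro s hs
      rw [Finset.mem_filter] at hs ⊢
      refine ⟨hs.1, ?_⟩
      have h1 : Q ∣ (pr a b P s - pr a b P s0) * (w * (y.1 - y'.1)) := by
        have := dvd_sub hs.2 hs0.2
        have e : pr a b P s * (w * (y.1 - y'.1)) + (y.2 - y'.2) -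
          (pr a b P s0 * (w * (y.1 - y'.1)) + (y.2 - y'.2)) =
          (pr a b P s - pr a b P s0) * (w * (y.1 - y'.1)) := by ring
        rwa [e] at this
      have h2 := hlk _ h1
      rw [← sub_eq_zero, ← Int.cast_sub, ZMod.intCast_zmod_eq_zero_iff_dvd]
      exact h2
  have hbadc : (bad.card : ℝ) ≤ β * 2 ^ P.card := by
    have h1 : bad ⊆ (W ×ˢ W).biUnion fun c => if c.1 = c.2 then ∅ else
        P.powerset.filter fun s => Q ∣ pr a b P s * (w * (c.1.1 - c.2.1)) + (c.1.2 - c.2.2) := by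
      intro s hs
      rw [hbad, Finset.mem_filter] at hs
      obtain ⟨hsP, hs⟩ := hs
      simp only [hgood] at hs
      push Not at hs
      obtain ⟨y, hy, y', hy', hd, hne⟩ := hs
      rw [Finset.mem_biUnion]
      refine ⟨(y, y'), Finset.mk_mem_product hy hy', ?_⟩
      rw [if_neg hne, Finset.mem_filter]
      exact ⟨hsP, hd⟩
    have h2 : (bad.card : ℝ) ≤ (W.card * W.card : ℝ) * (2 ^ P.card * κ) := by
      calc (bad.card : ℝ) ≤ ((∑ c ∈ W ×ˢ W, (if c.1 = c.2 then ∅ else
            P.powerset.filter fun s => Q ∣ pr a b P s * (w * (c.1.1 - c.2.1)) +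
              (c.1.2 - c.2.2)).card : ℕ) : ℝ) := by
            exact_mod_cast (Finset.card_le_card h1).trans Finset.card_biUnion_le
        _ = ∑ c ∈ W ×ˢ W, ((if c.1 = c.2 then ∅ else
            P.powerset.filter fun s => Q ∣ pr a b P s * (w * (c.1.1 - c.2.1)) +
              (c.1.2 - c.2.2)).card : ℝ) := by
            push_cast; rfl
        _ ≤ ∑ c ∈ W ×ˢ W, (2 ^ P.card * κ : ℝ) := by
            refine Finset.sum_le_sum fun c hc => ?_
            rw [Finset.mem_product] at hc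
            split_ifs with h
            · rw [Finset.card_empty, Nat.cast_zero]; positivity
            · exact hpair _ hc.1 _ hc.2 h
        _ = (W.card * W.card) * (2 ^ P.card * κ) := by
            rw [Finset.sum_const, Finset.card_product, nsmul_eq_mul]
            push_cast; ring
    refine h2.trans ?_
    rw [hWc]
    have h5 : (0 : ℝ) < 2 ^ P.card := by positivity
    nlinarith
  -- averaging
  have hN : (0 : ℝ) < 2 ^ P.card := by positivity
  have hlogW : 0 ≤ Real.log W.card := Real.log_nonneg hWc1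
  have hsum : (1 - β) * 2 ^ P.card * Real.log W.card +
      ∑ s ∈ P.powerset, (∑ y ∈ W, Real.log ((D (pr a b P s) y).card : ℝ)) / W.card ≤
      ∑ s ∈ P.powerset, Real.log ((dil (pr a b P s) (dil w X) + B).card : ℝ) := by
    have h1 : ∑ s ∈ P.powerset, ((∑ y ∈ W, Real.log ((D (pr a b P s) y).card : ℝ)) / W.card +
        if good s then Real.log W.card else 0) ≤
        ∑ s ∈ P.powerset, Real.log ((dil (pr a b P s) (dil w X) + B).card : ℝ) := by
      refine Finset.sum_le_sum fun s _ => ?_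
      split_ifs with h
      · have := hgood_case s h; linarith
      · rw [add_zero]; exact hbad_case s
    rw [Finset.sum_add_distrib, ← Finset.sum_filter, Finset.sum_const, nsmul_eq_mul] at h1
    have h2 : ((P.powerset.filter good).card : ℝ) + bad.card = 2 ^ P.card := by
      have := Finset.card_filter_add_card_filter_not (s := P.powerset) good
      rw [Finset.card_powerset] at this
      exact_mod_cast this
    have h3 : (1 - β) * 2 ^ P.card ≤ ((P.powerset.filter good).card : ℝ) := by linarith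
    have h4 := mul_le_mul_of_nonneg_right h3 hlogW
    linarith
  have hlog : Real.log W.card = Real.log V.card + Real.log U.card := by
    rw [hWc, Real.log_mul hTc.ne' hUc.ne']
  rw [← hlog, ← hWc]
  have hexp : ∑ z ∈ V, ∑ v ∈ U, tau a b P (dil w (cls Q X z)) (cls Q B v) =
      (∑ s ∈ P.powerset, ∑ y ∈ W, Real.log ((D (pr a b P s) y).card : ℝ)) / 2 ^ P.card := by
    rw [hW, ← Finset.sum_product', Finset.sum_comm, Finset.sum_div]
    rfl
  rw [hexp]
  unfold tau
  rw [le_div_iff₀ hN]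
  rw [← Finset.sum_div] at hsum
  have e : ((1 - β) * Real.log W.card + (∑ s ∈ P.powerset, ∑ y ∈ W,
      Real.log ((D (pr a b P s) y).card : ℝ)) / 2 ^ P.card / W.card) * 2 ^ P.card =
      (1 - β) * 2 ^ P.card * Real.log W.card +
      (∑ s ∈ P.powerset, ∑ y ∈ W, Real.log ((D (pr a b P s) y).card : ℝ)) / W.card := by
    field_simp
  rw [e]
  exact hsum

end Pool.Agent.H597.SP
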