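import Pool.Agent.H597.SP.Large

/-!
Some dilate by a product of powers of multipliers has a large sum with a given set.
-/

set_option autoImplicit false

namespace Pool.Agent.H597.SP

open Finset
open Pool.Agent.TH83.SQ (cls dil)
open Pool.Agent.TH83.DC (ent jent wt wt_fact exists_E jent_small Sz Sz_nonneg dil_dil card_dil)
open scoped Pointwise Classical

variable {Pi : Set ℕ} {a b : ℕ → ℤ} {q : ℕ → ℕ}

theorem exists_ge_T {n : ℕ} (hn : n ≠ 0) {X B : Finset ℤ} {s : ℝ} (h : s ≤ T a b n X B) :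
    ∃ d, d ∣ n ∧ s ≤ Real.log ((dil (ev a d * ev b (n / d)) X + B).card : ℝ) := by
  by_contra hcon
  push Not at hcon
  have hD : (n.divisors).Nonempty := ⟨1, Nat.one_mem_divisors.2 hn⟩
  have cD : (0 : ℝ) < n.divisors.card := by exact_mod_cast hD.card_pos
  have h1 : ∑ d ∈ n.divisors, Real.log ((dil (ev a d * ev b (n / d)) X + B).card : ℝ) <
      ∑ _d ∈ n.divisors, s :=
    Finset.sum_lt_sum_of_nonempty hD fun d hd => hcon d (Nat.dvd_of_mem_divisors hd)
  rw [Finset.sum_const, nsmul_eq_mul] at h1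
  unfold T at h
  rw [le_div_iff₀ cD] at h
  linarith

theorem Tri.b0 (h : Tri Pi a b q) {p : ℕ} (hp : p ∈ Pi) : b p ≠ 0 := by
  obtain ⟨t, w, v, htq, hv, hw, hor⟩ := h.div p hp
  have hQ := h.two p hp
  have ht0 : t ≠ 0 := by rw [htq]; exact mul_ne_zero (cop_ne hQ hv) (h.q0 hp)
  rcases hor with ⟨h1, h2⟩ | ⟨h1, h2⟩
  · rw [h2]; exact cop_ne hQ hw
  · rw [h2]; exact ht0

theorem Tri.evb0 (h : Tri Pi a b q) {n : ℕ} (hn : ∀ p ∈ n.primeFactors, p ∈ Pi) :
    ev b n ≠ 0 := by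
  unfold ev
  rw [Finsupp.prod, Finset.prod_ne_zero_iff]
  intro p hp
  exact pow_ne_zero _ (h.b0 (hn p hp))

/-- some dilate by a product of powers of multipliers has a large sum set -/
theorem dilates (δ θ : ℝ) (hδ : 0 < δ) (hθ : 0 < θ) :
    ∃ (C η : ℝ) (K : ℕ), 0 < η ∧ ∀ (Pi : Set ℕ) (M : ℕ) (a b : ℕ → ℤ) (q : ℕ → ℕ),
      Tri Pi a b q → (∀ P : Finset ℕ, P.Nonempty → (∀ x ∈ P, x ∈ Pi) →
        ∃ p ∈ P, ∃ Q, Step M K a b P p Q) →
      ∀ n : ℕ, n ≠ 0 → (∀ p ∈ n.primeFactors, p ∈ Pi) →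
      ∀ X B : Finset ℤ, X.Nonempty → B.Nonempty →
      (M : ℝ) ≤ 2 * K ^ 2 * (1 + η * (Real.log X.card + Real.log B.card)) →
      θ * (Real.log X.card + Real.log B.card) ≤ wt n →
      ∃ d, d ∣ n ∧ (1 - δ) * (Real.log X.card + Real.log B.card) - C ≤
        Real.log ((dil (ev a d * ev b (n / d)) X + B).card : ℝ) := by
  set δ' : ℝ := δ / 4 with hδ'
  have hδ'0 : 0 < δ' := by positivity
  obtain ⟨C₁, hC₁, hsmall⟩ := jent_small δ' hδ'0
  obtain ⟨E₁, hE₁⟩ := exists_nat_ge (2 / δ')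
  rw [div_le_iff₀ hδ'0] at hE₁
  obtain ⟨E₂, hE₂⟩ := exists_E (δ' / (2 * C₁) * δ' * θ / 2) (by positivity)
  set E₀ : ℕ := max E₁ E₂ with hE₀
  have hl : 0 < Real.log ((E₀ : ℝ) + 2) := Real.log_pos (by
    have : (0 : ℝ) ≤ E₀ := Nat.cast_nonneg _
    linarith)
  obtain ⟨C₂, η₂, K, hη₂, hC₂⟩ := dilates_small δ (θ / (2 * Real.log ((E₀ : ℝ) + 2))) hδ
    (by positivity)
  refine ⟨max C₂ 0, η₂ * (θ / (2 * Real.log ((E₀ : ℝ) + 2))), K, by positivity, ?_⟩
  intro Pi M a b q h hstep n hn hPi X B hX hB hMS hS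
  set S : ℝ := Real.log X.card + Real.log B.card with hSdef
  have hS0 : 0 ≤ S := add_nonneg (Real.log_natCast_nonneg _) (Real.log_natCast_nonneg _)
  rw [wt_fact hn] at hS
  -- a divisor `m` of `n` is enough
  have hred : ∀ m : ℕ, m ∣ n → ∀ c : ℝ, (∀ X' : Finset ℤ, X'.Nonempty → X'.card = X.card →
      ∃ d, d ∣ m ∧ c ≤ Real.log ((dil (ev a d * ev b (m / d)) X' + B).card : ℝ)) →
      ∃ d, d ∣ n ∧ c ≤ Real.log ((dil (ev a d * ev b (n / d)) X + B).card : ℝ) := by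
    intro m hm c hc
    obtain ⟨m', rfl⟩ := hm
    have hm0 : m ≠ 0 := fun h => hn (by rw [h, zero_mul])
    have hm'0 : m' ≠ 0 := fun h => hn (by rw [h, mul_zero])
    have hb0 : ev b m' ≠ 0 := h.evb0 fun p hp =>
      hPi p (Nat.primeFactors_mono (dvd_mul_left _ _) hn hp)
    obtain ⟨d, hd, hdc⟩ := hc (dil (ev b m') X) (hX.image _) (card_dil hb0 X)
    refine ⟨d, hd.mul_right _, ?_⟩
    obtain ⟨f, rfl⟩ := hd
    have hd0 : d ≠ 0 := fun h => hm0 (by rw [h, zero_mul])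
    have hf0 : f ≠ 0 := fun h => hm0 (by rw [h, mul_zero])
    rw [Nat.mul_div_cancel_left _ (Nat.pos_of_ne_zero hd0), dil_dil] at hdc
    rw [mul_assoc d f m', Nat.mul_div_cancel_left _ (Nat.pos_of_ne_zero hd0), ev_mul b hf0 hm'0,
      ← mul_assoc]
    exact hdc
  set P₁ : Finset ℕ := n.primeFactors.filter fun p => n.factorization p < E₀ with hP₁
  set P₂ : Finset ℕ := n.primeFactors.filter fun p => ¬ n.factorization p < E₀ with hP₂
  have hsplit : ∑ p ∈ n.primeFactors, Real.log ((n.factorization p : ℝ) + 1) =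
      ∑ p ∈ P₁, Real.log ((n.factorization p : ℝ) + 1) +
        ∑ p ∈ P₂, Real.log ((n.factorization p : ℝ) + 1) :=
    (Finset.sum_filter_add_sum_filter_not _ _ _).symm
  rw [hsplit] at hS
  by_cases h1 : θ * S / 2 ≤ ∑ p ∈ P₁, Real.log ((n.factorization p : ℝ) + 1)
  · -- many primes with small exponents
    have hP₁p : ∀ p ∈ P₁, p ∈ Pi := fun p hp => hPi p (Finset.mem_filter.1 hp).1
    have h2 : ∑ p ∈ P₁, Real.log ((n.factorization p : ℝ) + 1) ≤
        P₁.card * Real.log ((E₀ : ℝ) + 2) := by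
      rw [← nsmul_eq_mul]
      apply Finset.sum_le_card_nsmul
      intro p hp
      apply Real.log_le_log (by positivity)
      have h3 : (n.factorization p : ℝ) ≤ E₀ := by
        exact_mod_cast (Finset.mem_filter.1 hp).2.le
      linarith
    have h3 : θ / (2 * Real.log ((E₀ : ℝ) + 2)) * S ≤ P₁.card := by
      rw [div_mul_eq_mul_div, div_le_iff₀ (by positivity)]
      linarith
    have h4 : (M : ℝ) ≤ 2 * K ^ 2 * (1 + η₂ * P₁.card) := by
      have h5 := mul_le_mul_of_nonneg_left h3 hη₂.le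
      refine hMS.trans (mul_le_mul_of_nonneg_left (by linarith) (by positivity))
    have hdvd : ∏ x ∈ P₁, x ∣ n :=
      (Finset.prod_dvd_prod_of_subset _ _ _ (Finset.filter_subset _ _)).trans
        (Nat.prod_primeFactors_dvd n)
    refine hred (∏ x ∈ P₁, x) hdvd _ fun X' hX' hXc => ?_
    obtain ⟨s, hs, hsum⟩ := hC₂ M a b P₁ (fun P' hP' hne => hstep P' hne
      fun x hx => hP₁p x (hP' hx)) h4 X' B hX' hB (by rw [hXc]; exact h3)
    refine ⟨∏ x ∈ s, x, Finset.prod_dvd_prod_of_subset _ _ _ hs, ?_⟩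
    have hpr : ∀ x ∈ P₁, x.Prime := fun x hx => h.prime x (hP₁p x hx)
    have h5 : (∏ x ∈ P₁, x) / ∏ x ∈ s, x = ∏ x ∈ P₁ \ s, x := by
      rw [← Finset.prod_sdiff hs]
      exact Nat.mul_div_cancel _ (Finset.prod_pos fun x hx => (hpr x (hs hx)).pos)
    rw [h5, ev_prod a fun x hx => hpr x (hs hx),
      ev_prod b fun x hx => hpr x (Finset.mem_sdiff.1 hx).1]
    rw [hXc] at hsum
    have h6 := le_max_left C₂ 0
    have h7 : Real.log X.card + Real.log B.card = S := rfl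
    rw [h7] at hsum
    exact le_trans (by linarith) hsum
  · -- large exponents
    push Not at h1
    have h2 : θ * S / 2 ≤ ∑ p ∈ P₂, Real.log ((n.factorization p : ℝ) + 1) := by linarith
    have hP₂p : ∀ p ∈ P₂, p ∈ Pi ∧ E₁ ≤ n.factorization p := by
      intro p hp
      obtain ⟨h3, h4⟩ := Finset.mem_filter.1 hp
      exact ⟨hPi p h3, (le_max_left _ _).trans (not_lt.1 h4)⟩
    set n₂ : ℕ := ∏ p ∈ P₂, p ^ n.factorization p with hn₂
    have hn₂0 : n₂ ≠ 0 := Finset.prod_ne_zero_iff.2 fun x hx =>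
      pow_ne_zero _ (h.prime x (hP₂p x hx).1).ne_zero
    have hn₂n : n₂ ∣ n := by
      have h4 : n₂ ∣ ∏ p ∈ n.primeFactors, p ^ n.factorization p :=
        Finset.prod_dvd_prod_of_subset _ _ _ (Finset.filter_subset _ _)
      have h5 : ∏ p ∈ n.primeFactors, p ^ n.factorization p = n :=
        Nat.prod_factorization_pow_eq_self hn
      rwa [h5] at h4
    refine hred n₂ hn₂n _ fun X' hX' hXc => ?_
    have h3 := T_ge h hδ'0 hC₁ hsmall E₁ (by linarith) (fun p => n.factorization p) P₂ hP₂p X' B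
      hX' hB
    set Γ : ℝ := δ' / (2 * C₁) * ∑ p ∈ P₂, ((n.factorization p : ℕ) : ℝ) with hΓ
    -- `Γ ≥ S / δ'`
    have h4 : S ≤ δ' * Γ := by
      have h5 : ∑ p ∈ P₂, Real.log ((n.factorization p : ℝ) + 1) ≤
          ∑ p ∈ P₂, (δ' / (2 * C₁) * δ' * θ / 2 * (n.factorization p : ℝ)) := by
        apply Finset.sum_le_sum
        intro p hp
        exact hE₂ _ ((le_max_right _ _).trans (not_lt.1 (Finset.mem_filter.1 hp).2))
      rw [← Finset.mul_sum] at h5
      have h6 : δ' / (2 * C₁) * δ' * θ / 2 * ∑ p ∈ P₂, (n.factorization p : ℝ) =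
          θ / 2 * (δ' * Γ) := by rw [hΓ]; ring
      rw [h6] at h5
      have h7 : θ / 2 * S ≤ θ / 2 * (δ' * Γ) := by linarith
      exact le_of_mul_le_mul_left h7 (by positivity)
    have hSz : Sz X' B = S := by unfold Sz; rw [hXc]
    rw [hSz] at h3
    have h5 : (1 - δ) * S ≤ T a b n₂ X' B := by
      rcases hS0.eq_or_lt with h | h
      · rw [← h, mul_zero]; exact T_nonneg _ _ _ _ _
      have hΓ0 : 0 < Γ := by
        by_contra hcon
        push Not at hcon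
        have : δ' * Γ ≤ 0 := mul_nonpos_of_nonneg_of_nonpos hδ'0.le hcon
        linarith
      have h6 : S ^ 2 ≤ δ' * S * Γ := by nlinarith
      have h7 : (1 - δ) * S * Γ ≤ T a b n₂ X' B * Γ := by
        have h8 : (1 - δ) * S * Γ = (1 - 3 * δ') * S * Γ - δ' * S * Γ := by rw [hδ']; ring
        rw [h8]
        linarith
      exact le_of_mul_le_mul_right h7 hΓ0
    obtain ⟨d, hd, hle⟩ := exists_ge_T hn₂0 h5
    exact ⟨d, hd, by have := le_max_right C₂ 0; linarith⟩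

end Pool.Agent.H597.SP
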