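import Pool.Agent.H597.SP.FinForm

/-!
Sets of integers which are unions of multiplicative translates of a box of high rank.
-/

set_option autoImplicit false

namespace Pool.Agent.H597.SP

open Finset
open Pool.Agent.TH83.SQ (cls dil)
open Pool.Agent.TH83.DC (wt wt_nonneg wt_interp log_add_ge card_dil few_small)
open scoped Pointwise Classical

/-- the logarithmic form, for boxes given by divisors of a number `N₀` -/
theorem fib_log (ε θ τ : ℝ) (hε : 0 < ε) (hε1 : ε ≤ 1) (hθ : 0 < θ) (hτ : 0 < τ) :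
    ∃ (C η : ℝ), 0 ≤ C ∧ 0 < η ∧ ∀ (Pi : Set ℕ) (κ : ℕ) (r : ℕ → ℚ) (S : ℕ → Finset ℕ),
      Priv Pi κ r S → 1 ≤ κ → ∀ N₀ : ℕ, N₀ ≠ 0 → (∀ p ∈ N₀.primeFactors, p ∈ Pi) →
      ∀ A B : Finset ℤ, A.Nonempty → B.Nonempty →
      (κ : ℝ) ≤ 1 + η * Real.log A.card → wt N₀ ≤ τ * Real.log A.card →
      (∀ a ∈ A, ∃ n₀, n₀ ∣ N₀ ∧ θ * Real.log A.card ≤ wt n₀ ∧
        ∀ n', n' ∣ n₀ → ∃ x ∈ A, (∃ d, d ∣ n' ∧ (a : ℚ) = x * g r d) ∧
        ∀ d, d ∣ n' → ∃ z ∈ A, (z : ℚ) = x * g r d) →
      (1 - ε) * (Real.log A.card + Real.log B.card) - C ≤ Real.log ((A + B).card : ℝ) := by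
  set ε₁ : ℝ := ε / 4 with hε₁
  have hε10 : 0 < ε₁ := by positivity
  obtain ⟨u₀, hu₀, hfew⟩ := few_small (ε₁ / τ) (by positivity)
  set s : ℝ := min (min θ ε₁) (u₀ * τ / 2) with hs
  have hs0 : 0 < s := by positivity
  have hsθ : s ≤ θ := (min_le_left _ _).trans (min_le_left _ _)
  have hsε : s ≤ ε₁ := (min_le_left _ _).trans (min_le_right _ _)
  have hsu : s ≤ u₀ * τ / 2 := min_le_right _ _
  set MM : ℝ := 1 / ε with hMM
  have hMM0 : 0 < MM := by positivity
  have hl2 : 0 < Real.log 2 := Real.log_pos (by norm_num)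
  obtain ⟨C, η, K, hη, hC⟩ := dilates ε₁ (s / (1 + MM)) hε10 (by positivity)
  set L₁ : ℝ := max (8 * Real.log 2) (Real.log 2 / (u₀ * τ / 2)) with hL₁
  have hL₁0 : 0 ≤ L₁ := le_max_of_le_left (by positivity)
  refine ⟨max C 0 + (L₁ + 8 * Real.log 2), η / 4, by positivity, by positivity, ?_⟩
  intro Pi κ r S h hκ N₀ hN₀ hN₀Pi A B hA hB hκη hwtN hfib
  set L := Real.log A.card with hL
  have hL0 : 0 ≤ L := Real.log_natCast_nonneg _
  have hB0 : 0 ≤ Real.log B.card := Real.log_natCast_nonneg _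
  have hlow : Real.log B.card ≤ Real.log ((A + B).card : ℝ) := log_add_ge hA hB
  have hlowA : 0 ≤ Real.log ((A + B).card : ℝ) := Real.log_natCast_nonneg _
  have hC0 : 0 ≤ max C 0 := le_max_right _ _
  by_cases hLs : L < L₁
  · nlinarith
  push Not at hLs
  have hLs1 : 8 * Real.log 2 ≤ L := (le_max_left _ _).trans hLs
  have hLs2 : Real.log 2 / (u₀ * τ / 2) ≤ L := (le_max_right _ _).trans hLs
  rw [div_le_iff₀ (by positivity)] at hLs2
  by_cases hBM : Real.log B.card ≤ MM * L
  · -- a box of small size for every element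
    have hex : ∀ a ∈ A, ∃ n, n ∣ N₀ ∧ s * L ≤ wt n ∧ wt n ≤ s * L + Real.log 2 ∧
        ∃ x ∈ A, (∃ d, d ∣ n ∧ (a : ℚ) = x * g r d) ∧
          ∀ d, d ∣ n → ∃ z ∈ A, (z : ℚ) = x * g r d := by
      intro a ha
      obtain ⟨n₀, hn₀N, hwt, hbox⟩ := hfib a ha
      have hn₀ : n₀ ≠ 0 := fun h => hN₀ (by rw [h] at hn₀N; exact Nat.eq_zero_of_zero_dvd hn₀N)
      have hsL : s * L ≤ wt n₀ := le_trans (mul_le_mul_of_nonneg_right hsθ hL0) hwt
      obtain ⟨n, hnn, hn1, hn2⟩ := wt_interp hn₀ (by positivity : 0 ≤ s * L) hsL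
      exact ⟨n, hnn.trans hn₀N, hn1, hn2, hbox n hnn⟩
    choose! nn hnn1 hnn2 hnn3 x hx1 hx2 hx3 using hex
    -- the popular box
    set D : Finset ℕ := N₀.divisors.filter fun d => wt d ≤ u₀ * (τ * L) with hD
    have hDc : (D.card : ℝ) ≤ Real.exp (ε₁ * L) := by
      refine (hfew N₀ hN₀ (τ * L) hwtN).trans (le_of_eq ?_)
      congr 1
      field_simp
    have hnD : ∀ a ∈ A, nn a ∈ D := by
      intro a ha
      refine Finset.mem_filter.2 ⟨Nat.mem_divisors.2 ⟨hnn1 a ha, hN₀⟩, (hnn3 a ha).trans ?_⟩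
      have h1 : s * L ≤ u₀ * τ / 2 * L := mul_le_mul_of_nonneg_right hsu hL0
      linarith
    have hDn : D.Nonempty := by
      obtain ⟨a, ha⟩ := hA
      exact ⟨nn a, hnD a ha⟩
    obtain ⟨n, hnDD, hnmax⟩ := Finset.exists_max_image D
      (fun n => (A.filter fun a => nn a = n).card) hDn
    set A₀ : Finset ℤ := A.filter fun a => nn a = n with hA₀
    have hpig : A.card ≤ D.card * A₀.card := by
      rw [Finset.card_eq_sum_card_fiberwise (f := nn) (t := D) hnD]
      calc ∑ d ∈ D, (A.filter fun a => nn a = d).card ≤ ∑ _d ∈ D, A₀.card :=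
            Finset.sum_le_sum fun d hd => hnmax d hd
        _ = _ := by rw [Finset.sum_const, smul_eq_mul]
    have hA₀n : A₀.Nonempty := by
      rw [Finset.nonempty_iff_ne_empty]
      intro h0
      rw [h0, Finset.card_empty, mul_zero] at hpig
      have := hA.card_pos
      omega
    obtain ⟨a₁, ha₁⟩ := hA₀n
    obtain ⟨ha₁A, ha₁n⟩ := Finset.mem_filter.1 ha₁
    have hnN : n ∣ N₀ := ha₁n ▸ hnn1 a₁ ha₁A
    have hn1 : s * L ≤ wt n := ha₁n ▸ hnn2 a₁ ha₁A
    have hn2 : wt n ≤ s * L + Real.log 2 := ha₁n ▸ hnn3 a₁ ha₁A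
    have hn0 : n ≠ 0 := fun h => hN₀ (by rw [h] at hnN; exact Nat.eq_zero_of_zero_dvd hnN)
    have hnPi : ∀ p ∈ n.primeFactors, p ∈ Pi := fun p hp =>
      hN₀Pi p (Nat.primeFactors_mono hnN hN₀ hp)
    set X : Finset ℤ := A₀.image x with hX
    have hXn : X.Nonempty := ⟨x a₁, Finset.mem_image_of_mem _ ha₁⟩
    have hXA : X ⊆ A := by
      intro y hy
      obtain ⟨a, ha, rfl⟩ := Finset.mem_image.1 hy
      exact hx1 a (Finset.mem_filter.1 ha).1
    -- the size of `X`
    have hcov : A₀.card ≤ X.card * n.divisors.card := by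
      have h1 : A₀.image (fun z : ℤ => (z : ℚ)) ⊆
          (X ×ˢ n.divisors).image fun y => (y.1 : ℚ) * g r y.2 := by
        intro y hy
        obtain ⟨a, ha, rfl⟩ := Finset.mem_image.1 hy
        obtain ⟨haA, han⟩ := Finset.mem_filter.1 ha
        obtain ⟨d, hd, had⟩ := hx2 a haA
        rw [han] at hd
        refine Finset.mem_image.2 ⟨(x a, d), Finset.mem_product.2 ⟨Finset.mem_image_of_mem _ ha,
          Nat.mem_divisors.2 ⟨hd, hn0⟩⟩, had.symm⟩
      have h2 := (Finset.card_le_card h1).trans Finset.card_image_le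
      rwa [cast_card, Finset.card_product] at h2
    have cX : (0 : ℝ) < X.card := by exact_mod_cast hXn.card_pos
    have cA : (0 : ℝ) < A.card := by exact_mod_cast hA.card_pos
    have cA₀ : (0 : ℝ) < A₀.card := by exact_mod_cast Finset.card_pos.2 ⟨a₁, ha₁⟩
    have cDD : (0 : ℝ) < D.card := by exact_mod_cast hDn.card_pos
    have cD : (0 : ℝ) < n.divisors.card := by
      have : (n.divisors).Nonempty := ⟨1, Nat.one_mem_divisors.2 hn0⟩
      exact_mod_cast this.card_pos
    have hXL : L - (2 * (ε₁ * L) + Real.log 2) ≤ Real.log X.card := by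
      have h1 : Real.log A₀.card ≤ Real.log X.card + wt n := by
        unfold wt
        rw [← Real.log_mul cX.ne' cD.ne']
        exact Real.log_le_log cA₀ (by exact_mod_cast hcov)
      have h2 : s * L ≤ ε₁ * L := mul_le_mul_of_nonneg_right hsε hL0
      have h3 : L ≤ Real.log D.card + Real.log A₀.card := by
        rw [← Real.log_mul cDD.ne' cA₀.ne']
        exact Real.log_le_log cA (by exact_mod_cast hpig)
      have h4 : Real.log D.card ≤ ε₁ * L := by
        rw [← Real.log_exp (ε₁ * L)]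
        exact Real.log_le_log cDD hDc
      linarith
    have hXL' : Real.log X.card ≤ L :=
      Real.log_le_log cX (by exact_mod_cast Finset.card_le_card hXA)
    obtain ⟨l, hl⟩ := h.triQ
    obtain ⟨q, htri⟩ := hl.tri
    set num : ℕ → ℤ := fun p => (r p).num with hnum
    set den : ℕ → ℤ := fun p => ((r p).den : ℤ) with hden
    have hw0 : ev den n ≠ 0 := htri.evb0 hnPi
    have hBw : (dil (ev den n) B).card = B.card := card_dil hw0 B
    have hBn : (dil (ev den n) B).Nonempty := hB.image _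
    have hθS : s / (1 + MM) * (Real.log X.card + Real.log (dil (ev den n) B).card) ≤ wt n := by
      rw [hBw]
      calc s / (1 + MM) * (Real.log X.card + Real.log B.card) ≤ s / (1 + MM) * ((1 + MM) * L) :=
            mul_le_mul_of_nonneg_left (by linarith) (by positivity)
        _ = s * L := by field_simp
        _ ≤ _ := hn1
    have hMS : ((2 * K ^ 2 * κ : ℕ) : ℝ) ≤ 2 * K ^ 2 *
        (1 + η * (Real.log X.card + Real.log (dil (ev den n) B).card)) := by
      rw [hBw]
      push_cast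
      apply mul_le_mul_of_nonneg_left _ (by positivity)
      have h1 : L / 4 ≤ Real.log X.card + Real.log B.card := by nlinarith
      have h2 := mul_le_mul_of_nonneg_left h1 hη.le
      linarith
    obtain ⟨d, hdn, hsum⟩ := hC Pi (2 * K ^ 2 * κ) num den q htri
      (fun P hP hPP => h.step hκ K P hP hPP) n hn0 hnPi X (dil (ev den n) B) hXn hBn hMS hθS
    have hsub : dil (ev num d * ev den (n / d)) X + dil (ev den n) B ⊆
        dil (ev den n) (A + B) := by
      intro y hy
      obtain ⟨y1, hy1, y2, hy2, rfl⟩ := Finset.mem_add.1 hy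
      unfold dil at hy1 hy2 ⊢
      obtain ⟨v, hv, rfl⟩ := Finset.mem_image.1 hy1
      obtain ⟨b, hb, rfl⟩ := Finset.mem_image.1 hy2
      obtain ⟨a, ha, rfl⟩ := Finset.mem_image.1 hv
      obtain ⟨haA, han⟩ := Finset.mem_filter.1 ha
      obtain ⟨z, hz, hz2⟩ := hx3 a haA d (by rw [han]; exact hdn)
      refine Finset.mem_image.2 ⟨z + b, Finset.add_mem_add hz hb, ?_⟩
      rw [mul_add]
      congr 1
      have hd0 : d ≠ 0 := fun h => hn0 (by rw [h] at hdn; exact Nat.eq_zero_of_zero_dvd hdn)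
      obtain ⟨f, hf⟩ := hdn
      have hf0 : f ≠ 0 := fun h => hn0 (by rw [hf, h, mul_zero])
      have h1 : n / d = f := by rw [hf]; exact Nat.mul_div_cancel_left _ (Nat.pos_of_ne_zero hd0)
      rw [h1]
      have h2 : ev den n = ev den d * ev den f := by rw [hf]; exact ev_mul den hd0 hf0
      have hdd0 : (ev den d : ℚ) ≠ 0 := by
        intro h3
        apply hw0
        rw [h2]
        have : ev den d = 0 := by exact_mod_cast h3
        rw [this, zero_mul]
      have h3 : ((ev den n * z : ℤ) : ℚ) = ((ev num d * ev den f * x a : ℤ) : ℚ) := by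
        push_cast
        have h4 : g r d * (ev den d : ℚ) = ev num d := by
          rw [g_eq r d]
          exact div_mul_cancel₀ _ hdd0
        rw [hz2, h2, ← h4]
        push_cast
        ring
      exact_mod_cast h3
    have hge : Real.log ((dil (ev num d * ev den (n / d)) X + dil (ev den n) B).card : ℝ) ≤
        Real.log ((A + B).card : ℝ) := by
      have h1 : (dil (ev num d * ev den (n / d)) X + dil (ev den n) B).Nonempty :=
        (hXn.image _).add hBn
      apply Real.log_le_log (by exact_mod_cast h1.card_pos)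
      have h2 := Finset.card_le_card hsub
      rw [card_dil hw0] at h2
      exact_mod_cast h2
    rw [hBw] at hsum
    have h2 : (1 - ε₁) * (L - (2 * (ε₁ * L) + Real.log 2)) ≤ (1 - ε₁) * Real.log X.card :=
      mul_le_mul_of_nonneg_left hXL (by linarith)
    have h3 := le_max_left C 0
    nlinarith [mul_nonneg hε10.le hL0, mul_nonneg hε10.le hB0,
      mul_nonneg (mul_nonneg hε10.le hε10.le) hL0, mul_nonneg hε10.le hl2.le]
  · push Not at hBM
    have h1 : (1 - ε) * (L + Real.log B.card) ≤ Real.log B.card := by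
      have h2 : L ≤ ε * Real.log B.card := by
        calc L = ε * (MM * L) := by rw [hMM]; field_simp
          _ ≤ _ := mul_le_mul_of_nonneg_left hBM.le hε.le
      nlinarith [mul_nonneg hε.le hL0]
    linarith

end Pool.Agent.H597.SP
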