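import Pool.Agent.H597.SP.Fib

/-!
Sets of integers which are unions of multiplicative translates of a box of high rank: final form.
-/

set_option autoImplicit false

namespace Pool.Agent.H597.SP

open Finset
open Pool.Agent.TH83.DC (wt)
open scoped Pointwise Classical

variable {n : ℕ}

theorem enc_card (e : Fin n → ℕ) : (∏ i, ((e i : ℝ) + 1)) ≤ ((enc e).divisors.card : ℝ) := by
  have h1 : ((Fintype.piFinset fun i => Finset.range (e i + 1)).image enc) ⊆
      (enc e).divisors := by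
    intro d hd
    obtain ⟨f, hf, rfl⟩ := Finset.mem_image.1 hd
    rw [Fintype.mem_piFinset] at hf
    refine Nat.mem_divisors.2 ⟨?_, enc_ne e⟩
    unfold enc
    apply Finset.prod_dvd_prod_of_dvd
    intro i _
    apply pow_dvd_pow
    have := Finset.mem_range.1 (hf i)
    omega
  have h2 : ∏ i, (e i + 1) ≤ (enc e).divisors.card := by
    refine le_trans (le_of_eq ?_) (Finset.card_le_card h1)
    rw [Finset.card_image_of_injective _ enc_inj, Fintype.card_piFinset]
    simp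
  have h3 : ((∏ i, (e i + 1) : ℕ) : ℝ) ≤ ((enc e).divisors.card : ℝ) := by exact_mod_cast h2
  push_cast at h3
  exact h3

/-- the final form -/
theorem fibForm (ε θ τ : ℝ) (hε : 0 < ε) (hθ : 0 < θ) (hτ : 0 < τ) :
    ∃ c η : ℝ, 0 < c ∧ 0 < η ∧ ∀ (n κ : ℕ) (r : Fin n → ℚ) (S : Fin n → Finset ℕ),
      1 ≤ κ → (∀ i, (S i).Nonempty) →
      (∀ i, ∀ l ∈ S i, l.Prime ∧ padicValRat l (r i) ≠ 0 ∧
        ∀ j, j ≠ i → padicValRat l (r j) = 0) →
      (∀ i, (r i).num.natAbs ≤ (∏ l ∈ S i, l) ^ κ ∧ (r i).den ≤ (∏ l ∈ S i, l) ^ κ) →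
      ∀ (ν : Fin n → ℕ) (A : Finset ℤ), A.Nonempty →
      ∏ i, ((ν i : ℝ) + 1) ≤ (A.card : ℝ) ^ τ →
      (κ : ℝ) ≤ 1 + η * Real.log A.card →
      (∀ a ∈ A, ∃ (x : ℚ) (μ : Fin n → ℕ), μ ≤ ν ∧ (A.card : ℝ) ^ θ ≤ ∏ i, ((μ i : ℝ) + 1) ∧
        (∃ f, f ≤ μ ∧ (a : ℚ) = x * ∏ i, r i ^ f i) ∧
        ∀ f, f ≤ μ → ∃ z ∈ A, (z : ℚ) = x * ∏ i, r i ^ f i) →
      ∀ B : Finset ℤ, B.Nonempty →
        c * ((A.card : ℝ) * B.card) ^ (1 - ε) ≤ ((A + B).card : ℝ) := by
  obtain ⟨C, η, hC, hη, h⟩ := fib_log (min ε 1) θ τ (by positivity) (min_le_right _ _) hθ hτ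
  refine ⟨Real.exp (-C), η, Real.exp_pos _, hη, ?_⟩
  intro n κ r S hκ hS1 hS2 hS3 ν A hA hτA hκη hfib B hB
  set Pi : Set ℕ := {p | ∃ i : Fin n, p = np i} with hPi
  have hpriv : Priv Pi κ (ext 0 r) (ext ∅ S) := by
    refine ⟨?_, ?_, ?_, ?_, ?_, ?_, ?_⟩
    · rintro p ⟨i, rfl⟩; exact np_prime i
    · rintro p ⟨i, rfl⟩; rw [ext_np]; exact hS1 i
    · rintro p ⟨i, rfl⟩ l hl; rw [ext_np] at hl; exact (hS2 i l hl).1
    · rintro p ⟨i, rfl⟩ l hl; rw [ext_np] at hl ⊢; exact (hS2 i l hl).2.1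
    · rintro p ⟨i, rfl⟩ x ⟨j, rfl⟩ hne l hl
      rw [ext_np] at hl ⊢
      exact (hS2 i l hl).2.2 j fun h => hne (by rw [h])
    · rintro p ⟨i, rfl⟩; rw [ext_np, ext_np]; exact (hS3 i).1
    · rintro p ⟨i, rfl⟩; rw [ext_np, ext_np]; exact (hS3 i).2
  have cA : (0 : ℝ) < A.card := by exact_mod_cast hA.card_pos
  have cB : (0 : ℝ) < B.card := by exact_mod_cast hB.card_pos
  have cAB : (0 : ℝ) < ((A + B).card : ℝ) := by exact_mod_cast (hA.add hB).card_pos
  have h1 := h Pi κ (ext 0 r) (ext ∅ S) hpriv hκ (enc ν) (enc_ne ν) (fun p hp => enc_pf hp) A B hA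
    hB hκη (by
      unfold wt
      rw [← Real.log_rpow cA]
      exact Real.log_le_log (by
        have : ((enc ν).divisors).Nonempty := ⟨1, Nat.one_mem_divisors.2 (enc_ne ν)⟩
        exact_mod_cast this.card_pos) ((enc_divisors ν).trans hτA)) (by
      intro a ha
      obtain ⟨x, μ, hμν, hθμ, ⟨f, hf, hax⟩, hx⟩ := hfib a ha
      refine ⟨enc μ, ?_, ?_, ?_⟩
      · unfold enc
        apply Finset.prod_dvd_prod_of_dvd
        intro i _
        exact pow_dvd_pow _ (hμν i)
      · unfold wt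
        rw [← Real.log_rpow cA]
        exact Real.log_le_log (by positivity) (hθμ.trans (enc_card μ))
      intro n' hn'
      obtain ⟨ν', hν', rfl⟩ := enc_dvd hn'
      set f' : Fin n → ℕ := fun i => min (f i) (μ i - ν' i) with hf'
      have hf'ν : f' ≤ μ := fun i => (min_le_left _ _).trans (hf i)
      obtain ⟨x', hx'A, hx'⟩ := hx f' hf'ν
      have hadd : ∀ e : Fin n → ℕ, (x' : ℚ) * g (ext 0 r) (enc e) =
          x * ∏ i, r i ^ (f' i + e i) := by
        intro e
        rw [g_enc, hx', mul_assoc, ← Finset.prod_mul_distrib]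
        simp only [pow_add]
      refine ⟨x', hx'A, ⟨enc (fun i => f i - f' i), ?_, ?_⟩, ?_⟩
      · unfold enc
        apply Finset.prod_dvd_prod_of_dvd
        intro i _
        apply pow_dvd_pow
        have h2 : f i ≤ μ i := hf i
        have h3 : ν' i ≤ μ i := hν' i
        simp only [hf']
        omega
      · rw [hadd, hax]
        congr 1
        refine Finset.prod_congr rfl fun i _ => ?_
        congr 1
        simp only [hf']
        omega
      · intro d hd
        obtain ⟨e, he, rfl⟩ := enc_dvd hd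
        obtain ⟨z, hz, hz2⟩ := hx (fun i => f' i + e i) (fun i => by
          have h2 : e i ≤ ν' i := he i
          have h3 : ν' i ≤ μ i := hν' i
          simp only [hf']
          omega)
        exact ⟨z, hz, by rw [hz2, hadd]⟩)
  have h2 : (1 - ε) * (Real.log A.card + Real.log B.card) ≤
      (1 - min ε 1) * (Real.log A.card + Real.log B.card) := by
    apply mul_le_mul_of_nonneg_right
    · have := min_le_left ε 1
      linarith
    · exact add_nonneg (Real.log_natCast_nonneg _) (Real.log_natCast_nonneg _)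
  rw [Real.rpow_def_of_pos (by positivity), ← Real.exp_add, Real.log_mul cA.ne' cB.ne']
  calc Real.exp (-C + (Real.log A.card + Real.log B.card) * (1 - ε)) ≤
        Real.exp (Real.log ((A + B).card : ℝ)) := Real.exp_le_exp.2 (by linarith)
    _ = _ := Real.exp_log cAB

end Pool.Agent.H597.SP
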