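import Pool.Agent.H597.SP.Priv

/-!
Finite sequences of rational numbers with private primes: the translation.
-/

set_option autoImplicit false

namespace Pool.Agent.H597.SP

open Finset
open Pool.Agent.TH83.DC (wt kProd kSum)
open scoped Pointwise Classical

/-- the `i`-th prime -/
noncomputable def np (i : ℕ) : ℕ := Nat.nth Nat.Prime i

theorem np_prime (i : ℕ) : (np i).Prime := Nat.nth_mem_of_infinite Nat.infinite_setOf_prime i

theorem count_np (i : ℕ) : Nat.count Nat.Prime (np i) = i :=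
  Nat.count_nth_of_infinite Nat.infinite_setOf_prime i

theorem np_inj {i j : ℕ} (h : np i = np j) : i = j := by
  rw [← count_np i, h, count_np]

variable {n : ℕ}

/-- the number with the exponents `e` -/
noncomputable def enc (e : Fin n → ℕ) : ℕ := ∏ i : Fin n, np i ^ e i

theorem enc_ne (e : Fin n → ℕ) : enc e ≠ 0 :=
  Finset.prod_ne_zero_iff.2 fun i _ => pow_ne_zero _ (np_prime i).ne_zero

theorem enc_fact (e : Fin n → ℕ) (j : Fin n) : (enc e).factorization (np j) = e j := by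
  unfold enc
  rw [Nat.factorization_prod fun (i : Fin n) _ => pow_ne_zero _ (np_prime (i : ℕ)).ne_zero]
  simp only [Finsupp.finset_sum_apply]
  rw [Finset.sum_eq_single j]
  · rw [(np_prime j).factorization_pow, Finsupp.single_eq_same]
  · intro i _ hij
    rw [(np_prime i).factorization_pow, Finsupp.single_apply, if_neg]
    intro h
    exact hij (Fin.ext (np_inj h))
  · intro h
    exact absurd (Finset.mem_univ j) h

theorem enc_inj : Function.Injective (enc : (Fin n → ℕ) → ℕ) := by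
  intro e f h
  funext i
  rw [← enc_fact e i, h, enc_fact]

theorem enc_pf {e : Fin n → ℕ} {p : ℕ} (hp : p ∈ (enc e).primeFactors) : ∃ i : Fin n, p = np i := by
  have h1 := Nat.prime_of_mem_primeFactors hp
  have h2 := Nat.dvd_of_mem_primeFactors hp
  unfold enc at h2
  obtain ⟨i, _, hi⟩ := (h1.prime.dvd_finset_prod_iff _).1 h2
  exact ⟨i, (Nat.prime_dvd_prime_iff_eq h1 (np_prime i)).1 (h1.dvd_of_dvd_pow hi)⟩

theorem enc_dvd {e : Fin n → ℕ} {d : ℕ} (hd : d ∣ enc e) : ∃ f : Fin n → ℕ, f ≤ e ∧ enc f = d := by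
  have hd0 : d ≠ 0 := fun h => enc_ne e (by rw [h] at hd; exact Nat.eq_zero_of_zero_dvd hd)
  have hle := (Nat.factorization_le_iff_dvd hd0 (enc_ne e)).2 hd
  refine ⟨fun i => d.factorization (np i), fun i => ?_, ?_⟩
  · have := hle (np i)
    rwa [enc_fact] at this
  · apply Nat.eq_of_factorization_eq (enc_ne _) hd0
    intro p
    by_cases hp : ∃ i : Fin n, p = np i
    · obtain ⟨i, rfl⟩ := hp
      rw [enc_fact]
    · have h1 : ∀ f : Fin n → ℕ, (enc f).factorization p = 0 := by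
        intro f
        by_contra h2
        exact hp (enc_pf (Finsupp.mem_support_iff.2 h2))
      have h2 := hle p
      rw [h1] at h2 ⊢
      omega

theorem enc_divisors (e : Fin n → ℕ) : ((enc e).divisors.card : ℝ) ≤ ∏ i, ((e i : ℝ) + 1) := by
  have h1 : (enc e).divisors ⊆
      (Fintype.piFinset fun i => Finset.range (e i + 1)).image enc := by
    intro d hd
    obtain ⟨f, hf, rfl⟩ := enc_dvd (Nat.dvd_of_mem_divisors hd)
    refine Finset.mem_image.2 ⟨f, Fintype.mem_piFinset.2 fun i => ?_, rfl⟩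
    rw [Finset.mem_range]
    exact Nat.lt_succ_of_le (hf i)
  have h2 : (enc e).divisors.card ≤ ∏ i, (e i + 1) := by
    refine (Finset.card_le_card h1).trans (Finset.card_image_le.trans ?_)
    rw [Fintype.card_piFinset]
    simp
  have h3 : ((enc e).divisors.card : ℝ) ≤ ((∏ i, (e i + 1) : ℕ) : ℝ) := by exact_mod_cast h2
  push_cast at h3
  exact h3

theorem g_prime_pow (r : ℕ → ℚ) {p : ℕ} (hp : p.Prime) (e : ℕ) : g r (p ^ e) = r p ^ e := by
  unfold g
  rw [hp.factorization_pow]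
  exact Finsupp.prod_single_index (pow_zero _)

theorem g_prod (r : ℕ → ℚ) {ι : Type*} (s : Finset ι) (f : ι → ℕ) (hf : ∀ i ∈ s, f i ≠ 0) :
    g r (∏ i ∈ s, f i) = ∏ i ∈ s, g r (f i) := by
  induction s using Finset.induction_on with
  | empty => simp [g_one]
  | insert i s hi ih =>
    rw [Finset.prod_insert hi, Finset.prod_insert hi, g_mul r (hf i (Finset.mem_insert_self _ _))
      (Finset.prod_ne_zero_iff.2 fun j hj => hf j (Finset.mem_insert_of_mem hj)),
      ih fun j hj => hf j (Finset.mem_insert_of_mem hj)]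

/-- extension by a constant -/
noncomputable def ext {α : Type*} (x₀ : α) (f : Fin n → α) (p : ℕ) : α :=
  if h : Nat.count Nat.Prime p < n then f ⟨Nat.count Nat.Prime p, h⟩ else x₀

theorem ext_np {α : Type*} (x₀ : α) (f : Fin n → α) (i : Fin n) : ext x₀ f (np i) = f i := by
  unfold ext
  have h : Nat.count Nat.Prime (np i) < n := by rw [count_np]; exact i.2
  rw [dif_pos h]
  congr 1
  exact Fin.ext (count_np i)

theorem g_enc (r : Fin n → ℚ) (e : Fin n → ℕ) : g (ext 0 r) (enc e) = ∏ i, r i ^ e i := by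
  unfold enc
  rw [g_prod _ _ _ fun (i : Fin n) _ => pow_ne_zero _ (np_prime (i : ℕ)).ne_zero]
  refine Finset.prod_congr rfl fun i _ => ?_
  rw [g_prime_pow _ (np_prime i), ext_np]

/-- the final form for finite sequences -/
theorem finForm (k m : ℕ) (hk : 1 ≤ k) (δ ε τ : ℝ) (hδ : 0 < δ) (hε : 0 < ε) (hτ : 0 < τ) :
    ∃ c η : ℝ, 0 < c ∧ 0 < η ∧ ∀ (n κ : ℕ) (r : Fin n → ℚ) (S : Fin n → Finset ℕ),
      1 ≤ κ → (∀ i, (S i).Nonempty) →
      (∀ i, ∀ l ∈ S i, l.Prime ∧ padicValRat l (r i) ≠ 0 ∧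
        ∀ j, j ≠ i → padicValRat l (r j) = 0) →
      (∀ i, (r i).num.natAbs ≤ (∏ l ∈ S i, l) ^ κ ∧ (r i).den ≤ (∏ l ∈ S i, l) ^ κ) →
      ∀ (E : Finset (Fin n → ℕ)) (c₀ : ℚ) (A A' : Finset ℤ), E.Nonempty → c₀ ≠ 0 →
      A.image (fun z : ℤ => (z : ℚ)) = E.image (fun e => c₀ * ∏ i, r i ^ e i) →
      (∀ e ∈ E, ∀ f, f ≤ e → ∃ z ∈ A', (z : ℚ) = c₀ * ∏ i, r i ^ f i) →
      (∀ e ∈ E, ∏ i, ((e i : ℝ) + 1) ≤ (A.card : ℝ) ^ τ) →
      (κ : ℝ) ≤ 1 + η * Real.log A.card →
      (A.card : ℝ) ^ ((k : ℝ) - δ) ≤ ((kProd k A).card : ℝ) ∨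
      ∀ B : Finset ℤ, B.Nonempty →
        c * (A.card : ℝ) ^ ((m : ℝ) - ε) * (B.card : ℝ) ^ (1 - ε) ≤
          ((kSum m A' + B).card : ℝ) := by
  obtain ⟨c, η, K, hc, hη, h⟩ := final k m hk δ ε τ hδ hε hτ
  refine ⟨c, η, hc, hη, ?_⟩
  intro n κ r S hκ hS1 hS2 hS3 E c₀ A A' hE hc₀ hA hA' hdiv hκη
  set Pi : Set ℕ := {p | ∃ i : Fin n, p = np i} with hPi
  have hpriv : Priv Pi κ (ext 0 r) (ext ∅ S) := by
    refine ⟨?_, ?_, ?_, ?_, ?_, ?_, ?_⟩
    · rintro p ⟨i, rfl⟩; exact np_prime i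
    · rintro p ⟨i, rfl⟩; rw [ext_np]; exact hS1 i
    · rintro p ⟨i, rfl⟩ l hl; rw [ext_np] at hl; exact (hS2 i l hl).1
    · rintro p ⟨i, rfl⟩ l hl; rw [ext_np] at hl ⊢; exact (hS2 i l hl).2.1
    · rintro p ⟨i, rfl⟩ x ⟨j, rfl⟩ hne l hl
      rw [ext_np] at hl ⊢
      exact (hS2 i l hl).2.2 j fun h => hne (by rw [h])
    · rintro p ⟨i, rfl⟩; rw [ext_np, ext_np]; exact (hS3 i).1
    · rintro p ⟨i, rfl⟩; rw [ext_np, ext_np]; exact (hS3 i).2
  obtain ⟨l, hl⟩ := hpriv.triQ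
  have hE0 : ∀ x ∈ E.image enc, x ≠ 0 := by
    intro x hx
    obtain ⟨e, _, rfl⟩ := Finset.mem_image.1 hx
    exact enc_ne e
  have hdata : Data Pi (ext 0 r) (E.image enc) c₀ A A' := by
    refine ⟨hE.image _, fun h => hE0 0 h rfl, ?_, hc₀, ?_, ?_⟩
    · intro x hx p hp
      obtain ⟨e, _, rfl⟩ := Finset.mem_image.1 hx
      exact enc_pf hp
    · rw [hA, Finset.image_image]
      refine Finset.image_congr fun e _ => ?_
      simp only [Function.comp, g_enc]
    · rintro d ⟨x, hx, hdx⟩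
      obtain ⟨e, he, rfl⟩ := Finset.mem_image.1 hx
      obtain ⟨f, hf, rfl⟩ := enc_dvd hdx
      obtain ⟨z, hz, hz2⟩ := hA' e he f hf
      exact ⟨z, hz, by rw [hz2, g_enc]⟩
  have hcard := card_eq hl hdata
  have cA : (0 : ℝ) < A.card := by
    rw [hcard]; exact_mod_cast (hE.image enc).card_pos
  apply h Pi (2 * K ^ 2 * κ) (ext 0 r) l hl
    (fun P hP hPP => hpriv.step hκ K P hP hPP) (E.image enc) c₀ A A' hdata
  · intro x hx
    obtain ⟨e, he, rfl⟩ := Finset.mem_image.1 hx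
    unfold wt
    rw [← Real.log_rpow cA]
    apply Real.log_le_log
    · have : ((enc e).divisors).Nonempty := ⟨1, Nat.one_mem_divisors.2 (enc_ne e)⟩
      exact_mod_cast this.card_pos
    · exact (enc_divisors e).trans (hdiv e he)
  · push_cast
    exact mul_le_mul_of_nonneg_left hκη (by positivity)

end Pool.Agent.H597.SP
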