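import Pool.Agent.H597.SP.Small

/-!
Sums with dilates by products of powers of multipliers, with large exponents.
-/

set_option autoImplicit false

namespace Pool.Agent.H597.SP

open Finset
open Pool.Agent.TH83.SQ (cls dil)
open Pool.Agent.TH83.DC (ent jent dil_dil card_dil sum_dil cls_pos gibbs ent_chain cls_cls sum_cls₂
  jent_left jent_right sum_divisors_coprime ent_one ent_mono Sz Sz_nonneg mean_log_cls cls_large
  levels levels_small ent_le)
open scoped Pointwise Classical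

variable {Pi : Set ℕ} {α β : ℕ → ℤ} {q : ℕ → ℕ}

theorem T_nonneg (α β : ℕ → ℤ) (n : ℕ) (X B : Finset ℤ) : 0 ≤ T α β n X B := by
  unfold T
  exact div_nonneg (Finset.sum_nonneg fun d _ => Real.log_natCast_nonneg _) (Nat.cast_nonneg _)

/-- one splitting modulo `p ^ l` -/
theorem T_split {Q : ℕ} (hQ : 2 ≤ Q) {n : ℕ} (hn : n ≠ 0)
    (hcop : ∀ d ∈ n.divisors, IsCoprime (ev α d * ev β (n / d)) (Q : ℤ))
    {m c : ℤ} {i : ℕ} (hm : m = c * (Q : ℤ) ^ i) (hc : IsCoprime c (Q : ℤ))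
    {X B : Finset ℤ} (hX : X.Nonempty) (hB : B.Nonempty) (l : ℕ) (r : ℝ)
    (hr : ∀ (X' : Finset ℤ), X'.Nonempty →
      ent ((Q : ℤ) ^ l) X' = ent ((Q : ℤ) ^ (l - i)) X → r ≤ jent ((Q : ℤ) ^ l) X' B) :
    r + (∑ x ∈ X, ∑ b ∈ B, T α β n (dil m (cls ((Q : ℤ) ^ (l - i)) X x))
      (cls ((Q : ℤ) ^ l) B b)) / (X.card * B.card) ≤ T α β n (dil m X) B := by
  have cX : (0 : ℝ) < X.card := by exact_mod_cast hX.card_pos
  have cB : (0 : ℝ) < B.card := by exact_mod_cast hB.card_pos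
  have hD : (n.divisors).Nonempty := ⟨1, Nat.one_mem_divisors.2 hn⟩
  have cD : (0 : ℝ) < n.divisors.card := by exact_mod_cast hD.card_pos
  have key : ∀ d ∈ n.divisors, r + (∑ x ∈ X, ∑ b ∈ B,
      Real.log ((dil (ev α d * ev β (n / d)) (dil m (cls ((Q : ℤ) ^ (l - i)) X x)) +
        cls ((Q : ℤ) ^ l) B b).card : ℝ)) / (X.card * B.card) ≤
      Real.log ((dil (ev α d * ev β (n / d)) (dil m X) + B).card : ℝ) := by
    intro d hd
    set e : ℤ := ev α d * ev β (n / d) with he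
    have hdc : IsCoprime (e * c) (Q : ℤ) := (hcop d hd).mul_left hc
    have hdp : e * c * (Q : ℤ) ^ i ≠ 0 := coeff_ne hQ hdc i
    have hem : e * m = e * c * (Q : ℤ) ^ i := by rw [hm]; ring
    simp only [dil_dil, hem]
    set X' : Finset ℤ := dil (e * c * (Q : ℤ) ^ i) X with hX'
    have hX'n : X'.Nonempty := hX.image _
    have h1 := gibbs ((Q : ℤ) ^ l) hX'n hB
    have h2 := hr X' hX'n (ent_dil hQ hdc i l X)
    have h3 : (∑ x ∈ X', ∑ b ∈ B, Real.log ((cls ((Q : ℤ) ^ l) X' x +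
        cls ((Q : ℤ) ^ l) B b).card : ℝ)) = ∑ x ∈ X, ∑ b ∈ B,
      Real.log ((dil (e * c * (Q : ℤ) ^ i) (cls ((Q : ℤ) ^ (l - i)) X x) +
        cls ((Q : ℤ) ^ l) B b).card : ℝ) := by
      rw [hX', sum_dil hdp]
      refine Finset.sum_congr rfl fun x _ => Finset.sum_congr rfl fun b _ => ?_
      rw [cls_dil hQ hdc i l X x]
    rw [h3, hX', card_dil hdp] at h1
    linarith
  have h1 := Finset.sum_le_sum key
  rw [Finset.sum_add_distrib, Finset.sum_const, nsmul_eq_mul] at h1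
  unfold T
  rw [le_div_iff₀ cD]
  refine le_trans (le_of_eq ?_) h1
  rw [add_mul]
  congr 1
  · ring
  · rw [← Finset.sum_div, div_mul_eq_mul_div]
    congr 1
    simp only [← Finset.sum_div]
    rw [div_mul_cancel₀ _ cD.ne']
    rw [Finset.sum_comm (s := n.divisors)]
    refine Finset.sum_congr rfl fun x _ => ?_
    rw [Finset.sum_comm]

/-- the mean of `T` over the classes at level `l` -/
noncomputable def EE (α β : ℕ → ℤ) (Q n : ℕ) (X B : Finset ℤ) (m : ℤ) (i l : ℕ) : ℝ :=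
  (∑ x ∈ X, ∑ b ∈ B, T α β n (dil m (cls ((Q : ℤ) ^ (l - i)) X x))
      (cls ((Q : ℤ) ^ l) B b)) / (X.card * B.card)

theorem EE_zero (Q n : ℕ) {X B : Finset ℤ} (hX : X.Nonempty) (hB : B.Nonempty) (m : ℤ) (i : ℕ) :
    EE α β Q n X B m i 0 = T α β n (dil m X) B := by
  have cX : (0 : ℝ) < X.card := by exact_mod_cast hX.card_pos
  have cB : (0 : ℝ) < B.card := by exact_mod_cast hB.card_pos
  have h1 : ∀ (Y : Finset ℤ) (y : ℤ), cls 1 Y y = Y := fun Y y => by
    unfold cls
    exact Finset.filter_true_of_mem fun z _ => one_dvd _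
  unfold EE
  simp only [Nat.zero_sub, pow_zero, h1]
  rw [Finset.sum_const, Finset.sum_const, nsmul_eq_mul, nsmul_eq_mul]
  field_simp

/-- one level -/
theorem EE_step {Q : ℕ} (hQ : 2 ≤ Q) {n : ℕ} (hn : n ≠ 0)
    (hcop : ∀ d ∈ n.divisors, IsCoprime (ev α d * ev β (n / d)) (Q : ℤ))
    {m c : ℤ} {i : ℕ} (hm : m = c * (Q : ℤ) ^ i) (hc : IsCoprime c (Q : ℤ))
    {X B : Finset ℤ} (hX : X.Nonempty) (hB : B.Nonempty) (l : ℕ) {δ C : ℝ}
    (hsmall : ∀ (Q : ℤ) (X B : Finset ℤ), X.Nonempty → B.Nonempty →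
      (1 - δ) * (ent Q X + ent Q B) - C * (ent Q X * ent Q B) ≤ jent Q X B) :
    let DX := ent ((Q : ℤ) ^ (l + 1 - i)) X - ent ((Q : ℤ) ^ (l - i)) X
    let DB := ent ((Q : ℤ) ^ (l + 1)) B - ent ((Q : ℤ) ^ l) B
    (1 - δ) * (DX + DB) - C * (DX * DB) + EE α β Q n X B m i (l + 1) ≤ EE α β Q n X B m i l ∧
      DX + EE α β Q n X B m i (l + 1) ≤ EE α β Q n X B m i l ∧
      DB + EE α β Q n X B m i (l + 1) ≤ EE α β Q n X B m i l := by
  intro DX DB
  have cX : (0 : ℝ) < X.card := by exact_mod_cast hX.card_pos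
  have cB : (0 : ℝ) < B.card := by exact_mod_cast hB.card_pos
  have hdvd : ((Q : ℤ) ^ (l - i)) ∣ (Q : ℤ) ^ (l + 1 - i) := pow_dvd_pow _ (by omega)
  have hdvd' : ((Q : ℤ) ^ l) ∣ (Q : ℤ) ^ (l + 1) := pow_dvd_pow _ (by omega)
  -- the local entropies
  set a : ℤ → ℝ := fun x => ent ((Q : ℤ) ^ (l + 1 - i)) (cls ((Q : ℤ) ^ (l - i)) X x) with ha
  set b' : ℤ → ℝ := fun b => ent ((Q : ℤ) ^ (l + 1)) (cls ((Q : ℤ) ^ l) B b) with hb'
  have hsa : (∑ x ∈ X, a x) / X.card = DX := ent_chain hdvd hX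
  have hsb : (∑ b ∈ B, b' b) / B.card = DB := ent_chain hdvd' hB
  have main : ∀ r : ℤ → ℤ → ℝ, (∀ x ∈ X, ∀ b ∈ B, ∀ (X' : Finset ℤ), X'.Nonempty →
      ent ((Q : ℤ) ^ (l + 1)) X' = a x →
      r x b ≤ jent ((Q : ℤ) ^ (l + 1)) X' (cls ((Q : ℤ) ^ l) B b)) →
      (∑ x ∈ X, ∑ b ∈ B, r x b) / (X.card * B.card) + EE α β Q n X B m i (l + 1) ≤
        EE α β Q n X B m i l := by
    intro r hr
    have h1 : ∀ x ∈ X, ∀ b ∈ B, r x b +
        (∑ x' ∈ cls ((Q : ℤ) ^ (l - i)) X x, ∑ b'' ∈ cls ((Q : ℤ) ^ l) B b,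
          T α β n (dil m (cls ((Q : ℤ) ^ (l + 1 - i)) X x'))
            (cls ((Q : ℤ) ^ (l + 1)) B b'')) /
          ((cls ((Q : ℤ) ^ (l - i)) X x).card * (cls ((Q : ℤ) ^ l) B b).card) ≤
        T α β n (dil m (cls ((Q : ℤ) ^ (l - i)) X x)) (cls ((Q : ℤ) ^ l) B b) := by
      intro x hx b hb
      have h2 := T_split hQ hn hcop hm hc (cls_pos ((Q : ℤ) ^ (l - i)) hx)
        (cls_pos ((Q : ℤ) ^ l) hb) (l + 1) (r x b) (hr x hx b hb)
      have h3 : (∑ x' ∈ cls ((Q : ℤ) ^ (l - i)) X x, ∑ b'' ∈ cls ((Q : ℤ) ^ l) B b,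
          T α β n (dil m (cls ((Q : ℤ) ^ (l + 1 - i)) (cls ((Q : ℤ) ^ (l - i)) X x) x'))
            (cls ((Q : ℤ) ^ (l + 1)) (cls ((Q : ℤ) ^ l) B b) b'')) =
          ∑ x' ∈ cls ((Q : ℤ) ^ (l - i)) X x, ∑ b'' ∈ cls ((Q : ℤ) ^ l) B b,
          T α β n (dil m (cls ((Q : ℤ) ^ (l + 1 - i)) X x'))
            (cls ((Q : ℤ) ^ (l + 1)) B b'') := by
        refine Finset.sum_congr rfl fun x' hx' => Finset.sum_congr rfl fun b'' hb'' => ?_
        rw [cls_cls hdvd hx', cls_cls hdvd' hb'']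
      rw [h3] at h2
      exact h2
    have h2 := Finset.sum_le_sum fun x hx => Finset.sum_le_sum fun b hb => h1 x hx b hb
    simp only [Finset.sum_add_distrib] at h2
    rw [sum_cls₂ ((Q : ℤ) ^ (l - i)) ((Q : ℤ) ^ l) X B fun x' b'' =>
      T α β n (dil m (cls ((Q : ℤ) ^ (l + 1 - i)) X x'))
            (cls ((Q : ℤ) ^ (l + 1)) B b'')] at h2
    unfold EE
    rw [← add_div]
    exact div_le_div_of_nonneg_right h2 (by positivity)
  refine ⟨?_, ?_, ?_⟩
  · have h1 := main (fun x b => (1 - δ) * (a x + b' b) - C * (a x * b' b)) ?_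
    · refine le_trans (le_of_eq ?_) h1
      congr 1
      have h2 : ∑ x ∈ X, ∑ b ∈ B, ((1 - δ) * (a x + b' b) - C * (a x * b' b)) =
          (1 - δ) * ((∑ x ∈ X, a x) * B.card + X.card * ∑ b ∈ B, b' b) -
            C * ((∑ x ∈ X, a x) * ∑ b ∈ B, b' b) := by
        simp only [Finset.sum_sub_distrib, ← Finset.mul_sum, Finset.sum_add_distrib,
          Finset.sum_const, nsmul_eq_mul, ← Finset.sum_mul]
        ring
      rw [h2, ← hsa, ← hsb]
      field_simp
    · intro x hx b hb X' hX' he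
      have h2 := hsmall ((Q : ℤ) ^ (l + 1)) X' (cls ((Q : ℤ) ^ l) B b) hX' (cls_pos _ hb)
      rw [he] at h2
      exact h2
  · have h1 := main (fun x _ => a x) ?_
    · refine le_trans (le_of_eq ?_) h1
      congr 1
      simp only [Finset.sum_const, nsmul_eq_mul, ← Finset.mul_sum]
      rw [← hsa]
      field_simp
    · intro x hx b hb X' hX' he
      have h2 := jent_left ((Q : ℤ) ^ (l + 1)) hX' (cls_pos ((Q : ℤ) ^ l) hb)
      rw [he] at h2
      exact h2
  · have h1 := main (fun _ b => b' b) ?_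
    · refine le_trans (le_of_eq ?_) h1
      congr 1
      simp only [Finset.sum_const, nsmul_eq_mul]
      rw [← hsb]
      field_simp
    · intro x hx b hb X' hX' he
      exact jent_right ((Q : ℤ) ^ (l + 1)) hX' (cls_pos ((Q : ℤ) ^ l) hb)


theorem T_mul {p : ℕ} (hp : p.Prime) {n : ℕ} (hn : n ≠ 0) (hcop : n.Coprime p) (e : ℕ)
    (X B : Finset ℤ) :
    T α β (p ^ e * n) X B =
      (∑ i ∈ Finset.range (e + 1), T α β n (dil (α p ^ i * β p ^ (e - i)) X) B) / (e + 1) := by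
  have hc : (p ^ e).Coprime n := Nat.Coprime.pow_left _ hcop.symm
  unfold T
  rw [sum_divisors_coprime hc fun d =>
      Real.log ((dil (ev α d * ev β (p ^ e * n / d)) X + B).card : ℝ),
    hc.card_divisors_mul, Nat.divisors_prime_pow hp, Finset.card_map, Finset.card_range,
    Finset.sum_map, ← Finset.sum_div, div_div]
  congr 1
  · refine Finset.sum_congr rfl fun i hi => Finset.sum_congr rfl fun d hd => ?_
    rw [dil_dil]
    simp only [Function.Embedding.coeFn_mk]
    have hie : i ≤ e := by have := Finset.mem_range.1 hi; omega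
    obtain ⟨k, rfl⟩ : ∃ k, e = i + k := ⟨e - i, by omega⟩
    have hdn := Nat.dvd_of_mem_divisors hd
    obtain ⟨f, rfl⟩ := hdn
    have hd0 : d ≠ 0 := fun h => hn (by rw [h, zero_mul])
    have hf0 : f ≠ 0 := fun h => hn (by rw [h, mul_zero])
    have hpi : p ^ i ≠ 0 := pow_ne_zero _ hp.ne_zero
    have hpk : p ^ k ≠ 0 := pow_ne_zero _ hp.ne_zero
    have h1 : p ^ (i + k) * (d * f) / (p ^ i * d) = p ^ k * f := by
      rw [pow_add, show p ^ i * p ^ k * (d * f) = (p ^ i * d) * (p ^ k * f) by ring]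
      exact Nat.mul_div_cancel_left _ (Nat.pos_of_ne_zero (mul_ne_zero hpi hd0))
    have h2 : d * f / d = f := Nat.mul_div_cancel_left _ (Nat.pos_of_ne_zero hd0)
    rw [h1, h2, ev_mul α hpi hd0, ev_mul β hpk hf0, ev_prime_pow α hp, ev_prime_pow β hp,
      Nat.add_sub_cancel_left]
    congr 5
    ring
  · push_cast; ring

/-- the first levels -/
theorem EE_tele {Q : ℕ} (hQ : 2 ≤ Q) {n : ℕ} (hn : n ≠ 0)
    (hcop : ∀ d ∈ n.divisors, IsCoprime (ev α d * ev β (n / d)) (Q : ℤ))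
    {m c : ℤ} {i : ℕ} (hm : m = c * (Q : ℤ) ^ i) (hc : IsCoprime c (Q : ℤ))
    {X B : Finset ℤ} (hX : X.Nonempty) (hB : B.Nonempty) {δ C : ℝ}
    (hsmall : ∀ (Q : ℤ) (X B : Finset ℤ), X.Nonempty → B.Nonempty →
      (1 - δ) * (ent Q X + ent Q B) - C * (ent Q X * ent Q B) ≤ jent Q X B) (L : ℕ) :
    (1 - δ) * (ent ((Q : ℤ) ^ (L - i)) X + ent ((Q : ℤ) ^ L) B) -
      C * (∑ l ∈ Finset.range L, (ent ((Q : ℤ) ^ (l + 1 - i)) X - ent ((Q : ℤ) ^ (l - i)) X) *
        (ent ((Q : ℤ) ^ (l + 1)) B - ent ((Q : ℤ) ^ l) B)) + EE α β Q n X B m i L ≤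
      T α β n (dil m X) B := by
  induction L with
  | zero =>
    rw [EE_zero Q n hX hB m i, Nat.zero_sub, pow_zero, ent_one, ent_one]
    simp
  | succ L ih =>
    have h1 := (EE_step hQ hn hcop hm hc hX hB L hsmall).1
    rw [Finset.sum_range_succ]
    linarith

/-- all the levels, with another bound at the last one -/
theorem EE_last {Q : ℕ} (hQ : 2 ≤ Q) {n : ℕ} (hn : n ≠ 0)
    (hcop : ∀ d ∈ n.divisors, IsCoprime (ev α d * ev β (n / d)) (Q : ℤ))
    {m c : ℤ} {i : ℕ} (hm : m = c * (Q : ℤ) ^ i) (hc : IsCoprime c (Q : ℤ))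
    {X B : Finset ℤ} (hX : X.Nonempty) (hB : B.Nonempty) {δ C : ℝ} (hδ : 0 ≤ δ)
    (hsmall : ∀ (Q : ℤ) (X B : Finset ℤ), X.Nonempty → B.Nonempty →
      (1 - δ) * (ent Q X + ent Q B) - C * (ent Q X * ent Q B) ≤ jent Q X B) (L : ℕ) (hL : 1 ≤ L) :
    (1 - δ) * (ent ((Q : ℤ) ^ (L - i)) X + ent ((Q : ℤ) ^ L) B) -
      (C * (∑ l ∈ Finset.range (L - 1),
        (ent ((Q : ℤ) ^ (l + 1 - i)) X - ent ((Q : ℤ) ^ (l - i)) X) *
        (ent ((Q : ℤ) ^ (l + 1)) B - ent ((Q : ℤ) ^ l) B)) +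
        min (ent ((Q : ℤ) ^ (L - i)) X - ent ((Q : ℤ) ^ (L - 1 - i)) X)
          (ent ((Q : ℤ) ^ L) B - ent ((Q : ℤ) ^ (L - 1)) B)) + EE α β Q n X B m i L ≤
      T α β n (dil m X) B := by
  obtain ⟨M, rfl⟩ : ∃ M, L = M + 1 := ⟨L - 1, by omega⟩
  have h0 := EE_tele hQ hn hcop hm hc hX hB hsmall M
  obtain ⟨-, h1, h2⟩ := EE_step hQ hn hcop hm hc hX hB M hsmall
  rw [Nat.add_sub_cancel]
  set a := ent ((Q : ℤ) ^ (M + 1 - i)) X
  set a' := ent ((Q : ℤ) ^ (M - i)) X
  set b := ent ((Q : ℤ) ^ (M + 1)) B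
  set b' := ent ((Q : ℤ) ^ M) B
  have ha : a' ≤ a := ent_mono (pow_dvd_pow _ (by omega)) X
  have hb : b' ≤ b := ent_mono (pow_dvd_pow _ (by omega)) B
  have h3 : a - a' + (b - b') - min (a - a') (b - b') + EE α β Q n X B m i (M + 1) ≤
      EE α β Q n X B m i M := by
    rcases min_choice (a - a') (b - b') with h | h <;> rw [h] <;> linarith
  have h4 : 0 ≤ δ * (a - a' + (b - b')) := mul_nonneg hδ (by linarith)
  linarith

/-- the mean over the classes, by the induction hypothesis -/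
theorem EE_lower {Q : ℕ} {n : ℕ} {m : ℤ} (hm0 : m ≠ 0) {X B : Finset ℤ} (hX : X.Nonempty)
    (hB : B.Nonempty) (i L : ℕ) {a G : ℝ} (hG : 0 < G)
    (ih : ∀ X B : Finset ℤ, X.Nonempty → B.Nonempty →
      a * Sz X B - Sz X B ^ 2 / G ≤ T α β n X B) :
    (a - Sz X B / G) * (Sz X B - (ent ((Q : ℤ) ^ (L - i)) X + ent ((Q : ℤ) ^ L) B)) ≤
      EE α β Q n X B m i L := by
  have cX : (0 : ℝ) < X.card := by exact_mod_cast hX.card_pos
  have cB : (0 : ℝ) < B.card := by exact_mod_cast hB.card_pos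
  set f : ℤ → ℝ := fun x => Real.log ((cls ((Q : ℤ) ^ (L - i)) X x).card : ℝ) with hf
  set g : ℤ → ℝ := fun b => Real.log ((cls ((Q : ℤ) ^ L) B b).card : ℝ) with hg
  have h1 : ∀ x ∈ X, ∀ b ∈ B, (a - Sz X B / G) * (f x + g b) ≤
      T α β n (dil m (cls ((Q : ℤ) ^ (L - i)) X x)) (cls ((Q : ℤ) ^ L) B b) := by
    intro x hx b hb
    have hn1 := cls_pos ((Q : ℤ) ^ (L - i)) hx
    have hn2 := cls_pos ((Q : ℤ) ^ L) hb
    have h2 := ih (dil m (cls ((Q : ℤ) ^ (L - i)) X x)) (cls ((Q : ℤ) ^ L) B b)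
      (hn1.image _) hn2
    have h3 : Sz (dil m (cls ((Q : ℤ) ^ (L - i)) X x)) (cls ((Q : ℤ) ^ L) B b) =
        f x + g b := by
      unfold Sz
      rw [card_dil hm0]
    rw [h3] at h2
    refine le_trans ?_ h2
    have h4 : f x + g b ≤ Sz X B := by
      unfold Sz
      apply add_le_add
      · exact Real.log_le_log (by exact_mod_cast hn1.card_pos)
          (by exact_mod_cast Finset.card_le_card (Finset.filter_subset _ _))
      · exact Real.log_le_log (by exact_mod_cast hn2.card_pos)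
          (by exact_mod_cast Finset.card_le_card (Finset.filter_subset _ _))
    have h5 : 0 ≤ f x + g b :=
      add_nonneg (Real.log_natCast_nonneg _) (Real.log_natCast_nonneg _)
    have h6 : (f x + g b) ^ 2 / G ≤ Sz X B / G * (f x + g b) := by
      rw [div_mul_eq_mul_div]
      apply div_le_div_of_nonneg_right _ hG.le
      nlinarith
    rw [sub_mul]
    linarith
  have h2 := Finset.sum_le_sum fun x hx => Finset.sum_le_sum fun b hb => h1 x hx b hb
  have h3 : ∑ x ∈ X, ∑ b ∈ B, (a - Sz X B / G) * (f x + g b) =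
      (a - Sz X B / G) * ((∑ x ∈ X, f x) * B.card + X.card * ∑ b ∈ B, g b) := by
    simp only [← Finset.mul_sum, Finset.sum_add_distrib, Finset.sum_const, nsmul_eq_mul,
      ← Finset.sum_mul]
    ring
  have h4 : Sz X B - (ent ((Q : ℤ) ^ (L - i)) X + ent ((Q : ℤ) ^ L) B) =
      ((∑ x ∈ X, f x) * B.card + X.card * ∑ b ∈ B, g b) / (X.card * B.card) := by
    have e1 := mean_log_cls ((Q : ℤ) ^ (L - i)) hX
    have e2 := mean_log_cls ((Q : ℤ) ^ L) hB
    unfold Sz
    rw [add_div, mul_div_mul_right _ _ cB.ne', mul_div_mul_left _ _ cX.ne', e1, e2]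
    ring
  rw [h4, ← mul_div_assoc, ← h3]
  unfold EE
  exact div_le_div_of_nonneg_right h2 (by positivity)

theorem ent_large {Q : ℕ} (hQ : 2 ≤ Q) (X : Finset ℤ) :
    ∃ J₀ : ℕ, ∀ J, J₀ ≤ J → ent ((Q : ℤ) ^ J) X = Real.log X.card := by
  obtain ⟨J₀, h⟩ := cls_large hQ X
  refine ⟨J₀, fun J hJ => ?_⟩
  unfold ent
  rcases X.eq_empty_or_nonempty with rfl | hX
  · simp
  have cX : (0 : ℝ) < X.card := by exact_mod_cast hX.card_pos
  rw [Finset.sum_congr rfl fun x hx => by rw [h J hJ x hx, Finset.card_singleton, Nat.cast_one,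
    div_one], Finset.sum_const, nsmul_eq_mul]
  field_simp

/-- one prime, small sets -/
theorem T_small {Q : ℕ} (hQ : 2 ≤ Q) {n : ℕ} (hn : n ≠ 0)
    (hcop : ∀ d ∈ n.divisors, IsCoprime (ev α d * ev β (n / d)) (Q : ℤ))
    {X B : Finset ℤ} (hX : X.Nonempty) (hB : B.Nonempty) (e : ℕ) {δ C : ℝ} (hC : 0 ≤ C)
    (hsmall : ∀ (Q : ℤ) (X B : Finset ℤ), X.Nonempty → B.Nonempty →
      (1 - δ) * (ent Q X + ent Q B) - C * (ent Q X * ent Q B) ≤ jent Q X B)
    {m c : ℕ → ℤ} (hm : ∀ i ≤ e, m i = c i * (Q : ℤ) ^ i) (hc : ∀ i ≤ e, IsCoprime (c i) (Q : ℤ))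
    {τ : ℝ} (hτ : τ = (∑ i ∈ Finset.range (e + 1), T α β n (dil (m i) X) B) / (e + 1)) :
    (1 - δ) * Sz X B - C * (Real.log X.card * Real.log B.card) / (e + 1) ≤ τ := by
  obtain ⟨J₁, h1⟩ := ent_large hQ X
  obtain ⟨J₂, h2⟩ := ent_large hQ B
  set M : ℕ := J₁ + J₂ + e + 1 with hM
  have hEE : ∀ i, 0 ≤ EE α β Q n X B (m i) i M := fun i => by
    unfold EE
    exact div_nonneg (Finset.sum_nonneg fun x _ => Finset.sum_nonneg fun b _ => T_nonneg _ _ _ _ _)
      (by positivity)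
  have h3 : ∀ i ∈ Finset.range (e + 1), (1 - δ) * Sz X B - C * (∑ l ∈ Finset.range M,
      (ent ((Q : ℤ) ^ (l + 1 - i)) X - ent ((Q : ℤ) ^ (l - i)) X) *
        (ent ((Q : ℤ) ^ (l + 1)) B - ent ((Q : ℤ) ^ l) B)) ≤ T α β n (dil (m i) X) B := by
    intro i hi
    rw [Finset.mem_range] at hi
    have h4 := EE_tele hQ hn hcop (hm i (by omega)) (hc i (by omega)) hX hB hsmall M
    rw [h1 (M - i) (by omega), h2 M (by omega)] at h4
    have := hEE i
    unfold Sz
    linarith
  have h4 := Finset.sum_le_sum h3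
  rw [Finset.sum_sub_distrib, Finset.sum_const, Finset.card_range, nsmul_eq_mul,
    ← Finset.mul_sum] at h4
  have h5 := levels_small (fun l => ent ((Q : ℤ) ^ l) X) (fun l => ent ((Q : ℤ) ^ l) B)
    (fun a b hab => ent_mono (pow_dvd_pow _ hab) X)
    (fun a b hab => ent_mono (pow_dvd_pow _ hab) B)
    (by simp only [pow_zero]; exact ent_one X) (by simp only [pow_zero]; exact ent_one B)
    (Real.log X.card) (Real.log B.card) (fun l => ent_le _ _) (fun l => ent_le _ _) e M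
  have h6 := mul_le_mul_of_nonneg_left h5 hC
  rw [hτ, le_div_iff₀ (by positivity), sub_mul, div_mul_cancel₀ _ (by positivity)]
  push_cast at h4
  linarith

/-- the induction over the primes -/
theorem T_ge (h : Tri Pi α β q) {δ C : ℝ} (hδ : 0 < δ) (hC : 0 < C)
    (hsmall : ∀ (Q : ℤ) (X B : Finset ℤ), X.Nonempty → B.Nonempty →
      (1 - δ) * (ent Q X + ent Q B) - C * (ent Q X * ent Q B) ≤ jent Q X B)
    (E₁ : ℕ) (hE₁ : 2 ≤ δ * E₁) (e : ℕ → ℕ) :
    ∀ P : Finset ℕ, (∀ p ∈ P, p ∈ Pi ∧ E₁ ≤ e p) → ∀ X B : Finset ℤ, X.Nonempty → B.Nonempty →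
      (1 - 3 * δ) * Sz X B * (δ / (2 * C) * ∑ p ∈ P, (e p : ℝ)) - Sz X B ^ 2 ≤
        (δ / (2 * C) * ∑ p ∈ P, (e p : ℝ)) * T α β (∏ p ∈ P, p ^ e p) X B := by
  intro P
  induction P using Finset.induction_on_max with
  | empty =>
    intro _ X B _ _
    simp only [Finset.sum_empty, mul_zero, zero_mul, zero_sub]
    nlinarith [sq_nonneg (Sz X B)]
  | insert p P hmax ih =>
    intro hP X B hX hB
    have hpP : p ∉ P := fun h => lt_irrefl _ (hmax p h)
    obtain ⟨hpPi, hep⟩ := hP p (Finset.mem_insert_self _ _)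
    have hp := h.prime p hpPi
    have hQ := h.two p hpPi
    have hP' : ∀ x ∈ P, x ∈ Pi ∧ E₁ ≤ e x := fun x hx => hP x (Finset.mem_insert_of_mem hx)
    rw [Finset.sum_insert hpP, Finset.prod_insert hpP]
    set n : ℕ := ∏ q ∈ P, q ^ e q with hn
    have hn0 : n ≠ 0 := Finset.prod_ne_zero_iff.2 fun x hx =>
      pow_ne_zero _ (h.prime x (hP' x hx).1).ne_zero
    have hcop' : n.Coprime p := by
      apply Nat.Coprime.prod_left
      intro x hx
      apply Nat.Coprime.pow_left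
      rw [Nat.coprime_primes (h.prime x (hP' x hx).1) hp]
      rintro rfl
      exact hpP hx
    have hnP : ∀ x ∈ n.primeFactors, x ∈ P := by
      intro x hx
      have hx1 := Nat.prime_of_mem_primeFactors hx
      have hx2 := Nat.dvd_of_mem_primeFactors hx
      rw [hn] at hx2
      obtain ⟨y, hy, hxy⟩ := (hx1.prime.dvd_finset_prod_iff _).1 hx2
      have := (Nat.prime_dvd_prime_iff_eq hx1 (h.prime y (hP' y hy).1)).1 (hx1.dvd_of_dvd_pow hxy)
      rw [this]; exact hy
    have hcop : ∀ d ∈ n.divisors, IsCoprime (ev α d * ev β (n / d)) (q p : ℤ) := by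
      intro d hd
      have hdn := Nat.dvd_of_mem_divisors hd
      have h1 : ∀ f, f ∣ n → ∀ x ∈ f.primeFactors, x ∈ Pi ∧ x < p := by
        intro f hf x hx
        have hx' := hnP x (Nat.primeFactors_mono hf hn0 hx)
        exact ⟨(hP' x hx').1, hmax x hx'⟩
      exact ((h.ev_cop hpPi (h1 d hdn)).1).mul_left ((h.ev_cop hpPi
        (h1 _ (Nat.div_dvd_of_dvd hdn))).2)
    obtain ⟨m, c', hm, hc', hTm⟩ : ∃ m c' : ℕ → ℤ, (∀ i ≤ e p, m i = c' i * (q p : ℤ) ^ i) ∧
        (∀ i ≤ e p, IsCoprime (c' i) (q p : ℤ)) ∧ T α β (p ^ e p * n) X B =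
          (∑ i ∈ Finset.range (e p + 1), T α β n (dil (m i) X) B) / (e p + 1) := by
      obtain ⟨t, w, v, htq, hv, hw, hor⟩ := h.div p hpPi
      refine ⟨fun i => t ^ i * w ^ (e p - i), fun i => v ^ i * w ^ (e p - i), ?_, ?_, ?_⟩
      · intro i _
        rw [htq]; ring
      · intro i _
        exact (hv.pow_left).mul_left (hw.pow_left)
      · rw [T_mul hp hn0 hcop']
        rcases hor with ⟨h1, h2⟩ | ⟨h1, h2⟩
        · rw [h1, h2]
        · rw [h1, h2]
          congr 1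
          rw [← Finset.sum_range_reflect]
          refine Finset.sum_congr rfl fun i hi => ?_
          have hi' : i ≤ e p := by have := Finset.mem_range.1 hi; omega
          rw [show e p + 1 - 1 - i = e p - i by omega, show e p - (e p - i) = i by omega,
            mul_comm]
    have hT0' : 0 ≤ T α β (p ^ e p * n) X B := T_nonneg _ _ _ _ _
    set τ₀ : ℝ := T α β (p ^ e p * n) X B with hτ₀
    set c : ℝ := δ / (2 * C) with hc
    have hc0 : 0 < c := by positivity
    set G : ℝ := c * ∑ q ∈ P, (e q : ℝ) with hG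
    have hG0 : 0 ≤ G := mul_nonneg hc0.le (Finset.sum_nonneg fun q _ => Nat.cast_nonneg _)
    set S : ℝ := Sz X B with hS
    have hS0 : 0 ≤ S := Sz_nonneg X B
    have hlX : 0 ≤ Real.log X.card := Real.log_natCast_nonneg _
    have hlB : 0 ≤ Real.log B.card := Real.log_natCast_nonneg _
    have hSe : S = Real.log X.card + Real.log B.card := rfl
    have heR : (E₁ : ℝ) ≤ e p := by exact_mod_cast hep
    have hδe : 2 ≤ δ * e p := hE₁.trans (mul_le_mul_of_nonneg_left heR hδ.le)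
    have he0 : (0 : ℝ) < e p := by
      by_contra hcon
      push Not at hcon
      have : δ * (e p : ℝ) ≤ 0 := mul_nonpos_of_nonneg_of_nonpos hδ.le hcon
      linarith
    set g' : ℝ := c * e p with hg'
    have hg'0 : 0 < g' := by positivity
    have hT0 : 0 ≤ τ₀ := hT0'
    have hsum : c * ((e p : ℝ) + ∑ q ∈ P, (e q : ℝ)) = g' + G := by rw [hG, hg']; ring
    rw [hsum]
    have hCg : C * (2 * g') = δ * e p := by rw [hg', hc]; field_simp
    -- large sum: nothing to prove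
    by_cases hbig : g' + G ≤ S
    · have h1 : (1 - 3 * δ) * S * (g' + G) ≤ S ^ 2 := by
        have h2 : (1 - 3 * δ) * S * (g' + G) ≤ 1 * S * (g' + G) := by
          apply mul_le_mul_of_nonneg_right _ (by linarith)
          apply mul_le_mul_of_nonneg_right _ hS0
          linarith
        nlinarith
      have h2 : 0 ≤ (g' + G) * τ₀ := mul_nonneg (by linarith) hT0
      linarith
    push Not at hbig
    -- small sets
    by_cases hsm : Real.log X.card ≤ 2 * g' ∧ Real.log B.card ≤ 2 * g'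
    · have h1 := T_small hQ hn0 hcop hX hB (e p) hC.le hsmall hm hc' hTm
      have h2 : C * (Real.log X.card * Real.log B.card) / (e p + 1) ≤ δ * S := by
        rw [div_le_iff₀ (by positivity)]
        calc C * (Real.log X.card * Real.log B.card) ≤ C * (2 * g' * Real.log B.card) := by
              apply mul_le_mul_of_nonneg_left _ hC.le
              exact mul_le_mul_of_nonneg_right hsm.1 hlB
          _ = δ * e p * Real.log B.card := by rw [← mul_assoc, hCg]
          _ ≤ δ * e p * S := mul_le_mul_of_nonneg_left (by linarith) (by positivity)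
          _ ≤ δ * S * (e p + 1) := by nlinarith [mul_nonneg hδ.le hS0]
      have h3 : (1 - 3 * δ) * S ≤ τ₀ := by
        have h4 : (0 : ℝ) ≤ δ * S := mul_nonneg hδ.le hS0
        rw [← hS] at h1
        linarith
      have h4 := mul_le_mul_of_nonneg_left h3 (by linarith : 0 ≤ g' + G)
      nlinarith [sq_nonneg S]
    -- general case
    have hS2 : 2 * g' < S := by
      rw [not_and_or] at hsm
      rcases hsm with h | h
      · push Not at h; linarith
      · push Not at h; linarith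
    have hGpos : 0 < G := by linarith
    have ih' : ∀ X B : Finset ℤ, X.Nonempty → B.Nonempty →
        (1 - 3 * δ) * Sz X B - Sz X B ^ 2 / G ≤ T α β n X B := by
      intro X' B' hX' hB'
      have h1 := ih hP' X' B' hX' hB'
      have h2 : ((1 - 3 * δ) * Sz X' B' - Sz X' B' ^ 2 / G) * G ≤ T α β n X' B' * G := by
        rw [sub_mul, div_mul_cancel₀ _ hGpos.ne']
        linarith
      exact le_of_mul_le_mul_right h2 hGpos
    set HX : ℕ → ℝ := fun l => ent ((q p : ℤ) ^ l) X with hHX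
    set HB : ℕ → ℝ := fun l => ent ((q p : ℤ) ^ l) B with hHB
    have hmX : Monotone HX := fun a b hab => ent_mono (pow_dvd_pow _ hab) X
    have hmB : Monotone HB := fun a b hab => ent_mono (pow_dvd_pow _ hab) B
    have hX0 : HX 0 = 0 := by rw [hHX]; simp only [pow_zero]; exact ent_one X
    have hB0 : HB 0 = 0 := by rw [hHB]; simp only [pow_zero]; exact ent_one B
    have hex : (∃ l, 2 * g' < HX l) ∨ ∃ l, 2 * g' < HB l := by
      rw [not_and_or] at hsm
      rcases hsm with h | h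
      · push Not at h
        obtain ⟨J, hJ⟩ := ent_large hQ X
        exact Or.inl ⟨J, by rw [hHX]; simp only [hJ J le_rfl]; exact h⟩
      · push Not at h
        obtain ⟨J, hJ⟩ := ent_large hQ B
        exact Or.inr ⟨J, by rw [hHB]; simp only [hJ J le_rfl]; exact h⟩
    obtain ⟨L, F, hF, hFc, hL, hloss⟩ := levels HX HB hmX hmB hX0 hB0 (2 * g') C (by positivity)
      hC.le (e p) hex
    set base : ℝ := (1 - 3 * δ) * S - S ^ 2 / G with hbase
    -- every shift
    have hm0 : ∀ i ≤ e p, m i ≠ 0 := by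
      intro i hi
      rw [hm i hi]
      exact coeff_ne hQ (hc' i hi) i
    have hall : ∀ i ≤ e p, base ≤ T α β n (dil (m i) X) B := by
      intro i hi
      have h1 := ih' (dil (m i) X) B (hX.image _) hB
      have h2 : Sz (dil (m i) X) B = S := by
        rw [hS]; unfold Sz; rw [card_dil (hm0 i hi)]
      rw [h2] at h1
      exact h1
    -- the good shifts
    set loss : ℕ → ℝ := fun i => C * ∑ l ∈ Finset.range (L i - 1),
        (HX (l + 1 - i) - HX (l - i)) * (HB (l + 1) - HB l) +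
        min (HX (L i - i) - HX (L i - 1 - i)) (HB (L i) - HB (L i - 1)) with hlossdef
    have hgood : ∀ i ∈ F, base + (2 * δ + S / G) * (2 * g') - loss i ≤
        T α β n (dil (m i) X) B := by
      intro i hi
      obtain ⟨hL1, hL2⟩ := hL i hi
      have hie : i ≤ e p := by have := Finset.mem_range.1 (hF hi); omega
      have h1 := EE_last hQ hn0 hcop (hm i hie) (hc' i hie) hX hB hδ.le hsmall (L i) hL1
      have h2 := EE_lower (Q := q p) (hm0 i hie) hX hB i (L i) hGpos ih'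
      have h3 : (0 : ℝ) ≤ 2 * δ + S / G := by positivity
      have h4 := mul_le_mul_of_nonneg_left hL2 h3
      have h5 : ((1 - 3 * δ) - S / G) * (S - (HX (L i - i) + HB (L i))) ≤
          EE α β (q p) n X B (m i) i (L i) := h2
      have h6 : (1 - δ) * (HX (L i - i) + HB (L i)) - loss i + EE α β (q p) n X B (m i) i (L i) ≤
          T α β n (dil (m i) X) B := h1
      have h7 : base = ((1 - 3 * δ) - S / G) * S := by rw [hbase]; ring
      rw [h7]
      linarith
    have hsum1 : ∑ i ∈ Finset.range (e p + 1), T α β n (dil (m i) X) B ≥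
        (e p + 1) * base + e p * ((2 * δ + S / G) * (2 * g')) - (C * (2 * g') ^ 2 + 2 * (2 * g'))
        := by
      have h1 : ∑ i ∈ Finset.range (e p + 1), T α β n (dil (m i) X) B =
          ∑ i ∈ F, T α β n (dil (m i) X) B +
            ∑ i ∈ Finset.range (e p + 1) \ F, T α β n (dil (m i) X) B := by
        have := Finset.sum_sdiff (f := fun i => T α β n (dil (m i) X) B) hF
        linarith
      have h2 := Finset.sum_le_sum hgood
      have h3 : ∑ i ∈ Finset.range (e p + 1) \ F, base ≤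
          ∑ i ∈ Finset.range (e p + 1) \ F, T α β n (dil (m i) X) B :=
        Finset.sum_le_sum fun i hi => hall i (by
          have := Finset.mem_range.1 (Finset.mem_sdiff.1 hi).1
          omega)
      rw [Finset.sum_const, nsmul_eq_mul, Finset.card_sdiff_of_subset hF, Finset.card_range,
        Nat.cast_sub (by simpa using Finset.card_le_card hF)] at h3
      rw [Finset.sum_sub_distrib, Finset.sum_const, nsmul_eq_mul] at h2
      push_cast at h3
      have h4 : (e p : ℝ) * ((2 * δ + S / G) * (2 * g')) ≤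
          F.card * ((2 * δ + S / G) * (2 * g')) :=
        mul_le_mul_of_nonneg_right (by exact_mod_cast hFc) (by positivity)
      rw [h1]
      nlinarith
    -- conclusion
    have hTn : τ₀ * (e p + 1) =
        ∑ i ∈ Finset.range (e p + 1), T α β n (dil (m i) X) B := by
      rw [hTm, div_mul_cancel₀ _ (by positivity)]
    have hfin : base + S * g' / G ≤ τ₀ := by
      have h1 : C * (2 * g') ^ 2 + 2 * (2 * g') ≤ e p * (2 * δ * (2 * g')) := by
        have h2 : C * (2 * g') ^ 2 = δ * e p * (2 * g') := by rw [← hCg]; ring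
        rw [h2]
        nlinarith
      have h2 : (e p + 1) * base + e p * (S / G * (2 * g')) ≤
          τ₀ * (e p + 1) := by
        rw [hTn]
        nlinarith
      have h3 : (base + S * g' / G) * (e p + 1) ≤ τ₀ * (e p + 1) := by
        refine le_trans ?_ h2
        have h4 : S * g' / G * (e p + 1) ≤ e p * (S / G * (2 * g')) := by
          have h5 : (0 : ℝ) ≤ S / G * g' := by positivity
          have h6 : (1 : ℝ) ≤ e p := by
            have : 0 < e p := by exact_mod_cast he0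
            exact_mod_cast this
          have h7 : S * g' / G = S / G * g' := by ring
          rw [h7]
          nlinarith
        linarith
      exact le_of_mul_le_mul_right h3 (by positivity)
    have hpot : (1 - 3 * δ) * S * (g' + G) - S ^ 2 ≤ (g' + G) * (base + S * g' / G) := by
      have h1 : (g' + G) * (base + S * g' / G) =
          (1 - 3 * δ) * S * (g' + G) - S ^ 2 + S * g' / G * (g' + G - S) := by
        rw [hbase]
        field_simp
        ring
      have h2 : 0 ≤ S * g' / G * (g' + G - S) := mul_nonneg (by positivity) (by linarith)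
      linarith
    exact hpot.trans (mul_le_mul_of_nonneg_left hfin (by linarith))



end Pool.Agent.H597.SP
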