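import Pool.Agent.H597.SP.Asm

/-!
Systems of rational numbers with private primes: some private prime has a small number of other
members of small multiplicative order.
-/

set_option autoImplicit false

namespace Pool.Agent.H597.SP

open Finset
open scoped Pointwise Classical

/-- rational numbers with private primes, whose product is not small compared with the height -/
structure Priv (Pi : Set ℕ) (κ : ℕ) (r : ℕ → ℚ) (S : ℕ → Finset ℕ) : Prop where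
  prime : ∀ p ∈ Pi, p.Prime
  ne : ∀ p ∈ Pi, (S p).Nonempty
  sprime : ∀ p ∈ Pi, ∀ l ∈ S p, l.Prime
  val : ∀ p ∈ Pi, ∀ l ∈ S p, padicValRat l (r p) ≠ 0
  zero : ∀ p ∈ Pi, ∀ x ∈ Pi, x ≠ p → ∀ l ∈ S p, padicValRat l (r x) = 0
  num : ∀ p ∈ Pi, (r p).num.natAbs ≤ (∏ l ∈ S p, l) ^ κ
  den : ∀ p ∈ Pi, (r p).den ≤ (∏ l ∈ S p, l) ^ κ

variable {Pi : Set ℕ} {κ : ℕ} {r : ℕ → ℚ} {S : ℕ → Finset ℕ}

theorem Priv.triQ (h : Priv Pi κ r S) : ∃ l : ℕ → ℕ, TriQ Pi r l := by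
  have h1 : ∀ p, p ∈ Pi → ∃ l, l ∈ S p := fun p hp => h.ne p hp
  choose! l hl using h1
  exact ⟨l, h.prime, fun p hp => h.sprime p hp _ (hl p hp), fun p hp => h.val p hp _ (hl p hp),
    fun p hp x hx hxp => h.zero p hp x hx hxp.ne _ (hl p hp)⟩

theorem Priv.R2 (h : Priv Pi κ r S) {p : ℕ} (hp : p ∈ Pi) : 2 ≤ ∏ l ∈ S p, l := by
  obtain ⟨l, hl⟩ := h.ne p hp
  have h1 : l ∣ ∏ l ∈ S p, l := Finset.dvd_prod_of_mem _ hl
  have h2 : 0 < ∏ l ∈ S p, l := Finset.prod_pos fun x hx => (h.sprime p hp x hx).pos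
  exact (h.sprime p hp l hl).two_le.trans (Nat.le_of_dvd h2 h1)

theorem Priv.r0 (h : Priv Pi κ r S) {p : ℕ} (hp : p ∈ Pi) : r p ≠ 0 := by
  obtain ⟨l, hl⟩ := h.ne p hp
  intro h0
  apply h.val p hp l hl
  rw [h0, padicValRat.zero]

theorem Priv.pow_ne (h : Priv Pi κ r S) {p : ℕ} (hp : p ∈ Pi) {j : ℕ} (hj : 1 ≤ j) :
    (r p).num ^ j - ((r p).den : ℤ) ^ j ≠ 0 := by
  intro h0
  obtain ⟨l, hl⟩ := h.ne p hp
  have : Fact l.Prime := ⟨h.sprime p hp l hl⟩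
  have h1 : (r p) ^ j = 1 := by
    have h2 : ((r p).num : ℚ) ^ j = ((r p).den : ℚ) ^ j := by
      have h3 : (r p).num ^ j = ((r p).den : ℤ) ^ j := by linarith
      exact_mod_cast h3
    have h4 : ((r p).den : ℚ) ≠ 0 := by exact_mod_cast (r p).den_ne_zero
    calc (r p) ^ j = ((r p).num / (r p).den : ℚ) ^ j := by rw [Rat.num_div_den]
      _ = 1 := by rw [div_pow, h2, div_self (pow_ne_zero _ h4)]
  have h5 : padicValRat l ((r p) ^ j) = j * padicValRat l (r p) := padicValRat.pow _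
  rw [h1, padicValRat.one] at h5
  rcases mul_eq_zero.1 h5.symm with h6 | h6
  · have : j = 0 := by exact_mod_cast h6
    omega
  · exact h.val p hp l hl h6

/-- the size of the product of the `num ^ j - den ^ j` -/
theorem Priv.size (h : Priv Pi κ r S) (hκ : 1 ≤ κ) (K : ℕ) {p : ℕ} (hp : p ∈ Pi) :
    (∏ j ∈ Finset.Icc 1 K, ((r p).num ^ j - ((r p).den : ℤ) ^ j)).natAbs ≤
      (∏ l ∈ S p, l) ^ (2 * K ^ 2 * κ) := by
  have hR := h.R2 hp
  set R := ∏ l ∈ S p, l with hRdef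
  rw [show (∏ j ∈ Finset.Icc 1 K, ((r p).num ^ j - ((r p).den : ℤ) ^ j)).natAbs =
    ∏ j ∈ Finset.Icc 1 K, ((r p).num ^ j - ((r p).den : ℤ) ^ j).natAbs from
      map_prod Int.natAbsHom _ _]
  have h1 : ∀ j ∈ Finset.Icc 1 K, ((r p).num ^ j - ((r p).den : ℤ) ^ j).natAbs ≤
      R ^ (κ * K + 1) := by
    intro j hj
    obtain ⟨hj1, hj2⟩ := Finset.mem_Icc.1 hj
    have e1 : (r p).num.natAbs ^ j ≤ R ^ (κ * K) :=
      calc (r p).num.natAbs ^ j ≤ (R ^ κ) ^ j := Nat.pow_le_pow_left (h.num p hp) j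
        _ = R ^ (κ * j) := (pow_mul _ _ _).symm
        _ ≤ R ^ (κ * K) := Nat.pow_le_pow_right (by omega) (Nat.mul_le_mul_left _ hj2)
    have e2 : (r p).den ^ j ≤ R ^ (κ * K) :=
      calc (r p).den ^ j ≤ (R ^ κ) ^ j := Nat.pow_le_pow_left (h.den p hp) j
        _ = R ^ (κ * j) := (pow_mul _ _ _).symm
        _ ≤ R ^ (κ * K) := Nat.pow_le_pow_right (by omega) (Nat.mul_le_mul_left _ hj2)
    calc ((r p).num ^ j - ((r p).den : ℤ) ^ j).natAbs ≤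
          ((r p).num ^ j).natAbs + (((r p).den : ℤ) ^ j).natAbs := Int.natAbs_sub_le _ _
      _ = (r p).num.natAbs ^ j + (r p).den ^ j := by
          rw [Int.natAbs_pow, Int.natAbs_pow, Int.natAbs_natCast]
      _ ≤ R ^ (κ * K) + R ^ (κ * K) := Nat.add_le_add e1 e2
      _ = R ^ (κ * K) * 2 := by ring
      _ ≤ R ^ (κ * K) * R := Nat.mul_le_mul_left _ hR
      _ = R ^ (κ * K + 1) := (pow_succ _ _).symm
  calc ∏ j ∈ Finset.Icc 1 K, ((r p).num ^ j - ((r p).den : ℤ) ^ j).natAbs ≤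
        ∏ _j ∈ Finset.Icc 1 K, R ^ (κ * K + 1) := Finset.prod_le_prod' h1
    _ = R ^ ((κ * K + 1) * K) := by
        rw [Finset.prod_const, Nat.card_Icc, Nat.add_sub_cancel, ← pow_mul]
    _ ≤ R ^ (2 * K ^ 2 * κ) := by
        apply Nat.pow_le_pow_right (by omega)
        rcases Nat.eq_zero_or_pos K with h0 | h0
        · subst h0; simp
        · have h2 : K ≤ K ^ 2 * κ := by nlinarith [Nat.mul_le_mul h0 hκ]
          nlinarith

/-- some private prime is good -/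
theorem Priv.good (h : Priv Pi κ r S) (hκ : 1 ≤ κ) (K : ℕ) (P : Finset ℕ) (hP : P.Nonempty)
    (hPi : ∀ x ∈ P, x ∈ Pi) : ∃ p ∈ P, ∃ l ∈ S p, ((P.erase p).filter fun x =>
      ∃ j, 1 ≤ j ∧ j ≤ K ∧ (l : ℤ) ∣ (r x).num ^ j - ((r x).den : ℤ) ^ j).card ≤
        2 * K ^ 2 * κ := by
  by_contra hcon
  push Not at hcon
  set M := 2 * K ^ 2 * κ with hM
  set z : ℕ → ℤ := fun x => ∏ j ∈ Finset.Icc 1 K, ((r x).num ^ j - ((r x).den : ℤ) ^ j) with hz
  set Z : ℤ := ∏ x ∈ P, z x with hZ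
  have hz0 : ∀ x ∈ P, z x ≠ 0 := fun x hx => Finset.prod_ne_zero_iff.2 fun j hj =>
    h.pow_ne (hPi x hx) (Finset.mem_Icc.1 hj).1
  have hZ0 : Z ≠ 0 := Finset.prod_ne_zero_iff.2 hz0
  have hdvd : ∀ p ∈ P, ∀ l ∈ S p, (l : ℤ) ^ (M + 1) ∣ Z := by
    intro p hp l hl
    set F := (P.erase p).filter fun x =>
      ∃ j, 1 ≤ j ∧ j ≤ K ∧ (l : ℤ) ∣ (r x).num ^ j - ((r x).den : ℤ) ^ j with hF
    have h1 : M + 1 ≤ F.card := hcon p hp l hl
    calc (l : ℤ) ^ (M + 1) ∣ (l : ℤ) ^ F.card := pow_dvd_pow _ h1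
      _ = ∏ _x ∈ F, (l : ℤ) := by rw [Finset.prod_const]
      _ ∣ ∏ x ∈ F, z x := by
          apply Finset.prod_dvd_prod_of_dvd
          intro x hx
          obtain ⟨j, hj1, hj2, hj3⟩ := (Finset.mem_filter.1 hx).2
          exact hj3.trans (Finset.dvd_prod_of_mem _ (Finset.mem_Icc.2 ⟨hj1, hj2⟩))
      _ ∣ Z := Finset.prod_dvd_prod_of_subset _ _ _
          ((Finset.filter_subset _ _).trans (Finset.erase_subset _ _))
  have hdisj : ∀ p ∈ P, ∀ p' ∈ P, p ≠ p' → Disjoint (S p) (S p') := by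
    intro p hp p' hp' hne
    rw [Finset.disjoint_left]
    intro l hl hl'
    exact h.val p (hPi p hp) l hl (h.zero p' (hPi p' hp') p (hPi p hp) hne l hl')
  set U : Finset ℕ := P.biUnion S with hU
  have hUp : ∀ l ∈ U, l.Prime := by
    intro l hl
    obtain ⟨p, hp, hlp⟩ := Finset.mem_biUnion.1 hl
    exact h.sprime p (hPi p hp) l hlp
  have hprod : ∏ l ∈ U, (l : ℤ) ^ (M + 1) ∣ Z := by
    apply Finset.prod_dvd_of_coprime
    · intro l hl l' hl' hne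
      apply IsCoprime.pow
      rw [Nat.isCoprime_iff_coprime]
      exact (Nat.coprime_primes (hUp l hl) (hUp l' hl')).2 hne
    · intro l hl
      obtain ⟨p, hp, hlp⟩ := Finset.mem_biUnion.1 hl
      exact hdvd p hp l hlp
  have hR : ∏ l ∈ U, l = ∏ p ∈ P, ∏ l ∈ S p, l := Finset.prod_biUnion hdisj
  set W : ℕ := ∏ p ∈ P, ∏ l ∈ S p, l with hW
  have h1 : W ^ (M + 1) ≤ Z.natAbs := by
    apply Nat.le_of_dvd (Int.natAbs_pos.2 hZ0)
    rw [← hR, ← Finset.prod_pow]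
    have := Int.natAbs_dvd_natAbs.2 hprod
    rw [show (∏ l ∈ U, (l : ℤ) ^ (M + 1)).natAbs = ∏ l ∈ U, ((l : ℤ) ^ (M + 1)).natAbs from
      map_prod Int.natAbsHom _ _] at this
    simpa [Int.natAbs_pow] using this
  have h2 : Z.natAbs ≤ W ^ M := by
    rw [hZ, show (∏ x ∈ P, z x).natAbs = ∏ x ∈ P, (z x).natAbs from map_prod Int.natAbsHom _ _,
      hW, ← Finset.prod_pow]
    exact Finset.prod_le_prod' fun x hx => h.size hκ K (hPi x hx)
  have h3 : 2 ≤ W := by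
    obtain ⟨p, hp⟩ := hP
    have h4 : ∏ l ∈ S p, l ∣ W := Finset.dvd_prod_of_mem (fun p => ∏ l ∈ S p, l) hp
    have h5 : 0 < W := Finset.prod_pos fun x hx => by have := h.R2 (hPi x hx); omega
    exact (h.R2 (hPi p hp)).trans (Nat.le_of_dvd h5 h4)
  have h4 : W ^ M < W ^ (M + 1) := Nat.pow_lt_pow_right (by omega) (by omega)
  omega

theorem Priv.step (h : Priv Pi κ r S) (hκ : 1 ≤ κ) (K : ℕ) (P : Finset ℕ) (hP : P.Nonempty)
    (hPi : ∀ x ∈ P, x ∈ Pi) : ∃ p ∈ P, ∃ Q,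
      Step (2 * K ^ 2 * κ) K (fun p => (r p).num) (fun p => ((r p).den : ℤ)) P p Q := by
  obtain ⟨p, hp, l, hl, hbad⟩ := h.good hκ K P hP hPi
  have hL := h.sprime p (hPi p hp) l hl
  obtain ⟨Q, hQ1, hQ2, hQ3, hQ4⟩ := exact_div hL (h.val p (hPi p hp) l hl)
  refine ⟨p, hp, Q, hQ1, hQ4, ?_, ?_⟩
  · intro x hx
    obtain ⟨hxp, hxP⟩ := Finset.mem_erase.1 hx
    have h1 := val_zero hL (h.r0 (hPi x hxP)) (h.zero p (hPi p hp) x (hPi x hxP) hxp l hl)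
    exact ⟨hQ3 _ h1.1, hQ3 _ h1.2⟩
  · intro l' hl' hlQ
    have h1 := hQ2 l' hl' hlQ
    subst h1
    exact hbad

end Pool.Agent.H597.SP
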