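import Pool.Agent.H597.SP.Cases

/-!
Sums with dilates by products of multipliers: the induction for exponents 0 and 1.
-/

set_option autoImplicit false

namespace Pool.Agent.H597.SP

open Finset
open Pool.Agent.TH83.SQ (cls dil Cst exists_cst psi Sz Sz_nonneg mx mx_large mx_one' exists_mx mx_le
  le_mx sel_log avg_ge card_dil dil_nonempty cls_nonempty cls_sub exp_num sel)
open scoped Pointwise Classical

variable {M K : ℕ} {a b : ℕ → ℤ}

theorem tau_nonneg (P : Finset ℕ) (X B : Finset ℤ) : 0 ≤ tau a b P X B := by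
  unfold tau
  apply div_nonneg _ (by positivity)
  exact Finset.sum_nonneg fun s _ => Real.log_natCast_nonneg _

/-- the lower bound for `tau` -/
noncomputable def bd (δ R : ℝ) (c : Cst δ R) (J : ℝ) (j : ℕ) (S : ℝ) : ℝ :=
  (1 - δ) * S - Real.log c.K₀ - (R / 2) * Real.exp (J / 2) *
    Real.exp (2 / R * S - (j : ℝ) / 2)

theorem bd_small {δ R : ℝ} (hδ : 0 < δ) (hR : 0 < R) (c : Cst δ R) {J : ℝ} {j : ℕ} (hj : (j : ℝ) ≤ J)
    {S : ℝ} (hS : 0 ≤ S) : bd δ R c J j S ≤ 0 := by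
  unfold bd
  have h1 : 0 ≤ Real.log c.K₀ := Real.log_natCast_nonneg _
  have h2 : S ≤ (R / 2) * Real.exp (J / 2) * Real.exp (2 / R * S - (j : ℝ) / 2) := by
    rw [mul_assoc, ← Real.exp_add]
    have h3 : 2 / R * S ≤ Real.exp (J / 2 + (2 / R * S - (j : ℝ) / 2)) := by
      have h5 := Real.add_one_le_exp (J / 2 + (2 / R * S - (j : ℝ) / 2))
      linarith
    calc S = (R / 2) * (2 / R * S) := by field_simp
      _ ≤ _ := mul_le_mul_of_nonneg_left h3 (by positivity)
  have h3 : 0 ≤ δ * S := by positivity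
  nlinarith

theorem bd_low {δ R : ℝ} (hδ : 0 < δ) (hR : 0 < R) (c : Cst δ R) {J : ℝ} {j : ℕ}
    {S : ℝ} (hS0 : 0 ≤ S) (hS : S ≤ Real.log c.K₀) : bd δ R c J j S ≤ 0 := by
  unfold bd
  have h2 : 0 ≤ (R / 2) * Real.exp (J / 2) * Real.exp (2 / R * S - (j : ℝ) / 2) := by
    positivity
  have h3 : 0 ≤ δ * S := by positivity
  nlinarith

/-- combination of the two halves -/
theorem bd_comb {δ R : ℝ} (hR : 0 < R) (c : Cst δ R) {J : ℝ} {j : ℕ} {S S' g a b : ℝ}
    (hS' : S' ≤ S - R) (hg : (1 - δ) * S ≤ g + (1 - δ) * S')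
    (ha : bd δ R c J j S ≤ a) (hb : g + bd δ R c J j S' ≤ b) :
    bd δ R c J (j + 1) S ≤ (a + b) / 2 := by
  unfold bd at *
  set A := (R / 2) * Real.exp (J / 2) with hA
  have hA0 : 0 ≤ A := by positivity
  have h1 : Real.exp (2 / R * S' - (j : ℝ) / 2) ≤
      Real.exp (-2) * Real.exp (2 / R * S - (j : ℝ) / 2) := by
    rw [← Real.exp_add]
    apply Real.exp_le_exp.2
    have h2 : 2 / R * S' ≤ 2 / R * (S - R) := mul_le_mul_of_nonneg_left hS' (by positivity)
    have h3 : 2 / R * (S - R) = 2 / R * S - 2 := by field_simp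
    linarith
  have h2 : Real.exp (2 / R * S - ((j + 1 : ℕ) : ℝ) / 2) =
      Real.exp (-(1 / 2)) * Real.exp (2 / R * S - (j : ℝ) / 2) := by
    rw [← Real.exp_add]
    congr 1
    push_cast; ring
  rw [h2]
  have h3 := exp_num
  set E := Real.exp (2 / R * S - (j : ℝ) / 2) with hE
  have hE0 : 0 < E := Real.exp_pos _
  have h4 : A * Real.exp (2 / R * S' - (j : ℝ) / 2) ≤ A * (Real.exp (-2) * E) :=
    mul_le_mul_of_nonneg_left h1 hA0
  have h5 : A * E * ((1 + Real.exp (-2)) / 2) ≤ A * E * Real.exp (-(1 / 2)) :=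
    mul_le_mul_of_nonneg_left h3 (by positivity)
  nlinarith

theorem bd_mono {δ R : ℝ} (hR : 0 < R) (c : Cst δ R) {J : ℝ} {j : ℕ} {S S' T : ℝ}
    (h1 : (1 - δ) * S' ≤ (1 - δ) * S) (h2 : S ≤ T) :
    (1 - δ) * S' - Real.log c.K₀ - (R / 2) * Real.exp (J / 2) *
      Real.exp (2 / R * T - (j : ℝ) / 2) ≤ bd δ R c J j S := by
  unfold bd
  have h3 : Real.exp (2 / R * S - (j : ℝ) / 2) ≤ Real.exp (2 / R * T - (j : ℝ) / 2) := by
    apply Real.exp_le_exp.2
    have := mul_le_mul_of_nonneg_left h2 (by positivity : 0 ≤ 2 / R)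
    linarith
  have h4 := mul_le_mul_of_nonneg_left h3
    (by positivity : 0 ≤ (R / 2) * Real.exp (J / 2))
  linarith

theorem tau_ge {δ R : ℝ} (hδ : 0 < δ) (hδ1 : δ < 1) (hR : 0 < R) (c : Cst δ R)
    {N₀ : ℕ} (hN : 12 * ((2 : ℝ) ^ c.MX * 2 ^ c.MB) ^ 2 ≤ δ * N₀) (hN1 : 1 ≤ N₀) (hNK : N₀ ≤ K)
    (P₀ : Finset ℕ)
    (h : ∀ P ⊆ P₀, P.Nonempty → ∃ p ∈ P, ∃ Q, Step M K a b P p Q) :
    ∀ (N : ℕ) (P : Finset ℕ), P.card = N → P ⊆ P₀ → ∀ X B : Finset ℤ, X.Nonempty → B.Nonempty →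
      bd δ R c (N₀ * (M + N₀ ^ 2) : ℝ) P.card (Sz X B) ≤ tau a b P X B := by
  intro N
  have hl : 0 < Real.log 2 := Real.log_pos (by norm_num)
  induction N with
  | zero =>
    intro P hP _ X B hX hB
    rw [hP]
    exact (bd_small hδ hR c (by simp; positivity) (Sz_nonneg X B)).trans (tau_nonneg _ _ _)
  | succ N ih₀ =>
    intro P₁ hP₁ hP₁P X B hX hB
    have hP₁n : P₁.Nonempty := by
      rw [← Finset.card_pos]; omega
    obtain ⟨p, hp₁, Q, hst⟩ := h P₁ hP₁P hP₁n
    obtain ⟨P, hPdef⟩ : ∃ P, P = P₁.erase p := ⟨_, rfl⟩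
    have hpP : p ∉ P := by rw [hPdef]; exact Finset.notMem_erase p P₁
    have hPN : P.card = N := by rw [hPdef, Finset.card_erase_of_mem hp₁]; omega
    have hPs : P ⊆ P₀ := by rw [hPdef]; exact (Finset.erase_subset _ _).trans hP₁P
    have ih := ih₀ P hPN hPs
    have hP' := hst.cop
    have hbad' := hst.bad
    rw [← hPdef] at hP' hbad'
    have hcard₁ : P₁.card = P.card + 1 := by omega
    have htau₁ : tau a b P₁ X B = tau a b (insert p P) X B := by
      rw [hPdef, Finset.insert_erase hp₁]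
    rw [hcard₁, htau₁]
    clear hPdef htau₁
    obtain ⟨t, w, v, htq, hv, hw, hor⟩ := hst.div
    have hQ := hst.two
    have hw0 : w ≠ 0 := cop_ne hQ hw
    have ht0 : t ≠ 0 := by
      rw [htq]; exact mul_ne_zero (cop_ne hQ hv) (by exact_mod_cast (by omega : Q ≠ 0))
    have hqt : (Q : ℤ) ∣ t := by rw [htq]; exact dvd_mul_left _ _
    have htau : tau a b (insert p P) X B = (tau a b P (dil w X) B + tau a b P (dil t X) B) / 2 := by
      rcases hor with ⟨h1, h2⟩ | ⟨h1, h2⟩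
      · rw [tau_insert hpP, h1, h2]
      · rw [tau_insert hpP, h1, h2, add_comm]
    by_cases hj : ((P.card + 1 : ℕ) : ℝ) ≤ N₀ * (M + N₀ ^ 2)
    · exact (bd_small hδ hR c hj (Sz_nonneg X B)).trans (tau_nonneg _ _ _)
    push Not at hj
    have hjN : N₀ * (M + N₀ ^ 2) ≤ P.card := by
      have : N₀ * (M + N₀ ^ 2) < P.card + 1 := by exact_mod_cast hj
      omega
    by_cases hS : Sz X B ≤ Real.log c.K₀
    · exact (bd_low hδ hR c (Sz_nonneg X B) hS).trans (tau_nonneg _ _ _)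
    push Not at hS
    have hK0 : (0 : ℝ) < c.K₀ := by
      have := c.K₀2
      exact_mod_cast (by omega : 0 < c.K₀)
    have cX : (0 : ℝ) < X.card := by exact_mod_cast hX.card_pos
    have cB : (0 : ℝ) < B.card := by exact_mod_cast hB.card_pos
    have hbig : c.K₀ ≤ X.card * B.card := by
      have h1 : Real.log c.K₀ < Real.log (X.card * B.card) := by
        rw [Real.log_mul cX.ne' cB.ne']; exact hS
      have h2 := (Real.log_lt_log_iff hK0 (by positivity)).1 h1
      exact_mod_cast h2.le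
    -- the level
    have hex : ∃ J : ℕ, mx ((Q : ℤ) ^ J) X * mx ((Q : ℤ) ^ J) B * c.K₀ ≤ X.card * B.card := by
      obtain ⟨J₁, h1⟩ := mx_large hQ X
      obtain ⟨J₂, h2⟩ := mx_large hQ B
      refine ⟨max J₁ J₂, ?_⟩
      calc mx ((Q : ℤ) ^ max J₁ J₂) X * mx ((Q : ℤ) ^ max J₁ J₂) B * c.K₀ ≤ 1 * 1 * c.K₀ :=
            Nat.mul_le_mul_right _ (Nat.mul_le_mul (h1 _ (le_max_left _ _))
              (h2 _ (le_max_right _ _)))
        _ ≤ _ := by rw [one_mul, one_mul]; exact hbig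
    obtain ⟨I, hI, hI'⟩ : ∃ I : ℕ,
        mx ((Q : ℤ) ^ (I + 1)) X * mx ((Q : ℤ) ^ (I + 1)) B * c.K₀ ≤ X.card * B.card ∧
        X.card * B.card < mx ((Q : ℤ) ^ I) X * mx ((Q : ℤ) ^ I) B * c.K₀ := by
      classical
      have h1 := Nat.find_spec hex
      have h2 : Nat.find hex ≠ 0 := by
        intro h0
        rw [h0, pow_zero, mx_one' hX, mx_one' hB] at h1
        have h3 : 0 < X.card * B.card := Nat.mul_pos hX.card_pos hB.card_pos
        have := c.K₀2
        nlinarith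
      obtain ⟨I, hIe⟩ := Nat.exists_eq_succ_of_ne_zero h2
      refine ⟨I, ?_, ?_⟩
      · rw [hIe] at h1; exact h1
      · have := Nat.find_min hex (m := I) (by rw [hIe]; exact Nat.lt_succ_self I)
        exact not_le.1 this
    -- the heavy class of `X`
    obtain ⟨x₀, hx₀, hx₀m⟩ := exists_mx ((Q : ℤ) ^ I) hX
    have hheavy : X.card ≤ (cls ((Q : ℤ) ^ I) X x₀).card * c.K₀ := by
      rw [hx₀m]
      by_contra hcon
      push Not at hcon
      have h1 := mx_le ((Q : ℤ) ^ I) B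
      have h2 : mx ((Q : ℤ) ^ I) X * mx ((Q : ℤ) ^ I) B * c.K₀ ≤
          mx ((Q : ℤ) ^ I) X * B.card * c.K₀ :=
        Nat.mul_le_mul_right _ (Nat.mul_le_mul_left _ h1)
      have h3 : mx ((Q : ℤ) ^ I) X * B.card * c.K₀ = mx ((Q : ℤ) ^ I) X * c.K₀ * B.card := by ring
      have h4 : mx ((Q : ℤ) ^ I) X * c.K₀ * B.card ≤ X.card * B.card :=
        Nat.mul_le_mul_right _ hcon.le
      omega
    -- the selections
    obtain ⟨iX, T, hT, hTn, hTi, hT1, hT2⟩ := sel ((Q : ℤ) ^ (I + 1)) X hX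
    obtain ⟨iB, U, hU, hUn, hUi, hU1, hU2⟩ := sel ((Q : ℤ) ^ (I + 1)) B hB
    obtain ⟨hTl, hTk, hTc⟩ := sel_log hX hT hTn hTi hT1 hT2
    obtain ⟨hUl, hUk, hUc⟩ := sel_log hB hU hUn hUi hU1 hU2
    have hsum : c.K₀ ≤ 2 ^ (iX + iB + 2) := by
      obtain ⟨t, ht⟩ := hTn
      obtain ⟨v, hv⟩ := hUn
      have h1 := (hT1 t ht).1.trans (Nat.mul_le_mul_left _ (le_mx _ (hT ht)))
      have h2 := (hU1 v hv).1.trans (Nat.mul_le_mul_left _ (le_mx _ (hU hv)))
      have h3 : X.card * B.card ≤ 2 ^ (iX + iB + 2) *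
          (mx ((Q : ℤ) ^ (I + 1)) X * mx ((Q : ℤ) ^ (I + 1)) B) := by
        calc X.card * B.card ≤ (2 ^ (iX + 1) * mx ((Q : ℤ) ^ (I + 1)) X) *
              (2 ^ (iB + 1) * mx ((Q : ℤ) ^ (I + 1)) B) := Nat.mul_le_mul h1 h2
          _ = _ := by ring
      have h4 : 0 < mx ((Q : ℤ) ^ (I + 1)) X * mx ((Q : ℤ) ^ (I + 1)) B := by
        rcases Nat.eq_zero_or_pos (mx ((Q : ℤ) ^ (I + 1)) X * mx ((Q : ℤ) ^ (I + 1)) B) with h | h
        · rw [h, mul_zero] at h3
          have : 0 < X.card * B.card := Nat.mul_pos hX.card_pos hB.card_pos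
          omega
        · exact h
      have h5 : mx ((Q : ℤ) ^ (I + 1)) X * mx ((Q : ℤ) ^ (I + 1)) B * c.K₀ ≤
          mx ((Q : ℤ) ^ (I + 1)) X * mx ((Q : ℤ) ^ (I + 1)) B * 2 ^ (iX + iB + 2) := by
        rw [mul_comm (mx _ X * mx _ B) (2 ^ _)]
        exact hI.trans h3
      exact Nat.le_of_mul_le_mul_left h5 h4
    obtain ⟨hnum, hRsum⟩ := c.hK₀ iX iB hsum
    have hδ' : 0 ≤ 1 - δ := by linarith
    have hTc' : (T.card : ℝ) ≤ 2 ^ (iX + 1) := by exact_mod_cast hTc
    have hUc' : (U.card : ℝ) ≤ 2 ^ (iB + 1) := by exact_mod_cast hUc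
    rw [htau]
    by_cases hiB : c.MB ≤ iB
    · -- the second summand has large residue entropy
      obtain ⟨hB1, hB2⟩ := c.hMB iB hiB
      have h0 := ih (dil w X) B (dil_nonempty hX) hB
      have h0' : Sz (dil w X) B = Sz X B := by unfold Sz; rw [card_dil hw0]
      rw [h0'] at h0
      have hcI := caseI (a := a) (b := b) hqt P X B I x₀ hx₀ U hU hUn hUi
      refine bd_comb hR c (S' := Sz X B - iB * Real.log 2) (g := Real.log U.card -
        (1 - δ) * (Real.log c.K₀ + Real.log 2)) (by linarith) ?_ h0 (le_trans ?_ hcI)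
      · have hk : 0 ≤ δ * (Real.log c.K₀ + Real.log 2) :=
          mul_nonneg hδ.le (add_nonneg (Real.log_natCast_nonneg _) hl.le)
        linarith
      · have h1 : ∀ z ∈ U, (1 - δ) * (Sz X B - Real.log c.K₀ - (iB + 1) * Real.log 2) -
            Real.log c.K₀ - (R / 2) * Real.exp ((N₀ * (M + N₀ ^ 2) : ℝ) / 2) *
            Real.exp (2 / R * (Sz X B - iB * Real.log 2) - (P.card : ℝ) / 2) ≤
            tau a b P (dil t (cls ((Q : ℤ) ^ I) X x₀)) (cls ((Q : ℤ) ^ (I + 1)) B z) := by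
          intro z hz
          obtain ⟨h2, h3⟩ := hUl z hz
          have hn1 : (cls ((Q : ℤ) ^ I) X x₀).Nonempty := cls_nonempty _ hx₀
          have h4 := ih (dil t (cls ((Q : ℤ) ^ I) X x₀)) (cls ((Q : ℤ) ^ (I + 1)) B z)
            (dil_nonempty hn1) (cls_nonempty _ (hU hz))
          refine le_trans ?_ h4
          have h5 : Sz (dil t (cls ((Q : ℤ) ^ I) X x₀)) (cls ((Q : ℤ) ^ (I + 1)) B z) =
              Real.log (cls ((Q : ℤ) ^ I) X x₀).card +
                Real.log (cls ((Q : ℤ) ^ (I + 1)) B z).card := by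
            unfold Sz
            rw [card_dil ht0]
          have cc : (0 : ℝ) < (cls ((Q : ℤ) ^ I) X x₀).card := by exact_mod_cast hn1.card_pos
          have h6 : Real.log (cls ((Q : ℤ) ^ I) X x₀).card ≤ Real.log X.card :=
            Real.log_le_log cc (by exact_mod_cast Finset.card_le_card (cls_sub _ _ _))
          have h7 : Real.log X.card ≤ Real.log (cls ((Q : ℤ) ^ I) X x₀).card +
              Real.log c.K₀ := by
            rw [← Real.log_mul cc.ne' hK0.ne']
            exact Real.log_le_log cX (by exact_mod_cast hheavy)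
          apply bd_mono hR c
          · apply mul_le_mul_of_nonneg_left _ hδ'
            rw [h5]
            unfold Sz
            linarith
          · rw [h5]
            unfold Sz
            linarith
        have h2 := avg_ge hUn h1
        unfold bd
        nlinarith
    push Not at hiB
    by_cases hiX : c.MX ≤ iX
    · -- the first summand has large residue entropy
      obtain ⟨hX1, hX2⟩ := c.hMX iX hiX
      have h0 := ih (dil t X) B (dil_nonempty hX) hB
      have h0' : Sz (dil t X) B = Sz X B := by unfold Sz; rw [card_dil ht0]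
      rw [h0'] at h0
      obtain ⟨b₀, hb₀⟩ := hUn
      have hcI := caseIIa P hP' hw X B (I + 1) T hT hTn hTi b₀ (hU hb₀)
      rw [add_comm (tau a b P (dil w X) B)]
      have hiB' : (iB : ℝ) + 1 ≤ c.MB := by exact_mod_cast hiB
      refine bd_comb hR c (S' := Sz X B - iX * Real.log 2) (g := Real.log T.card -
        (1 - δ) * ((c.MB + 1) * Real.log 2)) (by linarith) ?_ h0 (le_trans ?_ hcI)
      · have hk : 0 ≤ δ * (((c.MB : ℝ) + 1) * Real.log 2) := by positivity
        linarith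
      · obtain ⟨h8, h9⟩ := hUl b₀ hb₀
        have h1 : ∀ z ∈ T, (1 - δ) * (Sz X B - (iX + 1) * Real.log 2 - (iB + 1) * Real.log 2) -
            Real.log c.K₀ - (R / 2) * Real.exp ((N₀ * (M + N₀ ^ 2) : ℝ) / 2) *
            Real.exp (2 / R * (Sz X B - iX * Real.log 2) - (P.card : ℝ) / 2) ≤
            tau a b P (dil w (cls ((Q : ℤ) ^ (I + 1)) X z))
              (cls ((Q : ℤ) ^ (I + 1)) B b₀) := by
          intro z hz
          obtain ⟨h2, h3⟩ := hTl z hz
          have h4 := ih (dil w (cls ((Q : ℤ) ^ (I + 1)) X z)) (cls ((Q : ℤ) ^ (I + 1)) B b₀)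
            (dil_nonempty (cls_nonempty _ (hT hz))) (cls_nonempty _ (hU hb₀))
          refine le_trans ?_ h4
          have h5 : Sz (dil w (cls ((Q : ℤ) ^ (I + 1)) X z)) (cls ((Q : ℤ) ^ (I + 1)) B b₀) =
              Sz (cls ((Q : ℤ) ^ (I + 1)) X z) (cls ((Q : ℤ) ^ (I + 1)) B b₀) := by
            unfold Sz
            rw [card_dil hw0]
          rw [h5]
          have h10 : 0 ≤ iB * Real.log 2 := by positivity
          apply bd_mono hR c
          · apply mul_le_mul_of_nonneg_left _ hδ'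
            unfold Sz
            linarith
          · unfold Sz
            linarith
        have h2 := avg_ge hTn h1
        have h10 : (1 - δ) * ((iB + 1) * Real.log 2) ≤ (1 - δ) * (c.MB * Real.log 2) :=
          mul_le_mul_of_nonneg_left (mul_le_mul_of_nonneg_right hiB' hl.le) hδ'
        unfold bd
        nlinarith
    push Not at hiX
    · -- both small: generic dilates
      have h0 := ih (dil t X) B (dil_nonempty hX) hB
      have h0' : Sz (dil t X) B = Sz X B := by unfold Sz; rw [card_dil ht0]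
      rw [h0'] at h0
      set M' : ℕ := M + N₀ ^ 2 with hM'
      have hM'1 : 1 ≤ M' := by nlinarith
      have hPc : 0 < P.card := by nlinarith
      have cP : (0 : ℝ) < P.card := by exact_mod_cast hPc
      have cN : (0 : ℝ) < N₀ := by exact_mod_cast hN1
      have cK : (N₀ : ℝ) ≤ K := by exact_mod_cast hNK
      have hK1 : 1 ≤ K := hN1.trans hNK
      set κ : ℝ := 2 * M' / P.card + (2 / K + 2 / Real.sqrt M') with hκdef
      have hκ0 : 0 ≤ κ := by positivity
      have hκ6 : κ ≤ 6 / N₀ := by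
        have h1 : 2 * (M' : ℝ) / P.card ≤ 2 / N₀ := by
          rw [div_le_div_iff₀ cP cN]
          have : (N₀ : ℝ) * M' ≤ P.card := by exact_mod_cast hjN
          linarith
        have h2 : (2 : ℝ) / K ≤ 2 / N₀ := div_le_div_of_nonneg_left (by norm_num) cN cK
        have h3 : 2 / Real.sqrt M' ≤ 2 / N₀ := by
          apply div_le_div_of_nonneg_left (by norm_num) cN
          apply Real.le_sqrt_of_sq_le
          rw [hM']
          push_cast
          have : (0 : ℝ) ≤ M := Nat.cast_nonneg M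
          linarith
        have h4 : (6 : ℝ) / N₀ = 2 / N₀ + (2 / N₀ + 2 / N₀) := by ring
        rw [h4, hκdef]
        linarith
      have hβ : ((T.card : ℝ) * U.card) ^ 2 * κ ≤ δ / 2 := by
        have h1 : (2 : ℝ) ^ (iX + 1) ≤ 2 ^ c.MX :=
          pow_le_pow_right₀ (by norm_num) (by omega)
        have h2 : (2 : ℝ) ^ (iB + 1) ≤ 2 ^ c.MB :=
          pow_le_pow_right₀ (by norm_num) (by omega)
        have h3 : (T.card : ℝ) * U.card ≤ 2 ^ c.MX * 2 ^ c.MB :=
          mul_le_mul (hTc'.trans h1) (hUc'.trans h2) (by positivity) (by positivity)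
        have h4 : ((T.card : ℝ) * U.card) ^ 2 ≤ (2 ^ c.MX * 2 ^ c.MB) ^ 2 :=
          pow_le_pow_left₀ (by positivity) h3 2
        have h5 : ((T.card : ℝ) * U.card) ^ 2 * κ ≤ (2 ^ c.MX * 2 ^ c.MB) ^ 2 * (6 / N₀) :=
          mul_le_mul h4 hκ6 hκ0 (by positivity)
        refine h5.trans ?_
        rw [mul_div_assoc', div_le_iff₀ cN]
        linarith
      have hcI := caseIIb hQ P hw X B (I + 1) T hT hTn hTi
        U hU hUn hUi (δ / 2) κ hκ0 (fun l hl hlq r => gen hK1 P hP' hl hlq (hbad' l hl hlq) M'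
          (Nat.le_add_right _ _) hM'1 hPc r) hβ
      rw [add_comm (tau a b P (dil w X) B)]
      refine bd_comb hR c (S' := Sz X B - (iX + iB) * Real.log 2)
        (g := (1 - δ / 2) * (Real.log T.card + Real.log U.card) - (1 - δ) * (2 * Real.log 2))
        (by linarith) ?_ h0 (le_trans ?_ hcI)
      · have hx1 : (1 - δ / 2) * (iX * Real.log 2 - psi iX + (iB * Real.log 2 - psi iB)) ≤
            (1 - δ / 2) * (Real.log T.card + Real.log U.card) :=
          mul_le_mul_of_nonneg_left (by linarith) (by linarith)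
        have hps1 : 0 ≤ psi iX := Real.log_nonneg (by nlinarith [(Nat.cast_nonneg iX : (0:ℝ) ≤ iX)])
        have hps2 : 0 ≤ psi iB := Real.log_nonneg (by nlinarith [(Nat.cast_nonneg iB : (0:ℝ) ≤ iB)])
        nlinarith
      · have h1 : ∀ z ∈ T, (1 - δ) * (Sz X B - (iX + iB + 2) * Real.log 2) -
            Real.log c.K₀ - (R / 2) * Real.exp ((N₀ * (M + N₀ ^ 2) : ℝ) / 2) *
            Real.exp (2 / R * (Sz X B - (iX + iB) * Real.log 2) - (P.card : ℝ) / 2) ≤
            (∑ v ∈ U, tau a b P (dil w (cls ((Q : ℤ) ^ (I + 1)) X z))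
              (cls ((Q : ℤ) ^ (I + 1)) B v)) / U.card := by
          intro z hz
          obtain ⟨h2, h3⟩ := hTl z hz
          apply avg_ge hUn
          intro v hv
          obtain ⟨h8, h9⟩ := hUl v hv
          have h4 := ih (dil w (cls ((Q : ℤ) ^ (I + 1)) X z)) (cls ((Q : ℤ) ^ (I + 1)) B v)
            (dil_nonempty (cls_nonempty _ (hT hz))) (cls_nonempty _ (hU hv))
          refine le_trans ?_ h4
          have h5 : Sz (dil w (cls ((Q : ℤ) ^ (I + 1)) X z)) (cls ((Q : ℤ) ^ (I + 1)) B v) =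
              Sz (cls ((Q : ℤ) ^ (I + 1)) X z) (cls ((Q : ℤ) ^ (I + 1)) B v) := by
            unfold Sz
            rw [card_dil hw0]
          rw [h5]
          apply bd_mono hR c
          · apply mul_le_mul_of_nonneg_left _ hδ'
            unfold Sz
            linarith
          · unfold Sz
            linarith
        have h2 := avg_ge hTn h1
        have h3 : (∑ z ∈ T, (∑ v ∈ U, tau a b P (dil w (cls ((Q : ℤ) ^ (I + 1)) X z))
            (cls ((Q : ℤ) ^ (I + 1)) B v)) / U.card) / T.card =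
            (∑ z ∈ T, ∑ v ∈ U, tau a b P (dil w (cls ((Q : ℤ) ^ (I + 1)) X z))
              (cls ((Q : ℤ) ^ (I + 1)) B v)) / (T.card * U.card) := by
          rw [← Finset.sum_div, div_div, mul_comm (U.card : ℝ)]
        rw [h3] at h2
        unfold bd
        nlinarith



/-- some dilate by a product of multipliers has a large sum set -/
theorem dilates_small (δ θ : ℝ) (hδ : 0 < δ) (hθ : 0 < θ) :
    ∃ (C η : ℝ) (K : ℕ), 0 < η ∧ ∀ (M : ℕ) (a b : ℕ → ℤ) (P : Finset ℕ),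
      (∀ P' ⊆ P, P'.Nonempty → ∃ p ∈ P', ∃ Q, Step M K a b P' p Q) →
      (M : ℝ) ≤ 2 * K ^ 2 * (1 + η * P.card) →
      ∀ X B : Finset ℤ, X.Nonempty → B.Nonempty →
      θ * (Real.log X.card + Real.log B.card) ≤ P.card →
      ∃ s ⊆ P, (1 - δ) * (Real.log X.card + Real.log B.card) - C ≤
        Real.log ((dil (pr a b P s) X + B).card : ℝ) := by
  obtain ⟨c⟩ := exists_cst (min δ (1 / 2)) (8 / θ) (by positivity)
  have hδ0 : 0 < min δ (1 / 2) := by positivity
  obtain ⟨N₁, hN₁⟩ := exists_nat_ge (12 * ((2 : ℝ) ^ c.MX * 2 ^ c.MB) ^ 2 / min δ (1 / 2))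
  set N₀ : ℕ := max 1 N₁ with hN₀
  have hN1 : 1 ≤ N₀ := le_max_left _ _
  have hN : 12 * ((2 : ℝ) ^ c.MX * 2 ^ c.MB) ^ 2 ≤ min δ (1 / 2) * N₀ := by
    rw [div_le_iff₀ hδ0] at hN₁
    have h1 : (N₁ : ℝ) ≤ N₀ := by exact_mod_cast le_max_right _ _
    have h2 := mul_le_mul_of_nonneg_left h1 hδ0.le
    linarith
  have cN : (0 : ℝ) < N₀ := by exact_mod_cast hN1
  refine ⟨Real.log c.K₀ + (8 / θ / 2) * Real.exp ((N₀ * (2 * N₀ ^ 2 + N₀ ^ 2) : ℝ) / 2), 1 / (4 * N₀ ^ 3),
    N₀, by positivity, ?_⟩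
  intro M a b P hP hMP X B hX hB hS
  have hδ1 : min δ (1 / 2) < 1 := lt_of_le_of_lt (min_le_right _ _) (by norm_num)
  have h0 := tau_ge (by positivity : 0 < min δ (1 / 2)) hδ1 (by positivity : 0 < 8 / θ) c hN hN1 le_rfl
    P hP P.card P rfl le_rfl X B hX hB
  by_contra hcon
  push Not at hcon
  have hS0 : 0 ≤ Sz X B := Sz_nonneg X B
  have hJ : (N₀ : ℝ) * (M + N₀ ^ 2) ≤ N₀ * (2 * N₀ ^ 2 + N₀ ^ 2) + P.card / 2 := by
    have h1 := mul_le_mul_of_nonneg_right hMP cN.le
    have h2 : (2 * (N₀ : ℝ) ^ 2 * (1 + 1 / (4 * (N₀ : ℝ) ^ 3) * P.card)) * N₀ =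
        N₀ * (2 * N₀ ^ 2) + P.card / 2 := by
      field_simp
      ring
    linarith
  have h1 : (1 - δ) * (Real.log X.card + Real.log B.card) -
      (Real.log c.K₀ + (8 / θ / 2) * Real.exp ((N₀ * (2 * N₀ ^ 2 + N₀ ^ 2) : ℝ) / 2)) ≤
      bd (min δ (1 / 2)) (8 / θ) c (N₀ * (M + N₀ ^ 2) : ℝ) P.card (Sz X B) := by
    unfold bd
    have h2 : Real.exp ((N₀ * (M + N₀ ^ 2) : ℝ) / 2) *
        Real.exp (2 / (8 / θ) * Sz X B - (P.card : ℝ) / 2) ≤
        Real.exp ((N₀ * (2 * N₀ ^ 2 + N₀ ^ 2) : ℝ) / 2) := by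
      rw [← Real.exp_add]
      apply Real.exp_le_exp.2
      have h3 : 2 / (8 / θ) * Sz X B = θ * (Real.log X.card + Real.log B.card) / 4 := by
        unfold Sz
        field_simp; ring
      rw [h3]
      linarith
    have h4 : (8 / θ / 2) * Real.exp ((N₀ * (M + N₀ ^ 2) : ℝ) / 2) *
        Real.exp (2 / (8 / θ) * Sz X B - (P.card : ℝ) / 2) ≤
        (8 / θ / 2) * Real.exp ((N₀ * (2 * N₀ ^ 2 + N₀ ^ 2) : ℝ) / 2) := by
      rw [mul_assoc]
      exact mul_le_mul_of_nonneg_left h2 (by positivity)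
    have h5 : (1 - δ) * Sz X B ≤ (1 - min δ (1 / 2)) * Sz X B :=
      mul_le_mul_of_nonneg_right (by have := min_le_left δ (1 / 2); linarith) hS0
    have h6 : Sz X B = Real.log X.card + Real.log B.card := rfl
    rw [← h6]
    linarith
  have h7 : tau a b P X B < (1 - δ) * (Real.log X.card + Real.log B.card) -
      (Real.log c.K₀ + (8 / θ / 2) * Real.exp ((N₀ * (2 * N₀ ^ 2 + N₀ ^ 2) : ℝ) / 2)) := by
    unfold tau
    rw [div_lt_iff₀ (by positivity)]
    have h8 : ∑ s ∈ P.powerset, Real.log ((dil (pr a b P s) X + B).card : ℝ) <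
        ∑ s ∈ P.powerset, ((1 - δ) * (Real.log X.card + Real.log B.card) -
          (Real.log c.K₀ + (8 / θ / 2) * Real.exp ((N₀ * (2 * N₀ ^ 2 + N₀ ^ 2) : ℝ) / 2))) :=
      Finset.sum_lt_sum_of_nonempty ⟨∅, by simp⟩ fun s hs => hcon s (Finset.mem_powerset.1 hs)
    rw [Finset.sum_const, Finset.card_powerset, nsmul_eq_mul] at h8
    push_cast at h8
    linarith
  linarith

end Pool.Agent.H597.SP
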