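import Pool.Agent.TH83.DC.Ints

/-!
Triangular systems of multipliers, and dilates by their products.
-/

set_option autoImplicit false

namespace Pool.Agent.H597.SP

open Finset
open Pool.Agent.TH83.SQ (cls dil)
open Pool.Agent.TH83.DC (ent)
open scoped Pointwise Classical

/-- a triangular system of multipliers `a p / b p`, indexed by a set of primes: `q p` divides
exactly one of `a p` and `b p`, exactly, and it is coprime to the smaller multipliers -/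
structure Tri (Pi : Set ℕ) (a b : ℕ → ℤ) (q : ℕ → ℕ) : Prop where
  prime : ∀ p ∈ Pi, p.Prime
  two : ∀ p ∈ Pi, 2 ≤ q p
  div : ∀ p ∈ Pi, ∃ t w v : ℤ, t = v * q p ∧ IsCoprime v (q p : ℤ) ∧ IsCoprime w (q p : ℤ) ∧
    ((a p = t ∧ b p = w) ∨ (a p = w ∧ b p = t))
  copa : ∀ p ∈ Pi, ∀ x ∈ Pi, x < p → IsCoprime (a x) (q p : ℤ)
  copb : ∀ p ∈ Pi, ∀ x ∈ Pi, x < p → IsCoprime (b x) (q p : ℤ)

/-- a multiplier which can be removed from `P`: some `Q` divides exactly one of its two parts,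
exactly, `Q` is coprime to the other multipliers, and at most `M` of these have multiplicative
order at most `K` modulo a prime divisor of `Q` -/
structure Step (M K : ℕ) (a b : ℕ → ℤ) (P : Finset ℕ) (p Q : ℕ) : Prop where
  two : 2 ≤ Q
  div : ∃ t w v : ℤ, t = v * Q ∧ IsCoprime v (Q : ℤ) ∧ IsCoprime w (Q : ℤ) ∧
    ((a p = t ∧ b p = w) ∨ (a p = w ∧ b p = t))
  cop : ∀ x ∈ P.erase p, IsCoprime (a x) (Q : ℤ) ∧ IsCoprime (b x) (Q : ℤ)
  bad : ∀ l : ℕ, l.Prime → l ∣ Q → ((P.erase p).filter fun x =>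
    ∃ j, 1 ≤ j ∧ j ≤ K ∧ (l : ℤ) ∣ a x ^ j - b x ^ j).card ≤ M

/-- the product of the multipliers -/
def pr (a b : ℕ → ℤ) (P s : Finset ℕ) : ℤ := (∏ x ∈ s, a x) * ∏ x ∈ P \ s, b x

/-- the completely multiplicative function with the values `a p` -/
def ev (a : ℕ → ℤ) (n : ℕ) : ℤ := n.factorization.prod fun p e => a p ^ e

/-- the mean over `s ⊆ P` of `log |(pr s) X + B|` -/
noncomputable def tau (a b : ℕ → ℤ) (P : Finset ℕ) (X B : Finset ℤ) : ℝ :=
  (∑ s ∈ P.powerset, Real.log ((dil (pr a b P s) X + B).card : ℝ)) / 2 ^ P.card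

/-- the mean over the divisors `d` of `n` of `log |(ev a d * ev b (n / d)) X + B|` -/
noncomputable def T (a b : ℕ → ℤ) (n : ℕ) (X B : Finset ℤ) : ℝ :=
  (∑ d ∈ n.divisors, Real.log ((dil (ev a d * ev b (n / d)) X + B).card : ℝ)) /
    n.divisors.card

theorem pr_insert {a b : ℕ → ℤ} {p : ℕ} {P s : Finset ℕ} (hp : p ∉ P) (hs : s ⊆ P) :
    pr a b (insert p P) (insert p s) = a p * pr a b P s := by
  unfold pr
  have h : insert p P \ insert p s = P \ s := by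
    ext x
    simp only [Finset.mem_sdiff, Finset.mem_insert]
    constructor
    · rintro ⟨h1 | h1, h2⟩
      · exact absurd (Or.inl h1) h2
      · exact ⟨h1, fun h => h2 (Or.inr h)⟩
    · rintro ⟨h1, h2⟩
      exact ⟨Or.inr h1, fun h => h.elim (fun h => hp (h ▸ h1)) h2⟩
  rw [h, Finset.prod_insert fun h => hp (hs h), mul_assoc]

theorem pr_insert' {a b : ℕ → ℤ} {p : ℕ} {P s : Finset ℕ} (hp : p ∉ P) (hs : s ⊆ P) :
    pr a b (insert p P) s = b p * pr a b P s := by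
  unfold pr
  rw [Finset.insert_sdiff_of_notMem _ fun h => hp (hs h), Finset.prod_insert fun h =>
    hp (Finset.mem_sdiff.1 h).1]
  ring

theorem ev_one (a : ℕ → ℤ) : ev a 1 = 1 := by simp [ev]

theorem ev_mul (a : ℕ → ℤ) {m n : ℕ} (hm : m ≠ 0) (hn : n ≠ 0) :
    ev a (m * n) = ev a m * ev a n := by
  unfold ev
  rw [Nat.factorization_mul hm hn]
  exact Finsupp.prod_add_index' (fun _ => pow_zero _) fun _ _ _ => pow_add _ _ _

theorem ev_prime_pow (a : ℕ → ℤ) {p : ℕ} (hp : p.Prime) (e : ℕ) : ev a (p ^ e) = a p ^ e := by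
  unfold ev
  rw [hp.factorization_pow]
  exact Finsupp.prod_single_index (pow_zero _)

theorem ev_prod (a : ℕ → ℤ) {s : Finset ℕ} (hs : ∀ x ∈ s, x.Prime) :
    ev a (∏ x ∈ s, x) = ∏ x ∈ s, a x := by
  induction s using Finset.induction_on with
  | empty => simp [ev_one]
  | insert p s hp ih =>
    have h1 := hs p (Finset.mem_insert_self _ _)
    have h2 : ∀ x ∈ s, x.Prime := fun x hx => hs x (Finset.mem_insert_of_mem hx)
    rw [Finset.prod_insert hp, Finset.prod_insert hp, ev_mul a h1.ne_zero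
      (Finset.prod_ne_zero_iff.2 fun x hx => (h2 x hx).ne_zero), ih h2]
    congr 1
    have := ev_prime_pow a h1 1
    rwa [pow_one, pow_one] at this

variable {Pi : Set ℕ} {M K : ℕ} {a b : ℕ → ℤ} {q : ℕ → ℕ}

theorem Tri.q0 (h : Tri Pi a b q) {p : ℕ} (hp : p ∈ Pi) : (q p : ℤ) ≠ 0 := by
  have := h.two p hp
  exact_mod_cast (by omega : q p ≠ 0)

theorem cop_ne {Q : ℕ} (hQ : 2 ≤ Q) {d : ℤ} (hd : IsCoprime d (Q : ℤ)) : d ≠ 0 := by
  rintro rfl
  rw [isCoprime_zero_left] at hd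
  have := Int.isUnit_iff.mp hd
  omega

/-- the products of smaller multipliers are coprime to `q p` -/
theorem Tri.ev_cop (h : Tri Pi a b q) {p : ℕ} (hp : p ∈ Pi) {n : ℕ}
    (hn : ∀ x ∈ n.primeFactors, x ∈ Pi ∧ x < p) :
    IsCoprime (ev a n) (q p : ℤ) ∧ IsCoprime (ev b n) (q p : ℤ) := by
  unfold ev
  rw [Finsupp.prod, Finsupp.prod]
  exact ⟨IsCoprime.prod_left fun x hx => (h.copa p hp x (hn x hx).1 (hn x hx).2).pow_left,
    IsCoprime.prod_left fun x hx => (h.copb p hp x (hn x hx).1 (hn x hx).2).pow_left⟩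

theorem pr_cop {q₀ : ℕ} {P s : Finset ℕ}
    (hP : ∀ x ∈ P, IsCoprime (a x) (q₀ : ℤ) ∧ IsCoprime (b x) (q₀ : ℤ)) (hs : s ⊆ P) :
    IsCoprime (pr a b P s) (q₀ : ℤ) := by
  unfold pr
  exact IsCoprime.mul_left (IsCoprime.prod_left fun x hx => (hP x (hs hx)).1)
    (IsCoprime.prod_left fun x hx => (hP x (Finset.mem_sdiff.1 hx).1).2)

/-! dilates by multiples of powers of `Q` -/

theorem dvd_key {Q : ℕ} (hQ : 2 ≤ Q) {d : ℤ} (hd : IsCoprime d (Q : ℤ)) (i l : ℕ) (x : ℤ) :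
    (Q : ℤ) ^ l ∣ d * (Q : ℤ) ^ i * x ↔ (Q : ℤ) ^ (l - i) ∣ x := by
  have hp0 : (Q : ℤ) ≠ 0 := by exact_mod_cast (by omega : Q ≠ 0)
  rcases le_or_gt l i with hl | hl
  · have e : l - i = 0 := by omega
    rw [e, pow_zero]
    constructor
    · intro _; exact one_dvd _
    · intro _
      have : (Q : ℤ) ^ l ∣ (Q : ℤ) ^ i := pow_dvd_pow _ hl
      exact Dvd.dvd.mul_right (Dvd.dvd.mul_left this d) x
  · obtain ⟨k, rfl⟩ : ∃ k, l = i + k := ⟨l - i, by omega⟩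
    have e0 : i + k - i = k := by omega
    rw [e0]
    have hc : IsCoprime ((Q : ℤ) ^ k) d := (hd.symm).pow_left
    have e2 : d * (Q : ℤ) ^ i * x = (Q : ℤ) ^ i * (d * x) := by ring
    rw [pow_add, e2, mul_dvd_mul_iff_left (pow_ne_zero i hp0)]
    constructor
    · intro h2
      exact hc.dvd_of_dvd_mul_left h2
    · intro h
      exact Dvd.dvd.mul_left h d

theorem cls_dil {Q : ℕ} (hQ : 2 ≤ Q) {d : ℤ} (hd : IsCoprime d (Q : ℤ)) (i l : ℕ)
    (X : Finset ℤ) (x : ℤ) :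
    cls ((Q : ℤ) ^ l) (dil (d * (Q : ℤ) ^ i) X) (d * (Q : ℤ) ^ i * x) =
      dil (d * (Q : ℤ) ^ i) (cls ((Q : ℤ) ^ (l - i)) X x) := by
  ext z
  simp only [cls, Finset.mem_filter, dil, Finset.mem_image]
  constructor
  · rintro ⟨⟨y, hy, rfl⟩, h2⟩
    refine ⟨y, ⟨hy, ?_⟩, rfl⟩
    rw [← mul_sub] at h2
    exact (dvd_key hQ hd i l _).mp h2
  · rintro ⟨y, ⟨hy, h2⟩, rfl⟩
    refine ⟨⟨y, hy, rfl⟩, ?_⟩
    rw [← mul_sub]
    exact (dvd_key hQ hd i l _).mpr h2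

theorem coeff_ne {Q : ℕ} (hQ : 2 ≤ Q) {d : ℤ} (hd : IsCoprime d (Q : ℤ)) (i : ℕ) :
    d * (Q : ℤ) ^ i ≠ 0 :=
  mul_ne_zero (cop_ne hQ hd) (pow_ne_zero i (by exact_mod_cast (by omega : Q ≠ 0)))

theorem ent_dil {Q : ℕ} (hQ : 2 ≤ Q) {d : ℤ} (hd : IsCoprime d (Q : ℤ))
    (i l : ℕ) (X : Finset ℤ) :
    ent ((Q : ℤ) ^ l) (dil (d * (Q : ℤ) ^ i) X) = ent ((Q : ℤ) ^ (l - i)) X := by
  have hinj : Function.Injective (fun x : ℤ => d * (Q : ℤ) ^ i * x) :=
    mul_right_injective₀ (coeff_ne hQ hd i)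
  have hcard : ∀ Y : Finset ℤ, (dil (d * (Q : ℤ) ^ i) Y).card = Y.card := fun Y =>
    Finset.card_image_of_injective _ hinj
  unfold ent
  rw [hcard]
  congr 1
  conv_lhs => unfold dil
  rw [Finset.sum_image (fun x _ y _ h => hinj h)]
  apply Finset.sum_congr rfl
  intro x _
  have := cls_dil hQ hd i l X x
  unfold dil at this
  rw [this]
  have := hcard (cls ((Q : ℤ) ^ (l - i)) X x)
  unfold dil at this
  rw [this]

end Pool.Agent.H597.SP
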